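import Mathlib

set_option autoImplicit false

namespace Pool.Agent.H957R3.CM

universe u

open IsLocalRing

/-- A Noetherian local ring is Cohen-Macaulay: there is a regular sequence in the maximal ideal
whose length is the Krull dimension. -/
def IsCohenMacaulayLocalRing (S : Type u) [CommRing S] [IsLocalRing S] : Prop :=
  IsNoetherianRing S ∧ ∃ rs : List S, (∀ r ∈ rs, r ∈ maximalIdeal S) ∧
    RingTheory.Sequence.IsRegular S rs ∧ (rs.length : WithBot ℕ∞) = ringKrullDim S

/-- A commutative ring is Cohen-Macaulay: it is Noetherian and all its localizations at prime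
ideals are Cohen-Macaulay local rings. -/
def IsCohenMacaulayRing (R : Type u) [CommRing R] : Prop :=
  IsNoetherianRing R ∧ ∀ (p : Ideal R) [p.IsPrime],
    IsCohenMacaulayLocalRing (Localization.AtPrime p)

theorem local_of_reduced_dim_le_one (S : Type u) [CommRing S] [IsLocalRing S]
    [IsNoetherianRing S] [IsReduced S] (hd : ringKrullDim S ≤ 1) :
    IsCohenMacaulayLocalRing S := by
  refine ⟨inferInstance, ?_⟩
  by_cases h : ∃ x ∈ maximalIdeal S, x ∈ nonZeroDivisors S
  · obtain ⟨x, hxm, hx⟩ := h
    refine ⟨[x], by simpa using hxm, ?_, ?_⟩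
    · apply RingTheory.Sequence.IsRegular.of_isWeaklyRegular_of_mem_maximalIdeal
      · simpa using hxm
      · rw [RingTheory.Sequence.isWeaklyRegular_singleton_iff]
        intro a b hab
        have : x * (a - b) = 0 := by
          have : x * a = x * b := hab
          rw [mul_sub, this, sub_self]
        have h2 := (mem_nonZeroDivisors_iff_right.1 hx) (a - b) (by rw [mul_comm]; exact this)
        exact sub_eq_zero.1 h2
    · have h1 := ringKrullDim_quotient_succ_le_of_nonZeroDivisor hx
      have hne : Ideal.span {x} ≠ ⊤ := by
        intro h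
        have : (1 : S) ∈ maximalIdeal S := by
          have h1 : (1 : S) ∈ Ideal.span {x} := by rw [h]; trivial
          exact (Ideal.span_le.2 (by simpa using hxm)) h1
        exact (Ideal.ne_top_iff_one _).1 (maximalIdeal.isMaximal S).ne_top this
      have : Nontrivial (S ⧸ Ideal.span {x}) := Ideal.Quotient.nontrivial_iff.mpr hne
      have h0 : (0 : WithBot ℕ∞) ≤ ringKrullDim (S ⧸ Ideal.span {x}) := ringKrullDim_nonneg_of_nontrivial
      have h2 : (1 : WithBot ℕ∞) ≤ ringKrullDim S :=
        le_trans (by simpa using add_le_add_left h0 1) h1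
      simp only [List.length_cons, List.length_nil]
      exact le_antisymm (by simpa using h2) (by simpa using hd)
  · push Not at h
    refine ⟨[], by simp, RingTheory.Sequence.IsRegular.nil S S, ?_⟩
    have hfin := minimalPrimes.finite_of_isNoetherianRing S
    have hsub : ((maximalIdeal S : Ideal S) : Set S) ⊆
        ⋃ i ∈ (↑hfin.toFinset : Set (Ideal S)), (id i : Ideal S) := by
      intro x hx
      have hx' := h x hx
      rw [mem_nonZeroDivisors_iff_right] at hx'
      push Not at hx'
      obtain ⟨y, hy, hy0⟩ := hx'
      have : y ∉ sInf (minimalPrimes S) := by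
        rw [minimalPrimes, Ideal.sInf_minimalPrimes, Ideal.radical_eq_iff.2]
        · simpa using hy0
        · intro z hz
          obtain ⟨n, hn⟩ := hz
          have : IsNilpotent z := ⟨n, by simpa using hn⟩
          simpa using this.eq_zero
      rw [Ideal.mem_sInf] at this
      push Not at this
      obtain ⟨q, hq, hyq⟩ := this
      simp only [Set.mem_iUnion]
      refine ⟨q, by simpa using hq, ?_⟩
      have hqp : q.IsPrime := hq.1.1
      have : y * x ∈ q := by rw [hy]; exact q.zero_mem
      exact (hqp.mem_or_mem this).resolve_left hyq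
    obtain ⟨q, hq, hle⟩ := (Ideal.subset_union_prime (f := id) (s := hfin.toFinset) ⊤ ⊤ (by
      intro i hi _ _
      have : i ∈ minimalPrimes S := by simpa using hi
      exact this.1.1)).1 hsub
    have hq' : q ∈ minimalPrimes S := by simpa using hq
    have hqp : q.IsPrime := hq'.1.1
    have hmq : maximalIdeal S = q := le_antisymm hle (le_maximalIdeal hqp.ne_top)
    have := IsLocalRing.maximalIdeal_height_eq_ringKrullDim (R := S)
    rw [← this]
    have h0 : (maximalIdeal S).height = 0 := by
      rw [Ideal.height_eq_zero_iff, hmq]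
      exact hq'
    simp [h0]

theorem ring_of_reduced_dim_le_one (R : Type u) [CommRing R] [IsNoetherianRing R] [IsReduced R]
    (hd : ringKrullDim R ≤ 1) : IsCohenMacaulayRing R := by
  refine ⟨inferInstance, fun p hp => ?_⟩
  have : IsNoetherianRing (Localization.AtPrime p) :=
    IsLocalization.isNoetherianRing p.primeCompl _ inferInstance
  refine local_of_reduced_dim_le_one _ (le_trans ?_ hd)
  rw [IsLocalization.AtPrime.ringKrullDim_eq_height p]
  exact Ideal.height_le_ringKrullDim_of_ne_top hp.ne_top

theorem ringKrullDim_le_of_integral (A R : Type u) [CommRing A] [CommRing R] [Algebra A R]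
    [Algebra.IsIntegral A R] : ringKrullDim R ≤ ringKrullDim A := by
  refine Order.krullDim_le_of_strictMono (PrimeSpectrum.comap (algebraMap A R)) ?_
  intro p q hpq
  have h1 : p.asIdeal < q.asIdeal := hpq
  obtain ⟨hle, x, hxq, hxp⟩ := SetLike.lt_iff_le_and_exists.mp h1
  exact Ideal.comap_lt_comap_of_integral_mem_sdiff (hI := p.2) hle ⟨hxq, hxp⟩
    (Algebra.IsIntegral.isIntegral x)

end Pool.Agent.H957R3.CM
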