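import Mathlib
import Pool.Agent.H957R3.CM

set_option autoImplicit false

namespace Pool.Agent.H957R3.Ind

universe u

open Polynomial

/-- The group `SL₂(k)` of `k`-points of the simply connected simple algebraic group of type
`A₁`. -/
abbrev G (k : Type u) [Field k] : Type u := Matrix.SpecialLinearGroup (Fin 2) k

/-- The Borel subgroup `B(k)` of upper triangular matrices in `SL₂(k)`. -/
def borel (k : Type u) [Field k] : Subgroup (G k) where
  carrier := {g | g 1 0 = 0}
  mul_mem' := by
    intro a b ha hb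
    simp only [Set.mem_ofPred_eq] at *
    simp [Matrix.SpecialLinearGroup.coe_mul, Matrix.mul_apply, Fin.sum_univ_two, ha, hb]
  one_mem' := by simp
  inv_mem' := by
    intro a ha
    simp only [Set.mem_ofPred_eq] at *
    rw [Matrix.SpecialLinearGroup.SL2_inv_expl]
    simp [ha]

/-- A map from a set `S` of matrices (via `ι`) to a commutative `k`-algebra `R` is a morphism if
it is given by a polynomial in the four matrix entries with coefficients in `R`. -/
def IsMorphism {k : Type u} [Field k] {R : Type u} [CommRing R] [Algebra k R] {S : Type u}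
    (ι : S → Matrix (Fin 2) (Fin 2) k) (f : S → R) : Prop :=
  ∃ Φ : MvPolynomial (Fin 2 × Fin 2) R,
    ∀ s, f s = MvPolynomial.eval (fun ij => algebraMap k R (ι s ij.1 ij.2)) Φ

/-- A `B`-algebra: a commutative `k`-algebra `R` with a rational action of `B` by `k`-algebra
automorphisms. Rational means that `b ↦ b · r` is a morphism for every `r`. -/
structure BAlgebra (k : Type u) [Field k] (R : Type u) [CommRing R] [Algebra k R] where
  /-- the action -/
  act : borel k →* (R →ₐ[k] R)
  rational : ∀ r : R, IsMorphism (fun b : borel k => ((b : G k) : Matrix (Fin 2) (Fin 2) k))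
    (fun b => act b r)

/-- The induced algebra `ind_B^G R`: all morphisms `f : G → R` with `f (g b) = b⁻¹ f(g)`, with
pointwise operations. -/
def ind {k : Type u} [Field k] {R : Type u} [CommRing R] [Algebra k R] (A : BAlgebra k R) :
    Subalgebra k (G k → R) where
  carrier := {f | IsMorphism (fun g : G k => (g : Matrix (Fin 2) (Fin 2) k)) f ∧
    ∀ (g : G k) (b : borel k), f (g * (b : G k)) = A.act b⁻¹ (f g)}
  mul_mem' := by
    rintro f g ⟨⟨Φ, hΦ⟩, hf⟩ ⟨⟨Ψ, hΨ⟩, hg⟩
    refine ⟨⟨Φ * Ψ, fun s => ?_⟩, fun x b => ?_⟩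
    · rw [map_mul, Pi.mul_apply, hΦ, hΨ]
    · rw [Pi.mul_apply, Pi.mul_apply, map_mul, hf, hg]
  add_mem' := by
    rintro f g ⟨⟨Φ, hΦ⟩, hf⟩ ⟨⟨Ψ, hΨ⟩, hg⟩
    refine ⟨⟨Φ + Ψ, fun s => ?_⟩, fun x b => ?_⟩
    · rw [map_add, Pi.add_apply, hΦ, hΨ]
    · rw [Pi.add_apply, Pi.add_apply, map_add, hf, hg]
  algebraMap_mem' := by
    intro c
    refine ⟨⟨MvPolynomial.C (algebraMap k R c), fun s => ?_⟩, fun x b => ?_⟩
    · simp [Pi.algebraMap_apply]
    · simp [Pi.algebraMap_apply]

section example_ring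

variable (k : Type u) [Field k]

/-- The ring `k[x,y]/(xy)`, as the fibre product of two polynomial rings over `k`. -/
noncomputable def FP : Subalgebra k (k[X] × k[X]) :=
  AlgHom.equalizer ((Polynomial.aeval (0 : k)).comp (AlgHom.fst k k[X] k[X]))
    ((Polynomial.aeval (0 : k)).comp (AlgHom.snd k k[X] k[X]))

variable {k}

theorem mem_FP {f : k[X] × k[X]} : f ∈ FP k ↔ f.1.coeff 0 = f.2.coeff 0 := by
  rw [FP, AlgHom.mem_equalizer]
  simp [Polynomial.coeff_zero_eq_aeval_zero]

/-- scaling the variable -/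
noncomputable def scale (c : k) : k[X] →ₐ[k] k[X] := Polynomial.aeval (C c * X)

theorem scale_coeff (c : k) (f : k[X]) (n : ℕ) : (scale c f).coeff n = c ^ n * f.coeff n := by
  induction f using Polynomial.induction_on' with
  | add p q hp hq => rw [map_add, coeff_add, coeff_add, hp, hq, mul_add]
  | monomial m a =>
    rw [scale, Polynomial.aeval_monomial, mul_pow, ← C_pow, Polynomial.algebraMap_eq,
      ← mul_assoc, ← C_mul, coeff_C_mul, coeff_X_pow, coeff_monomial]
    by_cases h : n = m
    · subst h; simp [mul_comm]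
    · have h' : m ≠ n := fun e => h e.symm
      simp [h, h']

theorem scale_one : scale (1 : k) = AlgHom.id k k[X] := by
  apply AlgHom.ext; intro f; ext n; simp [scale_coeff]

theorem scale_mul (c d : k) : scale (c * d) = (scale c).comp (scale d) := by
  apply AlgHom.ext; intro f; ext n; simp [scale_coeff, mul_pow, mul_assoc]

/-- The endomorphism of the fibre product. -/
noncomputable def act0 (c : k) : FP k →ₐ[k] FP k :=
  AlgHom.codRestrict
    ((AlgHom.prodMap (scale c) (scale c)).comp (FP k).val) (FP k) (by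
      rintro ⟨f, hf⟩
      rw [mem_FP] at hf ⊢
      change (scale c f.1).coeff 0 = (scale c f.2).coeff 0
      rw [scale_coeff, scale_coeff, hf])

theorem act0_fst (c : k) (f : FP k) : (act0 c f : k[X] × k[X]).1 = scale c (f : k[X] × k[X]).1 :=
  rfl

theorem act0_snd (c : k) (f : FP k) : (act0 c f : k[X] × k[X]).2 = scale c (f : k[X] × k[X]).2 :=
  rfl

theorem act0_one : act0 (1 : k) = AlgHom.id k (FP k) := by
  apply AlgHom.ext; intro f
  apply Subtype.ext
  apply Prod.ext
  · rw [act0_fst, scale_one]; rfl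
  · rw [act0_snd, scale_one]; rfl

theorem act0_mul (c d : k) : act0 (c * d) = (act0 c).comp (act0 d) := by
  apply AlgHom.ext; intro f
  apply Subtype.ext
  apply Prod.ext
  · rw [act0_fst, scale_mul]; rfl
  · rw [act0_snd, scale_mul]; rfl

/-- The action of the Borel subgroup through the character `b ↦ b 1 1`. -/
noncomputable def act : borel k →* (FP k →ₐ[k] FP k) where
  toFun b := act0 ((b : G k) 1 1)
  map_one' := by
    have : ((1 : borel k) : G k) 1 1 = 1 := by simp
    rw [this, act0_one]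
    rfl
  map_mul' := by
    intro a b
    have hb : (a : G k) 1 0 = 0 := a.2
    have : ((a * b : borel k) : G k) 1 1 = (a : G k) 1 1 * (b : G k) 1 1 := by
      rw [Subgroup.coe_mul, Matrix.SpecialLinearGroup.coe_mul, Matrix.mul_apply,
        Fin.sum_univ_two, hb]
      simp
    rw [this, act0_mul]
    rfl

/-- homogeneous component -/
noncomputable def comp (n : ℕ) (r : FP k) : FP k :=
  ⟨(monomial n ((r : k[X] × k[X]).1.coeff n), monomial n ((r : k[X] × k[X]).2.coeff n)), by
    rw [mem_FP]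
    simp only [coeff_monomial]
    split_ifs with h
    · subst h; exact mem_FP.1 r.2
    · rfl⟩

theorem FP_ext {r s : FP k} (h1 : ∀ n, (r : k[X] × k[X]).1.coeff n = (s : k[X] × k[X]).1.coeff n)
    (h2 : ∀ n, (r : k[X] × k[X]).2.coeff n = (s : k[X] × k[X]).2.coeff n) : r = s :=
  Subtype.ext (Prod.ext (Polynomial.ext h1) (Polynomial.ext h2))

/-- coefficient functionals -/
noncomputable def cf1 (n : ℕ) : FP k →ₗ[k] k :=
  (Polynomial.lcoeff k n) ∘ₗ (LinearMap.fst k k[X] k[X]) ∘ₗ (FP k).val.toLinearMap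

/-- coefficient functionals -/
noncomputable def cf2 (n : ℕ) : FP k →ₗ[k] k :=
  (Polynomial.lcoeff k n) ∘ₗ (LinearMap.snd k k[X] k[X]) ∘ₗ (FP k).val.toLinearMap

theorem cf1_apply (n : ℕ) (r : FP k) : cf1 n r = (r : k[X] × k[X]).1.coeff n := rfl
theorem cf2_apply (n : ℕ) (r : FP k) : cf2 n r = (r : k[X] × k[X]).2.coeff n := rfl

theorem FP_ext' {r s : FP k} (h1 : ∀ n, cf1 n r = cf1 n s) (h2 : ∀ n, cf2 n r = cf2 n s) :
    r = s := FP_ext h1 h2

theorem cf1_comp (m n : ℕ) (r : FP k) : cf1 m (comp n r) = if n = m then cf1 m r else 0 := by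
  rw [cf1_apply, cf1_apply]
  change (monomial n ((r : k[X] × k[X]).1.coeff n)).coeff m = _
  rw [coeff_monomial]
  split_ifs with h
  · rw [h]
  · rfl

theorem cf2_comp (m n : ℕ) (r : FP k) : cf2 m (comp n r) = if n = m then cf2 m r else 0 := by
  rw [cf2_apply, cf2_apply]
  change (monomial n ((r : k[X] × k[X]).2.coeff n)).coeff m = _
  rw [coeff_monomial]
  split_ifs with h
  · rw [h]
  · rfl

theorem cf1_act0 (c : k) (n : ℕ) (r : FP k) : cf1 n (act0 c r) = c ^ n * cf1 n r :=
  scale_coeff c _ n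

theorem cf2_act0 (c : k) (n : ℕ) (r : FP k) : cf2 n (act0 c r) = c ^ n * cf2 n r :=
  scale_coeff c _ n

/-- degree bound -/
noncomputable def bd (r : FP k) : ℕ :=
  max (r : k[X] × k[X]).1.natDegree (r : k[X] × k[X]).2.natDegree

theorem cf1_eq_zero_of_bd {r : FP k} {n : ℕ} (h : bd r < n) : cf1 n r = 0 :=
  coeff_eq_zero_of_natDegree_lt (lt_of_le_of_lt (le_max_left _ _) h)

theorem cf2_eq_zero_of_bd {r : FP k} {n : ℕ} (h : bd r < n) : cf2 n r = 0 :=
  coeff_eq_zero_of_natDegree_lt (lt_of_le_of_lt (le_max_right _ _) h)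

theorem act0_eq_sum (c : k) (r : FP k) :
    act0 c r = ∑ n ∈ Finset.range (bd r + 1), algebraMap k (FP k) (c ^ n) * comp n r := by
  apply FP_ext'
  · intro m
    rw [cf1_act0, map_sum]
    simp only [← Algebra.smul_def, map_smul, cf1_comp, smul_eq_mul, mul_ite, mul_zero]
    rw [Finset.sum_ite_eq']
    split_ifs with h
    · rfl
    · rw [cf1_eq_zero_of_bd (by simpa using h), mul_zero]
  · intro m
    rw [cf2_act0, map_sum]
    simp only [← Algebra.smul_def, map_smul, cf2_comp, smul_eq_mul, mul_ite, mul_zero]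
    rw [Finset.sum_ite_eq']
    split_ifs with h
    · rfl
    · rw [cf2_eq_zero_of_bd (by simpa using h), mul_zero]

/-- The `B`-algebra `k[x,y]/(xy)`. -/
noncomputable def alg (k : Type u) [Field k] : BAlgebra k (FP k) where
  act := act
  rational := by
    intro r
    refine ⟨∑ n ∈ Finset.range (bd r + 1),
      MvPolynomial.C (comp n r) * (MvPolynomial.X (1, 1)) ^ n, fun b => ?_⟩
    change act0 ((b : G k) 1 1) r = _
    rw [act0_eq_sum, map_sum]
    refine Finset.sum_congr rfl fun n _ => ?_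
    rw [map_mul, MvPolynomial.eval_C, mul_comm, map_pow]
    congr 1
    simp only [map_pow, MvPolynomial.eval_X]

theorem alg_act (b : borel k) : (alg k).act b = act0 ((b : G k) 1 1) := rfl

/-! ### Functions on `G` -/

/-- evaluating a polynomial along a polynomial curve and applying a linear functional -/
theorem curve {R : Type u} [CommRing R] [Algebra k R] (L : R →ₗ[k] k)
    (γ : k → Matrix (Fin 2) (Fin 2) k) (E : Fin 2 × Fin 2 → k[X])
    (hE : ∀ z ij, γ z ij.1 ij.2 = (E ij).eval z) (Φ : MvPolynomial (Fin 2 × Fin 2) R) :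
    ∃ P : k[X], ∀ z, L (MvPolynomial.eval (fun ij => algebraMap k R (γ z ij.1 ij.2)) Φ) =
      P.eval z := by
  induction Φ using MvPolynomial.induction_on with
  | C r => exact ⟨C (L r), fun z => by simp⟩
  | add p q hp hq =>
    obtain ⟨P, hP⟩ := hp
    obtain ⟨Q, hQ⟩ := hq
    exact ⟨P + Q, fun z => by rw [map_add, map_add, hP, hQ, eval_add]⟩
  | mul_X p i hp =>
    obtain ⟨P, hP⟩ := hp
    refine ⟨P * E i, fun z => ?_⟩
    rw [map_mul, MvPolynomial.eval_X, mul_comm, ← Algebra.smul_def, map_smul, hP, hE, eval_mul,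
      smul_eq_mul, mul_comm]

/-- a matrix of determinant one -/
def mk4 (a b c d : k) (h : a * d - b * c = 1) : G k :=
  ⟨!![a, b; c, d], by rw [Matrix.det_fin_two_of]; exact h⟩

theorem mk4_00 (a b c d : k) (h : a * d - b * c = 1) : (mk4 a b c d h) 0 0 = a := rfl
theorem mk4_01 (a b c d : k) (h : a * d - b * c = 1) : (mk4 a b c d h) 0 1 = b := rfl
theorem mk4_10 (a b c d : k) (h : a * d - b * c = 1) : (mk4 a b c d h) 1 0 = c := rfl
theorem mk4_11 (a b c d : k) (h : a * d - b * c = 1) : (mk4 a b c d h) 1 1 = d := rfl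

theorem mul_entry (g h : G k) (i j : Fin 2) : (g * h) i j = g i 0 * h 0 j + g i 1 * h 1 j := by
  rw [Matrix.SpecialLinearGroup.coe_mul, Matrix.mul_apply, Fin.sum_univ_two]

theorem ext4 {g h : G k} (h00 : g 0 0 = h 0 0) (h01 : g 0 1 = h 0 1) (h10 : g 1 0 = h 1 0)
    (h11 : g 1 1 = h 1 1) : g = h := by
  apply Subtype.ext
  ext i j
  fin_cases i <;> fin_cases j <;> assumption

/-- lower unipotent matrices -/
def lo (z : k) : G k := mk4 1 0 z 1 (by ring)

/-- another chart -/
def hi (z : k) : G k := mk4 z (-1) 1 0 (by ring)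

theorem eq_lo_mul (g : G k) (h : g 0 0 ≠ 0) : ∃ b : borel k, (b : G k) 0 0 = g 0 0 ∧
    g = lo (g 1 0 / g 0 0) * (b : G k) := by
  have hdet : g 0 0 * g 1 1 - g 0 1 * g 1 0 = 1 := by
    have := g.2; rwa [Matrix.det_fin_two] at this
  refine ⟨⟨mk4 (g 0 0) (g 0 1) 0 (g 0 0)⁻¹ (by field_simp; ring), rfl⟩, rfl, ?_⟩
  apply ext4 <;> simp only [mul_entry, lo, mk4_00, mk4_01, mk4_10, mk4_11] <;> field_simp
  · ring
  · ring
  · ring
  · linear_combination hdet

theorem eq_hi_mul (g : G k) (h : g 0 0 = 0) : ∃ b : borel k, (b : G k) 0 0 = g 1 0 ∧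
    g = hi 0 * (b : G k) := by
  have hdet : g 0 0 * g 1 1 - g 0 1 * g 1 0 = 1 := by
    have := g.2; rwa [Matrix.det_fin_two] at this
  rw [h] at hdet
  refine ⟨⟨mk4 (g 1 0) (g 1 1) 0 (- g 0 1) (by linear_combination hdet), rfl⟩, rfl, ?_⟩
  apply ext4 <;> simp only [mul_entry, hi, mk4_00, mk4_01, mk4_10, mk4_11, h] <;> ring

theorem hi_eq_lo_mul (z : k) (h : z ≠ 0) : ∃ b : borel k, (b : G k) 0 0 = z ∧
    hi z = lo z⁻¹ * (b : G k) := by
  obtain ⟨b, hb, e⟩ := eq_lo_mul (hi z) (by rw [hi, mk4_00]; exact h)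
  refine ⟨b, by rw [hb, hi, mk4_00], ?_⟩
  have : (hi z) 1 0 / (hi z) 0 0 = z⁻¹ := by rw [hi, mk4_00, mk4_10, one_div]
  rw [this] at e
  exact e

/-- The key lemma: `B`-semi-invariant functions of weight `n` on `G` are homogeneous polynomials
of degree `n` in the first column. -/
theorem key [Infinite k] (n : ℕ) (F : G k → k) (P Q : k[X]) (hP : ∀ z, F (lo z) = P.eval z)
    (hQ : ∀ z, F (hi z) = Q.eval z)
    (hF : ∀ (g : G k) (b : borel k), F (g * (b : G k)) = ((b : G k) 0 0) ^ n * F g) :
    P.natDegree ≤ n ∧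
    ∀ g : G k, F g = ∑ i ∈ Finset.range (n + 1), P.coeff i * ((g 1 0) ^ i * (g 0 0) ^ (n - i)) := by
  have h1 : ∀ z : k, z ≠ 0 → Q.eval z = z ^ n * P.eval z⁻¹ := by
    intro z hz
    obtain ⟨b, hb, e⟩ := hi_eq_lo_mul z hz
    rw [← hQ, e, hF, hb, hP]
  -- the degree bound
  have hdeg : P.natDegree ≤ n := by
    by_contra hcon
    push Not at hcon
    set m := P.natDegree with hm
    -- X^(m-n) Q = reverse of P
    have hid : X ^ (m - n) * Q = P.reverse := by
      refine Polynomial.eq_of_infinite_eval_eq _ _ (Set.Infinite.mono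
        (s := {z : k | z ≠ 0}) ?_ ?_)
      · intro z hz
        have hz' : z ≠ 0 := hz
        simp only [Set.mem_ofPred_eq, eval_mul, eval_pow, eval_X]
        have hr : P.reverse.eval z * z⁻¹ ^ m = P.eval z⁻¹ := by
          haveI : Invertible z⁻¹ := invertibleOfNonzero (inv_ne_zero hz')
          have h3 := Polynomial.eval₂_reverse_mul_pow (RingHom.id k) z⁻¹ P
          rw [invOf_eq_inv, inv_inv, ← hm] at h3
          exact h3
        rw [h1 z hz', ← hr]
        have : z ^ m = z ^ (m - n) * z ^ n := by rw [← pow_add]; congr 1; omega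
        calc z ^ (m - n) * (z ^ n * (eval z P.reverse * z⁻¹ ^ m))
            = (z ^ (m - n) * z ^ n) * z⁻¹ ^ m * eval z P.reverse := by ring
          _ = eval z P.reverse := by
            rw [← this, inv_pow, mul_inv_cancel₀ (pow_ne_zero _ hz'), one_mul]
      · exact Set.infinite_of_finite_compl (by
          have : ({z : k | z ≠ 0})ᶜ = {0} := by ext; simp
          rw [this]; exact Set.finite_singleton 0)
    have h2 : P.reverse.coeff 0 = 0 := by
      rw [← hid, Polynomial.coeff_zero_eq_eval_zero, eval_mul, eval_pow, eval_X, zero_pow (by omega),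
        zero_mul]
    rw [Polynomial.coeff_zero_reverse] at h2
    have : P = 0 := Polynomial.leadingCoeff_eq_zero.1 h2
    rw [this] at hm
    simp at hm
    omega
  refine ⟨hdeg, fun g => ?_⟩
  have hsum : ∀ z : k, P.eval z = ∑ i ∈ Finset.range (n + 1), P.coeff i * z ^ i :=
    fun z => Polynomial.eval_eq_sum_range' (by omega) z
  by_cases hg : g 0 0 = 0
  · obtain ⟨b, hb, e⟩ := eq_hi_mul g hg
    have h4 : F g = (g 1 0) ^ n * F (hi 0) := by
      conv_lhs => rw [e]
      rw [hF, hb]
    have h5 : Q.eval 0 = P.coeff n := by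
      have hid : Q = ∑ i ∈ Finset.range (n + 1), C (P.coeff i) * X ^ (n - i) := by
        refine Polynomial.eq_of_infinite_eval_eq _ _ (Set.Infinite.mono
          (s := {z : k | z ≠ 0}) ?_ ?_)
        · intro z hz
          have hz' : z ≠ 0 := hz
          simp only [Set.mem_ofPred_eq, eval_finsetSum, eval_mul, eval_C, eval_pow, eval_X]
          rw [h1 z hz', hsum, Finset.mul_sum]
          refine Finset.sum_congr rfl fun i hi => ?_
          have : z ^ n = z ^ (n - i) * z ^ i := by
            rw [← pow_add]; congr 1; simp at hi; omega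
          rw [this, inv_pow]
          field_simp
        · exact Set.infinite_of_finite_compl (by
            have : ({z : k | z ≠ 0})ᶜ = {0} := by ext; simp
            rw [this]; exact Set.finite_singleton 0)
      rw [hid, eval_finsetSum, Finset.sum_eq_single n]
      · simp
      · intro i hi hin
        simp only [eval_mul, eval_C, eval_pow, eval_X]
        rw [zero_pow (by simp at hi; omega), mul_zero]
      · intro h; simp at h
    rw [h4, hQ, h5, hg, Finset.sum_eq_single n]
    · simp [mul_comm]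
    · intro i hi hin
      rw [zero_pow (by simp at hi; omega), mul_zero, mul_zero]
    · intro h; simp at h
  · obtain ⟨b, hb, e⟩ := eq_lo_mul g hg
    have h4 : F g = (g 0 0) ^ n * F (lo (g 1 0 / g 0 0)) := by
      conv_lhs => rw [e]
      rw [hF, hb]
    rw [h4, hP, hsum, Finset.mul_sum]
    refine Finset.sum_congr rfl fun i hi => ?_
    have : (g 0 0) ^ n = (g 0 0) ^ (n - i) * (g 0 0) ^ i := by
      rw [← pow_add]; congr 1; simp at hi; omega
    rw [this, div_pow]
    field_simp

end example_ring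

end Pool.Agent.H957R3.Ind
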