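import Mathlib
import Pool.Agent.H957R3.Ind

set_option autoImplicit false

namespace Pool.Agent.H957R3.Ind

universe u

open Polynomial

variable {k : Type u} [Field k]

theorem inv_11 (b : borel k) : ((b⁻¹ : borel k) : G k) 1 1 = (b : G k) 0 0 := by
  rw [Subgroup.coe_inv, Matrix.SpecialLinearGroup.SL2_inv_expl]
  rfl

theorem cf_zero (r : FP k) : cf1 0 r = cf2 0 r := mem_FP.1 r.2

/-- the element `g ↦ φ(g) (X, 0)` -/
noncomputable def mkX (s t : k) : FP k := ⟨(C s * X, C t * X), by rw [mem_FP]; simp⟩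

theorem cf1_mkX (s t : k) (n : ℕ) : cf1 n (mkX s t) = if n = 1 then s else 0 := by
  change (C s * X : k[X]).coeff n = _
  rw [coeff_C_mul, coeff_X]
  split_ifs with h h' h' <;> simp_all

theorem cf2_mkX (s t : k) (n : ℕ) : cf2 n (mkX s t) = if n = 1 then t else 0 := by
  change (C t * X : k[X]).coeff n = _
  rw [coeff_C_mul, coeff_X]
  split_ifs with h h' h' <;> simp_all

/-- the first component -/
noncomputable def pr1 : FP k →ₐ[k] k[X] := (AlgHom.fst k k[X] k[X]).comp (FP k).val
/-- the second component -/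
noncomputable def pr2 : FP k →ₐ[k] k[X] := (AlgHom.snd k k[X] k[X]).comp (FP k).val

theorem pr1_coeff (r : FP k) (n : ℕ) : (pr1 r).coeff n = cf1 n r := rfl
theorem pr2_coeff (r : FP k) (n : ℕ) : (pr2 r).coeff n = cf2 n r := rfl

theorem FP_ext'' {r s : FP k} (h1 : pr1 r = pr1 s) (h2 : pr2 r = pr2 s) : r = s :=
  Subtype.ext (Prod.ext h1 h2)

theorem morphism_comp {R R' : Type u} [CommRing R] [Algebra k R] [CommRing R'] [Algebra k R']
    (T : R →ₗ[k] R') {S : Type u} (ι : S → Matrix (Fin 2) (Fin 2) k) (f : S → R)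
    (hf : IsMorphism ι f) : IsMorphism ι (fun s => T (f s)) := by
  obtain ⟨Φ, hΦ⟩ := hf
  have : ∀ Φ : MvPolynomial (Fin 2 × Fin 2) R, ∃ Ψ : MvPolynomial (Fin 2 × Fin 2) R',
      ∀ s, T (MvPolynomial.eval (fun ij => algebraMap k R (ι s ij.1 ij.2)) Φ) =
        MvPolynomial.eval (fun ij => algebraMap k R' (ι s ij.1 ij.2)) Ψ := by
    intro Φ
    induction Φ using MvPolynomial.induction_on with
    | C r => exact ⟨MvPolynomial.C (T r), fun s => by simp⟩
    | add p q hp hq =>
      obtain ⟨P, hP⟩ := hp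
      obtain ⟨Q, hQ⟩ := hq
      exact ⟨P + Q, fun s => by rw [map_add, map_add, hP, hQ, map_add]⟩
    | mul_X p i hp =>
      obtain ⟨P, hP⟩ := hp
      refine ⟨P * MvPolynomial.X i, fun s => ?_⟩
      rw [map_mul, MvPolynomial.eval_X, mul_comm, ← Algebra.smul_def, map_smul, hP, map_mul,
        MvPolynomial.eval_X, Algebra.smul_def, mul_comm]
  obtain ⟨Ψ, hΨ⟩ := this Φ
  refine ⟨Ψ, fun s => ?_⟩
  have h1 : T (f s) = T (MvPolynomial.eval (fun ij => algebraMap k R (ι s ij.1 ij.2)) Φ) := by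
    rw [← hΦ]
  exact h1.trans (hΨ s)

/-- `(f, g) ↦ (f - f(0), 0)` -/
noncomputable def tau : FP k →ₗ[k] FP k where
  toFun r := ⟨(pr1 r - C (cf1 0 r), 0), by rw [mem_FP]; simp [pr1_coeff]⟩
  map_add' := by
    intro r s
    apply Subtype.ext
    apply Prod.ext
    · change pr1 (r + s) - C (cf1 0 (r + s)) = (pr1 r - C (cf1 0 r)) + (pr1 s - C (cf1 0 s))
      rw [map_add, map_add, C_add]; ring
    · change (0 : k[X]) = 0 + 0
      simp
  map_smul' := by
    intro c r
    apply Subtype.ext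
    apply Prod.ext
    · change pr1 (c • r) - C (cf1 0 (c • r)) = c • (pr1 r - C (cf1 0 r))
      rw [map_smul, map_smul, smul_eq_mul, C_mul, smul_sub, Polynomial.smul_eq_C_mul,
        Polynomial.smul_eq_C_mul]
    · change (0 : k[X]) = c • 0
      simp

theorem pr1_tau (r : FP k) : pr1 (tau r) = pr1 r - C (cf1 0 r) := rfl
theorem pr2_tau (r : FP k) : pr2 (tau r) = 0 := rfl

theorem pr1_act0 (c : k) (r : FP k) : pr1 (act0 c r) = scale c (pr1 r) := rfl
theorem pr2_act0 (c : k) (r : FP k) : pr2 (act0 c r) = scale c (pr2 r) := rfl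

theorem tau_act0 (c : k) (r : FP k) : tau (act0 c r) = act0 c (tau r) := by
  apply FP_ext''
  · rw [pr1_tau, pr1_act0, pr1_act0, pr1_tau, map_sub, cf1_act0]
    simp [scale]
  · rw [pr2_tau, pr2_act0, pr2_tau, map_zero]

/-- the induced algebra, as a type -/
def AA (k : Type u) [Field k] : Type u := ind (alg k)

noncomputable instance : CommRing (AA k) := inferInstanceAs (CommRing (ind (alg k)))
noncomputable instance : Algebra k (AA k) := inferInstanceAs (Algebra k (ind (alg k)))

/-- the underlying function -/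
def AA.fn (f : AA k) : G k → FP k := f.1

theorem AA.mor (f : AA k) : IsMorphism (fun g : G k => (g : Matrix (Fin 2) (Fin 2) k)) f.fn :=
  f.2.1

theorem AA.equivar (f : AA k) (g : G k) (b : borel k) :
    f.fn (g * (b : G k)) = act0 ((b : G k) 0 0) (f.fn g) := by
  have h := f.2.2 g b
  rw [alg_act, inv_11] at h
  exact h

/-- construct elements -/
def AA.mk (f : G k → FP k)
    (h1 : IsMorphism (fun g : G k => (g : Matrix (Fin 2) (Fin 2) k)) f)
    (h2 : ∀ (g : G k) (b : borel k), f (g * (b : G k)) = act0 ((b : G k) 0 0) (f g)) : AA k :=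
  ⟨f, h1, fun g b => by rw [h2 g b, alg_act, inv_11]⟩

/-- evaluation at `g` -/
noncomputable def AA.ev (g : G k) : AA k →ₐ[k] FP k :=
  (Pi.evalAlgHom k (fun _ : G k => FP k) g).comp (ind (alg k)).val

theorem AA.ev_apply (g : G k) (f : AA k) : AA.ev g f = f.fn g := rfl

theorem tau_mor (f : G k → FP k)
    (hf : IsMorphism (fun g : G k => (g : Matrix (Fin 2) (Fin 2) k)) f) :
    IsMorphism (fun g : G k => (g : Matrix (Fin 2) (Fin 2) k)) (fun g => tau (f g)) := by
  have := morphism_comp (R := FP k) (R' := FP k) (S := G k) tau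
    (fun g : G k => (g : Matrix (Fin 2) (Fin 2) k)) f hf
  exact this

/-- multiplication by `(1,0)`, up to constant terms -/
noncomputable def trunc (f : AA k) : AA k :=
  AA.mk (fun g => tau (f.fn g)) (tau_mor f.fn f.mor)
    (fun g b => by
      have h := congrArg tau (f.equivar g b)
      rw [tau_act0] at h
      exact h)

/-- the generators: `g ↦ (s g_{i0} X, t g_{i0} X)` -/
noncomputable def gen (s t : k) (i : Fin 2) : AA k :=
  AA.mk (fun g => mkX (s * g i 0) (t * g i 0))
    (by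
      refine ⟨MvPolynomial.C (mkX s t) * MvPolynomial.X (i, 0), fun g => ?_⟩
      rw [map_mul, MvPolynomial.eval_C, MvPolynomial.eval_X, mul_comm, ← Algebra.smul_def]
      apply FP_ext'
      · intro n
        rw [map_smul, cf1_mkX, cf1_mkX]
        split_ifs <;> simp [mul_comm]
      · intro n
        rw [map_smul, cf2_mkX, cf2_mkX]
        split_ifs <;> simp [mul_comm])
    (by
      intro g b
      have hb : (b : G k) 1 0 = 0 := b.2
      apply FP_ext'
      · intro n
        rw [cf1_act0, cf1_mkX, cf1_mkX, mul_entry, hb]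
        split_ifs with h
        · subst h; ring
        · ring
      · intro n
        rw [cf2_act0, cf2_mkX, cf2_mkX, mul_entry, hb]
        split_ifs with h
        · subst h; ring
        · ring)

theorem semi (L : FP k →ₗ[k] k) (n : ℕ) (hL : ∀ c r, L (act0 c r) = c ^ n * L r)
    (f : AA k) (g : G k) (b : borel k) :
    L (f.fn (g * (b : G k))) = ((b : G k) 0 0) ^ n * L (f.fn g) := by
  rw [f.equivar g b, hL]

theorem form [Infinite k] (L : FP k →ₗ[k] k) (n : ℕ) (hL : ∀ c r, L (act0 c r) = c ^ n * L r)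
    (f : AA k) : ∃ P : k[X], ∀ g : G k, L (f.fn g) =
      ∑ i ∈ Finset.range (n + 1), P.coeff i * ((g 1 0) ^ i * (g 0 0) ^ (n - i)) := by
  obtain ⟨Φ, hΦ⟩ := f.mor
  obtain ⟨P, hP⟩ := curve L (fun z => ((lo z : G k) : Matrix (Fin 2) (Fin 2) k))
    (fun ij => !![1, 0; X, 1] ij.1 ij.2) (by
      rintro z ⟨i, j⟩
      fin_cases i <;> fin_cases j <;> simp [lo, mk4]) Φ
  obtain ⟨Q, hQ⟩ := curve L (fun z => ((hi z : G k) : Matrix (Fin 2) (Fin 2) k))
    (fun ij => !![X, -1; 1, 0] ij.1 ij.2) (by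
      rintro z ⟨i, j⟩
      fin_cases i <;> fin_cases j <;> simp [hi, mk4]) Φ
  refine ⟨P, (key n (fun g => L (f.fn g)) P Q (fun z => ?_) (fun z => ?_) (semi L n hL f)).2⟩
  · change L (f.fn (lo z)) = _
    rw [hΦ, hP]
  · change L (f.fn (hi z)) = _
    rw [hΦ, hQ]

/-- the constant term of an element of the induced algebra is constant -/
theorem const_term [Infinite k] (f : AA k) (g h : G k) :
    cf1 0 (f.fn g) = cf1 0 (f.fn h) := by
  obtain ⟨P, hP⟩ := form (cf1 0) 0 (fun c r => cf1_act0 c 0 r) f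
  rw [hP, hP]
  simp

/-- evaluation at `g`, first component -/
noncomputable def ev1 (g : G k) : AA k →ₐ[k] k[X] := pr1.comp (AA.ev g)

/-- evaluation at `g`, second component -/
noncomputable def ev2 (g : G k) : AA k →ₐ[k] k[X] := pr2.comp (AA.ev g)

theorem ev1_apply (g : G k) (f : AA k) : ev1 g f = pr1 (f.fn g) := rfl
theorem ev2_apply (g : G k) (f : AA k) : ev2 g f = pr2 (f.fn g) := rfl

theorem ind_ext {f h : AA k} (h1 : ∀ g, ev1 g f = ev1 g h) (h2 : ∀ g, ev2 g f = ev2 g h) :
    f = h :=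
  Subtype.ext (funext fun g => FP_ext'' (h1 g) (h2 g))

theorem ev_const (g : G k) (f : AA k) : (ev2 g f).coeff 0 = (ev1 g f).coeff 0 :=
  (cf_zero (f.fn g)).symm

theorem ev1_trunc (g : G k) (f : AA k) : ev1 g (trunc f) = ev1 g f - C ((ev1 g f).coeff 0) :=
  rfl

theorem ev2_trunc (g : G k) (f : AA k) : ev2 g (trunc f) = 0 := rfl

theorem ev1_gen (s t : k) (i : Fin 2) (g : G k) : ev1 g (gen s t i) = C (s * g i 0) * X := rfl
theorem ev2_gen (s t : k) (i : Fin 2) (g : G k) : ev2 g (gen s t i) = C (t * g i 0) * X := rfl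

/-- the irrelevant maximal ideal -/
noncomputable def mm (k : Type u) [Field k] : Ideal (AA k) :=
  RingHom.ker ((Polynomial.constantCoeff).comp (ev1 (1 : G k) : AA k →+* k[X]))

instance mm_prime : (mm k).IsPrime := RingHom.ker_isPrime _

theorem mem_mm [Infinite k] {f : AA k} : f ∈ mm k ↔ ∀ g, (ev1 g f).coeff 0 = 0 := by
  have : f ∈ mm k ↔ (ev1 (1 : G k) f).coeff 0 = 0 := by
    rw [mm, RingHom.mem_ker]; rfl
  rw [this]
  constructor
  · intro h g
    rw [← h]
    exact const_term f g 1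
  · intro h
    exact h 1

theorem not_mem_mm [Infinite k] {f : AA k} : f ∉ mm k ↔ ∀ g, (ev1 g f).coeff 0 ≠ 0 := by
  have : f ∈ mm k ↔ (ev1 (1 : G k) f).coeff 0 = 0 := by
    rw [mm, RingHom.mem_ker]; rfl
  rw [this]
  constructor
  · intro h g h2
    apply h
    rw [← h2]
    exact const_term f 1 g
  · intro h
    exact h 1

theorem mul_trunc [Infinite k] {f h : AA k} (hf : f ∈ mm k) (hh : h ∈ mm k) :
    f * trunc h = h * trunc f := by
  rw [mem_mm] at hf hh
  apply ind_ext
  · intro g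
    rw [map_mul, map_mul, ev1_trunc, ev1_trunc, hf, hh]
    simp [mul_comm]
  · intro g
    rw [map_mul, map_mul, ev2_trunc, ev2_trunc]
    simp

/-- the prime ideal of functions vanishing at `1` in the first component -/
noncomputable def p1 (k : Type u) [Field k] : Ideal (AA k) :=
  RingHom.ker (ev1 (1 : G k) : AA k →+* k[X])

instance p1_prime : (p1 k).IsPrime := RingHom.ker_isPrime _

/-- the prime ideal of functions whose first component vanishes -/
noncomputable def p0 (k : Type u) [Field k] : Ideal (AA k) :=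
  ⨅ z : k, RingHom.ker (ev1 (lo z : G k) : AA k →+* k[X])

theorem mem_p0 {f : AA k} : f ∈ p0 k ↔ ∀ z : k, ev1 (lo z) f = 0 := by
  rw [p0, Submodule.mem_iInf]
  rfl

theorem finite_zeros {f : AA k} (hf : f ∉ p0 k) : {z : k | ev1 (lo z) f = 0}.Finite := by
  rw [mem_p0] at hf
  push Not at hf
  obtain ⟨z₀, hz₀⟩ := hf
  obtain ⟨n, hn⟩ : ∃ n, (ev1 (lo z₀) f).coeff n ≠ 0 := by
    by_contra h
    push Not at h
    exact hz₀ (Polynomial.ext (by simpa using h))
  obtain ⟨Φ, hΦ⟩ := f.mor
  obtain ⟨P, hP⟩ := curve (cf1 n) (fun z => ((lo z : G k) : Matrix (Fin 2) (Fin 2) k))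
    (fun ij => !![1, 0; X, 1] ij.1 ij.2) (by
      rintro z ⟨i, j⟩
      fin_cases i <;> fin_cases j <;> simp [lo, mk4]) Φ
  have hP' : ∀ z, (ev1 (lo z) f).coeff n = P.eval z := by
    intro z
    rw [ev1_apply, pr1_coeff, hΦ, hP]
  have hP0 : P ≠ 0 := by
    intro h
    rw [hP', h] at hn
    simp at hn
  refine Set.Finite.subset (Polynomial.finite_setOfPred_isRoot hP0) ?_
  intro z hz
  have : ev1 (lo z) f = 0 := hz
  change P.eval z = 0
  rw [← hP', this, coeff_zero]

instance p0_prime [Infinite k] : (p0 k).IsPrime := by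
  refine ⟨?_, ?_⟩
  · rw [Ideal.ne_top_iff_one, mem_p0]
    intro h
    have := h 0
    rw [map_one] at this
    exact one_ne_zero this
  · intro f h hfh
    by_contra hcon
    push Not at hcon
    have h1 := (finite_zeros hcon.1).union (finite_zeros hcon.2)
    have h2 : (Set.univ : Set k) ⊆ {z : k | ev1 (lo z) f = 0} ∪ {z : k | ev1 (lo z) h = 0} := by
      intro z _
      have := mem_p0.1 hfh z
      rw [map_mul] at this
      exact mul_eq_zero.1 this
    exact Set.infinite_univ (h1.subset h2)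

theorem lo_zero : lo (0 : k) = 1 := by
  apply ext4 <;> simp [lo, mk4_00, mk4_01, mk4_10, mk4_11]

theorem p0_lt_p1 : p0 k < p1 k := by
  refine lt_of_le_of_ne ?_ ?_
  · intro f hf
    have := mem_p0.1 hf 0
    rw [lo_zero] at this
    exact this
  · intro h
    have h1 : gen 1 1 1 ∈ p1 k := by
      change ev1 (1 : G k) (gen 1 1 1) = 0
      rw [ev1_gen]
      simp
    rw [← h, mem_p0] at h1
    have := h1 1
    rw [ev1_gen] at this
    simp [lo, mk4_10] at this

theorem p1_lt_mm [Infinite k] : p1 k < mm k := by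
  refine lt_of_le_of_ne ?_ ?_
  · intro f hf
    have h : ev1 (1 : G k) f = 0 := hf
    rw [mm, RingHom.mem_ker]
    change (ev1 (1 : G k) f).coeff 0 = 0
    rw [h, coeff_zero]
  · intro h
    have h1 : gen 1 1 0 ∈ mm k := by
      rw [mm, RingHom.mem_ker]
      change (ev1 (1 : G k) (gen 1 1 0)).coeff 0 = 0
      rw [ev1_gen]
      simp
    rw [← h] at h1
    have : ev1 (1 : G k) (gen 1 1 0) = 0 := h1
    rw [ev1_gen] at this
    simp at this

theorem two_le_height [Infinite k] : 2 ≤ (mm k).height := by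
  have h1 := Ideal.height_add_one_le_of_lt_of_isPrime (p0_lt_p1 (k := k))
  have h2 := Ideal.height_add_one_le_of_lt_of_isPrime (p1_lt_mm (k := k))
  calc (2 : ℕ∞) = 0 + 1 + 1 := by norm_num
    _ ≤ (p0 k).height + 1 + 1 := by gcongr; exact zero_le
    _ ≤ (p1 k).height + 1 := by gcongr
    _ ≤ _ := h2

end Pool.Agent.H957R3.Ind
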