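import Mathlib
import Pool.Agent.H957R3.Main

set_option autoImplicit false

namespace Pool.Agent.H957R3.Ind

universe u

open Polynomial IsLocalRing

variable {k : Type u} [Field k]

/-- the core computation: `trunc a` is not in the ideal generated by `a` in the localization -/
theorem not_mem_span [Infinite k] (a : AA k) (ha : a ∈ mm k)
    (hreg : ∀ y : Localization.AtPrime (mm k), algebraMap (AA k) _ a * y = 0 → y = 0)
    (w : Localization.AtPrime (mm k)) (hw : algebraMap (AA k) _ (trunc a) = algebraMap (AA k) _ a * w) :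
    False := by
  obtain ⟨c, t, rfl⟩ := IsLocalization.exists_mk'_eq (mm k).primeCompl w
  have h1 : algebraMap (AA k) (Localization.AtPrime (mm k)) (trunc a * t) =
      algebraMap (AA k) (Localization.AtPrime (mm k)) (a * c) := by
    rw [map_mul, map_mul, hw, mul_assoc, IsLocalization.mk'_spec]
  obtain ⟨v, hv⟩ := (IsLocalization.eq_iff_exists (mm k).primeCompl _).1 h1
  set e : AA k := gen 1 1 0 with he
  have hem : e ∈ mm k := by
    rw [mem_mm]
    intro g
    rw [he, ev1_gen]
    simp
  set we : AA k := v * t * trunc e - v * c * e with hwe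
  have h2 : a * we = 0 := by
    have h3 : a * trunc e = e * trunc a := mul_trunc ha hem
    calc a * we = v * t * (a * trunc e) - v * c * a * e := by rw [hwe]; ring
      _ = e * (v * (trunc a * t) - v * (a * c)) := by rw [h3]; ring
      _ = 0 := by rw [hv]; ring
  have h3 : algebraMap (AA k) (Localization.AtPrime (mm k)) we = 0 := by
    apply hreg
    rw [← map_mul, h2, map_zero]
  obtain ⟨v', hv'⟩ := (IsLocalization.map_eq_zero_iff (mm k).primeCompl _ _).1 h3
  have hvc := not_mem_mm.1 (show (v : AA k) ∉ mm k from v.2) 1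
  have hvc' := not_mem_mm.1 (show (v' : AA k) ∉ mm k from v'.2) 1
  have htc := not_mem_mm.1 (show (t : AA k) ∉ mm k from t.2) 1
  have hv1 : ev1 (1 : G k) v ≠ 0 := fun h => hvc (by rw [h, coeff_zero])
  have hv1' : ev1 (1 : G k) v' ≠ 0 := fun h => hvc' (by rw [h, coeff_zero])
  have hv2 : ev2 (1 : G k) v ≠ 0 := fun h => hvc (by rw [← ev_const, h, coeff_zero])
  have hv2' : ev2 (1 : G k) v' ≠ 0 := fun h => hvc' (by rw [← ev_const, h, coeff_zero])
  have e1 : ev1 (1 : G k) e = X := by rw [he, ev1_gen]; simp
  have e2 : ev2 (1 : G k) e = X := by rw [he, ev2_gen]; simp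
  have E1 := congrArg (ev1 (1 : G k)) hv'
  have E2 := congrArg (ev2 (1 : G k)) hv'
  rw [hwe, map_zero, map_mul, map_sub, map_mul, map_mul, map_mul, map_mul, ev1_trunc, e1] at E1
  rw [hwe, map_zero, map_mul, map_sub, map_mul, map_mul, map_mul, map_mul, ev2_trunc, e2] at E2
  have E1' : ev1 (1 : G k) t = ev1 (1 : G k) c := by
    have h4 := (mul_eq_zero.1 E1).resolve_left hv1'
    have h5 : ev1 (1 : G k) v * X * (ev1 (1 : G k) t - ev1 (1 : G k) c) = 0 := by
      rw [← h4]; simp; ring
    have h6 := (mul_eq_zero.1 h5).resolve_left (mul_ne_zero hv1 X_ne_zero)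
    exact sub_eq_zero.1 h6
  have E2' : ev2 (1 : G k) c = 0 := by
    have h4 := (mul_eq_zero.1 E2).resolve_left hv2'
    have h5 : ev2 (1 : G k) v * X * (ev2 (1 : G k) c) = 0 := by
      have h7 : ev2 (1 : G k) v * ev2 (1 : G k) c * X = 0 := by
        rw [mul_zero, zero_sub, neg_eq_zero] at h4
        exact h4
      rw [← h7]; ring
    exact (mul_eq_zero.1 h5).resolve_left (mul_ne_zero hv2 X_ne_zero)
  apply htc
  rw [E1', ← ev_const, E2', coeff_zero]

/-- Every regular sequence in the maximal ideal of the localization at the irrelevant ideal has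
length at most one. -/
theorem length_le_one [Infinite k] (rs : List (Localization.AtPrime (mm k)))
    (hrs : ∀ r ∈ rs, r ∈ maximalIdeal (Localization.AtPrime (mm k)))
    (hreg : RingTheory.Sequence.IsRegular (Localization.AtPrime (mm k)) rs) : rs.length ≤ 1 := by
  match rs, hrs, hreg with
  | [], _, _ => simp
  | [_], _, _ => simp
  | x :: y :: l, hrs, hreg =>
    exfalso
    rw [RingTheory.Sequence.isRegular_cons_iff, RingTheory.Sequence.isRegular_cons_iff] at hreg
    obtain ⟨hx, hy, -⟩ := hreg
    have hxm := hrs x (by simp)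
    have hym := hrs y (by simp)
    obtain ⟨a, s, rfl⟩ := IsLocalization.exists_mk'_eq (mm k).primeCompl x
    obtain ⟨b, t, rfl⟩ := IsLocalization.exists_mk'_eq (mm k).primeCompl y
    have ha : a ∈ mm k := (IsLocalization.AtPrime.mk'_mem_maximal_iff _ (mm k) a s).1 hxm
    have hb : b ∈ mm k := (IsLocalization.AtPrime.mk'_mem_maximal_iff _ (mm k) b t).1 hym
    -- the multiples of `x`
    have key1 : IsLocalization.mk' (Localization.AtPrime (mm k)) b t *
        algebraMap (AA k) _ (trunc a) =
        IsLocalization.mk' (Localization.AtPrime (mm k)) a s *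
          (algebraMap (AA k) _ (s : AA k) * IsLocalization.mk' (Localization.AtPrime (mm k)) (trunc b) t) := by
      rw [← mul_assoc, IsLocalization.mk'_spec]
      rw [← IsLocalization.mk'_one (M := (mm k).primeCompl) (Localization.AtPrime (mm k)) (trunc a),
        ← IsLocalization.mk'_one (M := (mm k).primeCompl) (Localization.AtPrime (mm k)) a,
        ← IsLocalization.mk'_mul, ← IsLocalization.mk'_mul, mul_trunc hb ha, mul_one, one_mul]
    have key2 : ∀ w, algebraMap (AA k) _ (trunc a) ≠
        IsLocalization.mk' (Localization.AtPrime (mm k)) a s * w := by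
      intro w hw
      refine not_mem_span a ha ?_ (IsLocalization.mk' (Localization.AtPrime (mm k)) 1 s * w) ?_
      · intro z hz
        have h1 : IsLocalization.mk' (Localization.AtPrime (mm k)) a s * z = 0 := by
          have : IsLocalization.mk' (Localization.AtPrime (mm k)) a s =
            IsLocalization.mk' (Localization.AtPrime (mm k)) 1 s * algebraMap (AA k) _ a := by
            rw [← IsLocalization.mk'_one (M := (mm k).primeCompl) (Localization.AtPrime (mm k)) a,
              ← IsLocalization.mk'_mul, one_mul, mul_one]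
          rw [this, mul_assoc, hz, mul_zero]
        have h2 : IsLocalization.mk' (Localization.AtPrime (mm k)) a s • z =
            IsLocalization.mk' (Localization.AtPrime (mm k)) a s • (0 : Localization.AtPrime (mm k)) := by
          rw [smul_eq_mul, h1, smul_zero]
        exact hx h2
      · rw [hw, ← mul_assoc]
        congr 1
        rw [← IsLocalization.mk'_one (M := (mm k).primeCompl) (Localization.AtPrime (mm k)) a,
              ← IsLocalization.mk'_mul, one_mul, mul_one]
    have h3 : IsLocalization.mk' (Localization.AtPrime (mm k)) b t •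
        (Submodule.Quotient.mk (algebraMap (AA k) _ (trunc a)) :
          QuotSMulTop (IsLocalization.mk' (Localization.AtPrime (mm k)) a s)
            (Localization.AtPrime (mm k))) =
        IsLocalization.mk' (Localization.AtPrime (mm k)) b t • 0 := by
      rw [smul_zero, ← Submodule.Quotient.mk_smul, smul_eq_mul, key1,
        Submodule.Quotient.mk_eq_zero]
      exact Submodule.smul_mem_pointwise_smul _ _ _ trivial
    have h4 := hy h3
    rw [Submodule.Quotient.mk_eq_zero] at h4
    obtain ⟨w, -, hw⟩ := (Submodule.mem_smul_pointwise_iff_exists _ _ _).1 h4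
    exact key2 w hw.symm

theorem not_cm [Infinite k] : ¬ CM.IsCohenMacaulayRing (AA k) := by
  intro h
  obtain ⟨-, rs, h1, h2, h3⟩ := h.2 (mm k)
  have h4 := length_le_one rs h1 h2
  rw [IsLocalization.AtPrime.ringKrullDim_eq_height (mm k)] at h3
  have h5 := two_le_height (k := k)
  have h6 : ((rs.length : ℕ∞) : WithBot ℕ∞) = ((mm k).height : WithBot ℕ∞) := by
    rw [← h3]; rfl
  have h7 : (rs.length : ℕ∞) = (mm k).height := WithBot.coe_injective h6
  rw [← h7] at h5
  have h8 : (2 : ℕ) ≤ rs.length := by exact_mod_cast h5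
  omega

end Pool.Agent.H957R3.Ind
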