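import Mathlib
import Pool.Agent.H957R3.Final

set_option autoImplicit false

namespace Pool.Agent.H957R3.Ind

universe u

open Polynomial

variable {k : Type u} [Field k]

/-! ### The ring `k[x,y]/(xy)` is Cohen-Macaulay -/

/-- the diagonal -/
noncomputable def diag : k[X] →ₐ[k] FP k :=
  AlgHom.codRestrict ((AlgHom.id k k[X]).prod (AlgHom.id k k[X])) (FP k) (by
    intro f
    rw [mem_FP]
    rfl)

theorem pr1_diag (f : k[X]) : pr1 (diag f) = f := rfl
theorem pr2_diag (f : k[X]) : pr2 (diag f) = f := rfl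

theorem diag_finite : (diag (k := k) : k[X] →+* FP k).Finite := by
  let _ : Algebra k[X] (FP k) := (diag (k := k) : k[X] →+* FP k).toAlgebra
  change Module.Finite k[X] (FP k)
  rw [Module.finite_def, Submodule.fg_def]
  refine ⟨({1, mkX 1 0} : Set (FP k)), Set.toFinite _, ?_⟩
  rw [eq_top_iff]
  rintro r -
  have hX : (pr1 r - pr2 r).coeff 0 = 0 := by
    rw [coeff_sub, pr1_coeff, pr2_coeff, cf_zero, sub_self]
  obtain ⟨q, hq⟩ := Polynomial.X_dvd_iff.2 hX
  have : r = (pr2 r) • (1 : FP k) + q • (mkX 1 0 : FP k) := by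
    rw [Algebra.smul_def, Algebra.smul_def, mul_one]
    apply FP_ext''
    · rw [map_add, map_mul]
      change pr1 r = pr2 r + q * (C 1 * X)
      rw [C_1, one_mul, mul_comm, ← hq]; ring
    · rw [map_add, map_mul]
      change pr2 r = pr2 r + q * (C 0 * X)
      simp
  rw [this]
  refine Submodule.add_mem _ (Submodule.smul_mem _ _ (Submodule.subset_span (by simp)))
    (Submodule.smul_mem _ _ (Submodule.subset_span (by simp)))

theorem FP_noetherian : IsNoetherianRing (FP k) := by
  let _ : Algebra k[X] (FP k) := (diag (k := k) : k[X] →+* FP k).toAlgebra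
  have : Module.Finite k[X] (FP k) := diag_finite
  exact IsNoetherianRing.of_finite k[X] (FP k)

theorem FP_dim : ringKrullDim (FP k) ≤ 1 := by
  let _ : Algebra k[X] (FP k) := (diag (k := k) : k[X] →+* FP k).toAlgebra
  have : Module.Finite k[X] (FP k) := diag_finite
  refine le_trans (CM.ringKrullDim_le_of_integral k[X] (FP k)) ?_
  rw [IsPrincipalIdealRing.ringKrullDim_eq_one k[X] (Polynomial.not_isField k)]

theorem FP_reduced : IsReduced (FP k) := by
  refine ⟨fun r hr => ?_⟩
  obtain ⟨n, hn⟩ := hr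
  apply FP_ext''
  · have := congrArg pr1 hn
    rw [map_pow, map_zero] at this
    rw [map_zero]
    exact eq_zero_of_pow_eq_zero this
  · have := congrArg pr2 hn
    rw [map_pow, map_zero] at this
    rw [map_zero]
    exact eq_zero_of_pow_eq_zero this

theorem FP_cm : CM.IsCohenMacaulayRing (FP k) := by
  have := FP_noetherian (k := k)
  have := FP_reduced (k := k)
  exact CM.ring_of_reduced_dim_le_one (FP k) FP_dim

/-! ### The induced algebra is finitely generated -/

theorem bound (Φ : MvPolynomial (Fin 2 × Fin 2) (FP k)) : ∃ N : ℕ, ∀ (x : Fin 2 × Fin 2 → k)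
    (n : ℕ), N < n → cf1 n (MvPolynomial.eval (fun ij => algebraMap k (FP k) (x ij)) Φ) = 0 ∧
      cf2 n (MvPolynomial.eval (fun ij => algebraMap k (FP k) (x ij)) Φ) = 0 := by
  induction Φ using MvPolynomial.induction_on with
  | C r =>
    refine ⟨bd r, fun x n hn => ?_⟩
    rw [MvPolynomial.eval_C]
    exact ⟨cf1_eq_zero_of_bd hn, cf2_eq_zero_of_bd hn⟩
  | add p q hp hq =>
    obtain ⟨N, hN⟩ := hp
    obtain ⟨M, hM⟩ := hq
    refine ⟨max N M, fun x n hn => ?_⟩
    have h1 := hN x n (lt_of_le_of_lt (le_max_left _ _) hn)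
    have h2 := hM x n (lt_of_le_of_lt (le_max_right _ _) hn)
    rw [map_add, map_add, map_add, h1.1, h1.2, h2.1, h2.2]
    simp
  | mul_X p i hp =>
    obtain ⟨N, hN⟩ := hp
    refine ⟨N, fun x n hn => ?_⟩
    have h1 := hN x n hn
    rw [map_mul, MvPolynomial.eval_X, mul_comm, ← Algebra.smul_def, map_smul, map_smul, h1.1, h1.2]
    simp

/-- monomials in the generators -/
noncomputable def mon (s t : k) (i j : ℕ) : AA k := gen s t 1 ^ i * gen s t 0 ^ j

theorem ev1_mon (s t : k) (i j : ℕ) (g : G k) :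
    ev1 g (mon s t i j) = C (s ^ (i + j) * ((g 1 0) ^ i * (g 0 0) ^ j)) * X ^ (i + j) := by
  rw [mon, map_mul, map_pow, map_pow, ev1_gen, ev1_gen, mul_pow, mul_pow, ← C_pow, ← C_pow, pow_add,
    mul_pow, mul_pow]
  simp only [C_mul, C_pow, pow_add]
  ring

theorem ev2_mon (s t : k) (i j : ℕ) (g : G k) :
    ev2 g (mon s t i j) = C (t ^ (i + j) * ((g 1 0) ^ i * (g 0 0) ^ j)) * X ^ (i + j) := by
  rw [mon, map_mul, map_pow, map_pow, ev2_gen, ev2_gen, mul_pow, mul_pow, ← C_pow, ← C_pow, pow_add,
    mul_pow, mul_pow]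
  simp only [C_mul, C_pow, pow_add]
  ring

theorem cf1_act0' (n : ℕ) (c : k) (r : FP k) : cf1 n (act0 c r) = c ^ n * cf1 n r := cf1_act0 c n r
theorem cf2_act0' (n : ℕ) (c : k) (r : FP k) : cf2 n (act0 c r) = c ^ n * cf2 n r := cf2_act0 c n r

theorem coeff_sum_aux (N m : ℕ) (a : ℕ → ℕ → k) (P : ℕ → k[X]) (S : k) :
    (∑ n ∈ Finset.range N, ∑ i ∈ Finset.range (n + 2),
      (P n).coeff i • (C (S ^ (i + (n + 1 - i)) * a n i) * X ^ (i + (n + 1 - i)) : k[X])).coeff m =
    ∑ n ∈ Finset.range N, if m = n + 1 then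
      ∑ i ∈ Finset.range (n + 2), (P n).coeff i * (S ^ (n + 1) * a n i) else 0 := by
  rw [finsetSum_coeff]
  refine Finset.sum_congr rfl fun n _ => ?_
  rw [finsetSum_coeff]
  split_ifs with h
  · refine Finset.sum_congr rfl fun i hi => ?_
    have : i + (n + 1 - i) = n + 1 := by simp at hi; omega
    rw [this, coeff_smul, coeff_C_mul, coeff_X_pow, if_pos h, smul_eq_mul, mul_one]
  · refine Finset.sum_eq_zero fun i hi => ?_
    have : i + (n + 1 - i) = n + 1 := by simp at hi; omega
    rw [this, coeff_smul, coeff_C_mul, coeff_X_pow, if_neg h, smul_eq_mul, mul_zero, mul_zero]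

theorem finiteType [Infinite k] : Algebra.FiniteType k (AA k) := by
  refine ⟨Subalgebra.fg_def.2 ⟨({gen 1 0 0, gen 1 0 1, gen 0 1 0, gen 0 1 1} : Set (AA k)),
    Set.toFinite _, ?_⟩⟩
  rw [eq_top_iff]
  rintro f -
  set Adj := Algebra.adjoin k ({gen 1 0 0, gen 1 0 1, gen 0 1 0, gen 0 1 1} : Set (AA k)) with hAdj
  have hm1 : ∀ i j, mon (1 : k) 0 i j ∈ Adj := by
    intro i j
    refine Subalgebra.mul_mem _ (Subalgebra.pow_mem _ (Algebra.subset_adjoin (by simp)) _)
      (Subalgebra.pow_mem _ (Algebra.subset_adjoin (by simp)) _)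
  have hm2 : ∀ i j, mon (0 : k) 1 i j ∈ Adj := by
    intro i j
    refine Subalgebra.mul_mem _ (Subalgebra.pow_mem _ (Algebra.subset_adjoin (by simp)) _)
      (Subalgebra.pow_mem _ (Algebra.subset_adjoin (by simp)) _)
  obtain ⟨Φ, hΦ⟩ := f.mor
  obtain ⟨N, hN⟩ := bound Φ
  choose P hP using fun n => form (cf1 n) n (cf1_act0' n) f
  choose Q hQ using fun n => form (cf2 n) n (cf2_act0' n) f
  have hfeq : f = algebraMap k (AA k) (cf1 0 (f.fn 1)) +
      (∑ n ∈ Finset.range N, ∑ i ∈ Finset.range (n + 2),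
        (P (n + 1)).coeff i • mon 1 0 i (n + 1 - i)) +
      (∑ n ∈ Finset.range N, ∑ i ∈ Finset.range (n + 2),
        (Q (n + 1)).coeff i • mon 0 1 i (n + 1 - i)) := by
    apply ind_ext
    · intro g
      apply Polynomial.ext
      intro m
      rw [map_add, map_add, map_sum, map_sum]
      simp only [map_sum, map_smul, ev1_mon]
      rw [coeff_add, coeff_add, coeff_sum_aux N m (fun n i => (g 1 0) ^ i * (g 0 0) ^ (n + 1 - i))
        (fun n => P (n + 1)) 1,
        coeff_sum_aux N m (fun n i => (g 1 0) ^ i * (g 0 0) ^ (n + 1 - i)) (fun n => Q (n + 1)) 0]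
      have hz : ∑ n ∈ Finset.range N, (if m = n + 1 then
        ∑ i ∈ Finset.range (n + 2), (Q (n + 1)).coeff i *
          (0 ^ (n + 1) * ((g 1 0) ^ i * (g 0 0) ^ (n + 1 - i))) else 0) = 0 := by
        refine Finset.sum_eq_zero fun n _ => ?_
        split_ifs
        · exact Finset.sum_eq_zero fun i _ => by rw [zero_pow (by omega)]; ring
        · rfl
      rw [hz, add_zero, ev1_apply, pr1_coeff, AlgHom.commutes, Polynomial.algebraMap_eq, coeff_C]
      rcases Nat.eq_zero_or_pos m with hm | hm
      · subst hm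
        rw [if_pos rfl, const_term f g 1, Finset.sum_eq_zero (fun n _ => by simp), add_zero]
      · rw [if_neg (by omega), zero_add]
        by_cases hmN : m ≤ N
        · rw [Finset.sum_eq_single (m - 1)]
          · rw [if_pos (by omega), hP m g]
            have h1 : m - 1 + 1 = m := by omega
            have h2 : m - 1 + 2 = m + 1 := by omega
            rw [h1, h2]
            exact Finset.sum_congr rfl fun i _ => by ring
          · intro n _ hn
            rw [if_neg (by omega)]
          · intro h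
            simp at h
            omega
        · rw [hΦ, (hN _ m (by omega)).1, Finset.sum_eq_zero]
          intro n hn
          rw [if_neg (by simp at hn; omega)]
    · intro g
      apply Polynomial.ext
      intro m
      rw [map_add, map_add, map_sum, map_sum]
      simp only [map_sum, map_smul, ev2_mon]
      rw [coeff_add, coeff_add, coeff_sum_aux N m (fun n i => (g 1 0) ^ i * (g 0 0) ^ (n + 1 - i))
        (fun n => P (n + 1)) 0,
        coeff_sum_aux N m (fun n i => (g 1 0) ^ i * (g 0 0) ^ (n + 1 - i)) (fun n => Q (n + 1)) 1]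
      have hz : ∑ n ∈ Finset.range N, (if m = n + 1 then
        ∑ i ∈ Finset.range (n + 2), (P (n + 1)).coeff i *
          (0 ^ (n + 1) * ((g 1 0) ^ i * (g 0 0) ^ (n + 1 - i))) else 0) = 0 := by
        refine Finset.sum_eq_zero fun n _ => ?_
        split_ifs
        · exact Finset.sum_eq_zero fun i _ => by rw [zero_pow (by omega)]; ring
        · rfl
      rw [hz, add_zero, ev2_apply, pr2_coeff, AlgHom.commutes, Polynomial.algebraMap_eq, coeff_C]
      rcases Nat.eq_zero_or_pos m with hm | hm
      · subst hm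
        rw [if_pos rfl, ← cf_zero, const_term f g 1, Finset.sum_eq_zero (fun n _ => by simp),
          add_zero]
      · rw [if_neg (by omega), zero_add]
        by_cases hmN : m ≤ N
        · rw [Finset.sum_eq_single (m - 1)]
          · rw [if_pos (by omega), hQ m g]
            have h1 : m - 1 + 1 = m := by omega
            have h2 : m - 1 + 2 = m + 1 := by omega
            rw [h1, h2]
            exact Finset.sum_congr rfl fun i _ => by ring
          · intro n _ hn
            rw [if_neg (by omega)]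
          · intro h
            simp at h
            omega
        · rw [hΦ, (hN _ m (by omega)).2, Finset.sum_eq_zero]
          intro n hn
          rw [if_neg (by simp at hn; omega)]
  rw [hfeq]
  refine Subalgebra.add_mem _ (Subalgebra.add_mem _ (Subalgebra.algebraMap_mem _ _) ?_) ?_
  · exact Subalgebra.sum_mem _ fun n _ => Subalgebra.sum_mem _ fun i _ =>
      Subalgebra.smul_mem _ (hm1 _ _) _
  · exact Subalgebra.sum_mem _ fun n _ => Subalgebra.sum_mem _ fun i _ =>
      Subalgebra.smul_mem _ (hm2 _ _) _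

end Pool.Agent.H957R3.Ind
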