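import Mathlib

/-! Nested commutators of words, the lower central series of a free algebra and its
weight spaces. -/

namespace H957R3.LCS

open Module

variable {X : Type*}

/-! ### Combinatorial evaluation of functionals on nested commutators -/

/-- Evaluation of the functional with values `φ` on words at the nested commutator
`[w₁,[w₂,…,[w_k,w₀]…]]`. -/
def evnc {R : Type*} [AddCommGroup R] : (List X → R) → List (List X) → List X → R
  | φ, [], w₀ => φ w₀
  | φ, w :: ws, w₀ => evnc (fun x => φ (w ++ x) - φ (x ++ w)) ws w₀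

theorem evnc_map {R S : Type*} [AddCommGroup R] [AddCommGroup S] (f : R →+ S)
    (φ : List X → R) (ws : List (List X)) (w₀ : List X) :
    evnc (fun w => f (φ w)) ws w₀ = f (evnc φ ws w₀) := by
  induction ws generalizing φ with
  | nil => rfl
  | cons w ws ih =>
    show evnc (fun x => f (φ (w ++ x)) - f (φ (x ++ w))) ws w₀ = _
    simp only [← map_sub]
    exact ih _

theorem evnc_sub {R : Type*} [AddCommGroup R]
    (φ ψ : List X → R) (ws : List (List X)) (w₀ : List X) :
    evnc (fun w => φ w - ψ w) ws w₀ = evnc φ ws w₀ - evnc ψ ws w₀ := by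
  induction ws generalizing φ ψ with
  | nil => rfl
  | cons w ws ih =>
    show evnc (fun x => (φ (w ++ x) - ψ (w ++ x)) - (φ (x ++ w) - ψ (x ++ w))) ws w₀ = _
    have : (fun x => (φ (w ++ x) - ψ (w ++ x)) - (φ (x ++ w) - ψ (x ++ w)))
        = fun x => (φ (w ++ x) - φ (x ++ w)) - (ψ (w ++ x) - ψ (x ++ w)) := by
      funext x; abel
    rw [this, ih]; rfl

/-- substitution of letters. -/
theorem evnc_comp {Y R : Type*} [AddCommGroup R] (e : X → Y)
    (φ : List Y → R) (ws : List (List X)) (w₀ : List X) :
    evnc (fun w => φ (w.map e)) ws w₀ = evnc φ (ws.map (List.map e)) (w₀.map e) := by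
  induction ws generalizing φ with
  | nil => rfl
  | cons w ws ih =>
    show evnc (fun x => φ ((w ++ x).map e) - φ ((x ++ w).map e)) ws w₀ = _
    simp only [List.map_append]
    exact ih (fun x => φ (w.map e ++ x) - φ (x ++ w.map e))

/-! ### The free algebra -/

variable (K : Type*) [Field K]

/-- the monomial of a word. -/
noncomputable def mon (w : List X) : FreeAlgebra K X := (w.map (FreeAlgebra.ι K)).prod

@[simp] theorem mon_nil : mon K ([] : List X) = 1 := rfl

theorem mon_append (w w' : List X) : mon K (w ++ w') = mon K w * mon K w' := by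
  simp [mon]

/-- The basis of monomials, indexed by `List X`. -/
noncomputable def bas : Basis (List X) K (FreeAlgebra K X) :=
  (FreeAlgebra.basisFreeMonoid K X).reindex FreeMonoid.toList

theorem bas_apply (w : List X) : bas K w = mon K w := by
  have h : ∀ m : FreeMonoid X,
      FreeAlgebra.basisFreeMonoid K X m = FreeMonoid.lift (FreeAlgebra.ι K) m := by
    intro m
    rw [FreeAlgebra.basisFreeMonoid, Basis.map_apply]
    simp [FreeAlgebra.equivMonoidAlgebraFreeMonoid]
  simp only [bas, Basis.reindex_apply, h, mon]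
  rw [FreeMonoid.lift_apply]
  simp

/-- The linear functional with prescribed values on words. -/
noncomputable def fn (φ : List X → K) : FreeAlgebra K X →ₗ[K] K := (bas K).constr K φ

@[simp] theorem fn_mon (φ : List X → K) (w : List X) : fn K φ (mon K w) = φ w := by
  rw [← bas_apply]; exact (bas K).constr_basis K φ w

theorem lin_ext {V : Type*} [AddCommGroup V] [Module K V] {f g : FreeAlgebra K X →ₗ[K] V}
    (h : ∀ w, f (mon K w) = g (mon K w)) : f = g :=
  (bas K).ext fun w => by rw [bas_apply]; exact h w

theorem span_mon : Submodule.span K (Set.range (mon K : List X → FreeAlgebra K X)) = ⊤ := by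
  have := (bas K (X := X)).span_eq
  rwa [show (⇑(bas K) : List X → FreeAlgebra K X) = mon K from funext (bas_apply K)] at this

/-- nested commutator of words. -/
noncomputable def nc : List (List X) → List X → FreeAlgebra K X
  | [], w₀ => mon K w₀
  | w :: ws, w₀ => mon K w * nc ws w₀ - nc ws w₀ * mon K w

theorem fn_comm (φ : List X → K) (w : List X) (y : FreeAlgebra K X) :
    fn K φ (mon K w * y - y * mon K w) = fn K (fun x => φ (w ++ x) - φ (x ++ w)) y := by
  have : (fn K φ) ∘ₗ (LinearMap.mulLeft K (mon K w) - LinearMap.mulRight K (mon K w))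
      = fn K (fun x => φ (w ++ x) - φ (x ++ w)) := by
    apply lin_ext
    intro x
    simp [← mon_append]
  exact DFunLike.congr_fun this y

theorem fn_nc (φ : List X → K) (ws : List (List X)) (w₀ : List X) :
    fn K φ (nc K ws w₀) = evnc φ ws w₀ := by
  induction ws generalizing φ with
  | nil => simp [nc, evnc]
  | cons w ws ih => rw [nc, fn_comm, ih]; rfl

theorem nc_eq_zero {ws : List (List X)} {w₀ : List X} (h : [] ∈ ws) : nc K ws w₀ = 0 := by
  induction ws with
  | nil => simp at h
  | cons w ws ih =>
    rcases List.mem_cons.1 h with h | h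
    · subst h; simp [nc]
    · simp [nc, ih h]

theorem nc_eq_zero' {ws : List (List X)} (h : ws ≠ []) : nc K ws [] = 0 := by
  induction ws with
  | nil => exact absurd rfl h
  | cons w ws ih =>
    by_cases h' : ws = []
    · subst h'; simp [nc]
    · simp [nc, ih h']

/-- the commutator as a bilinear map. -/
noncomputable def brk : FreeAlgebra K X →ₗ[K] FreeAlgebra K X →ₗ[K] FreeAlgebra K X :=
  LinearMap.mul K _ - (LinearMap.mul K _).flip

@[simp] theorem brk_apply (a b : FreeAlgebra K X) : brk K a b = a * b - b * a := rfl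

/-- lower central series, shifted: `lc k = L_{k+1}`. -/
noncomputable def lc : ℕ → Submodule K (FreeAlgebra K X)
  | 0 => ⊤
  | k + 1 => Submodule.span K {x | ∃ a b, b ∈ lc k ∧ x = a * b - b * a}

/-- `L_{k+1}` in terms of nested commutators of words. -/
theorem lc_eq_span (k : ℕ) :
    (lc K k : Submodule K (FreeAlgebra K X))
      = Submodule.span K {x | ∃ ws w₀, ws.length = k ∧ x = nc K ws w₀} := by
  induction k with
  | zero =>
    rw [lc, ← span_mon K (X := X)]
    congr 1
    ext x
    constructor
    · rintro ⟨w, rfl⟩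
      exact ⟨[], w, rfl, rfl⟩
    · rintro ⟨ws, w₀, h, rfl⟩
      rw [List.length_eq_zero_iff] at h
      subst h
      exact ⟨w₀, rfl⟩
  | succ k ih =>
    have h1 : (lc K (k + 1) : Submodule K (FreeAlgebra K X))
        = Submodule.map₂ (brk K) ⊤ (lc K k) := by
      rw [lc, Submodule.map₂_eq_span_image2]
      congr 1
      ext x
      constructor
      · rintro ⟨a, b, hb, rfl⟩
        exact ⟨a, trivial, b, hb, rfl⟩
      · rintro ⟨a, -, b, hb, rfl⟩
        exact ⟨a, b, hb, rfl⟩
    rw [h1, ih, ← span_mon K (X := X), Submodule.map₂_span_span]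
    congr 1
    ext x
    constructor
    · rintro ⟨_, ⟨w, rfl⟩, _, ⟨ws, w₀, hk, rfl⟩, rfl⟩
      exact ⟨w :: ws, w₀, by simp [hk], rfl⟩
    · rintro ⟨ws, w₀, hk, rfl⟩
      match ws, hk with
      | w :: ws, hk =>
        exact ⟨_, ⟨w, rfl⟩, _, ⟨ws, w₀, by simpa using hk, rfl⟩, rfl⟩

theorem lc_succ_le (k : ℕ) : (lc K (k + 1) : Submodule K (FreeAlgebra K X)) ≤ lc K k := by
  induction k with
  | zero => exact le_top
  | succ k ih =>
    rw [lc, Submodule.span_le]
    rintro _ ⟨a, b, hb, rfl⟩
    exact Submodule.subset_span ⟨a, b, ih hb, rfl⟩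

/-! ### Weight spaces -/

variable [DecidableEq X]

/-- content of a word. -/
def cont (w : List X) : X → ℕ := fun i => w.count i

theorem cont_append (w w' : List X) : cont (w ++ w') = cont w + cont w' := by
  funext i; simp [cont]

/-- the weight space. -/
noncomputable def wt (α : X → ℕ) : Submodule K (FreeAlgebra K X) :=
  Submodule.span K {x | ∃ w : List X, cont w = α ∧ x = mon K w}

theorem mon_mem (w : List X) : mon K w ∈ wt K (cont w) := Submodule.subset_span ⟨w, rfl, rfl⟩

theorem wt_mul {α β : X → ℕ} {x y : FreeAlgebra K X} (hx : x ∈ wt K α) (hy : y ∈ wt K β) :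
    x * y ∈ wt K (α + β) := by
  have h : wt K α * wt K β ≤ wt K (α + β) := by
    rw [wt, wt, Submodule.span_mul_span, Submodule.span_le]
    rintro _ ⟨_, ⟨w, rfl, rfl⟩, _, ⟨w', rfl, rfl⟩, rfl⟩
    exact Submodule.subset_span ⟨w ++ w', cont_append w w', (mon_append K w w').symm⟩
  exact h (Submodule.mul_mem_mul hx hy)

theorem nc_mem (ws : List (List X)) (w₀ : List X) :
    nc K ws w₀ ∈ wt K (cont (ws.flatten ++ w₀)) := by
  induction ws with
  | nil => exact mon_mem K w₀
  | cons w ws ih =>
    rw [List.flatten_cons, List.append_assoc, cont_append, nc]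
    apply Submodule.sub_mem
    · exact wt_mul K (mon_mem K w) ih
    · rw [add_comm]; exact wt_mul K ih (mon_mem K w)

open Classical in
/-- projection to a weight space. -/
noncomputable def prj (α : X → ℕ) : FreeAlgebra K X →ₗ[K] FreeAlgebra K X :=
  (bas K).constr K (fun w => if cont w = α then mon K w else 0)

open Classical in
theorem prj_mon (α : X → ℕ) (w : List X) :
    prj K α (mon K w) = if cont w = α then mon K w else 0 := by
  have h := (bas K).constr_basis K (fun w => if cont w = α then mon K w else 0) w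
  rw [bas_apply] at h
  exact h

open Classical in
theorem prj_of_mem (α β : X → ℕ) {x : FreeAlgebra K X} (hx : x ∈ wt K β) :
    prj K α x = if β = α then x else 0 := by
  by_cases h : β = α
  · rw [if_pos h]
    have : wt K β ≤ LinearMap.eqLocus (prj K α) LinearMap.id := by
      rw [wt, Submodule.span_le]
      rintro _ ⟨w, hw, rfl⟩
      show prj K α (mon K w) = mon K w
      rw [prj_mon, if_pos (hw.trans h)]
    exact this hx
  · rw [if_neg h]
    have : wt K β ≤ LinearMap.ker (prj K α) := by
      rw [wt, Submodule.span_le]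
      rintro _ ⟨w, hw, rfl⟩
      show prj K α (mon K w) = 0
      rw [prj_mon, if_neg (fun h' => h (hw.symm.trans h'))]
    exact this hx

/-- The generators of the weight space of `L_{k+1}` (`k ≥ 1`). -/
theorem lc_inf_wt_le (k : ℕ) (α : X → ℕ) :
    (lc K (k + 1) ⊓ wt K α : Submodule K (FreeAlgebra K X)) ≤
      Submodule.span K {x | ∃ ws w₀, ws.length = k + 1 ∧ (∀ w ∈ ws, w ≠ []) ∧ w₀ ≠ [] ∧
        cont (ws.flatten ++ w₀) = α ∧ x = nc K ws w₀} := by
  classical
  rintro x ⟨h1, h2⟩
  have h3 : prj K α x = x := by rw [prj_of_mem K α α h2, if_pos rfl]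
  rw [← h3]
  have h4 : lc K (k + 1) ≤ Submodule.comap (prj K α)
      (Submodule.span K {x | ∃ ws w₀, ws.length = k + 1 ∧ (∀ w ∈ ws, w ≠ []) ∧ w₀ ≠ [] ∧
        cont (ws.flatten ++ w₀) = α ∧ x = nc K ws w₀}) := by
    rw [lc_eq_span, Submodule.span_le]
    rintro _ ⟨ws, w₀, hk, rfl⟩
    rw [SetLike.mem_coe, Submodule.mem_comap, prj_of_mem K α _ (nc_mem K ws w₀)]
    split_ifs with h
    · by_cases h5 : [] ∈ ws
      · rw [nc_eq_zero K h5]; exact Submodule.zero_mem _
      · by_cases h6 : w₀ = []
        · subst h6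
          rw [nc_eq_zero' K (by intro h; simp [h] at hk)]
          exact Submodule.zero_mem _
        · exact Submodule.subset_span ⟨ws, w₀, hk, fun w hw h' => h5 (h' ▸ hw), h6, h, rfl⟩
    · exact Submodule.zero_mem _
  exact h4 h1

omit [DecidableEq X] in
theorem nc_mem_lc (ws : List (List X)) (w₀ : List X) : nc K ws w₀ ∈ lc K ws.length := by
  rw [lc_eq_span]
  exact Submodule.subset_span ⟨ws, w₀, rfl, rfl⟩

end H957R3.LCS
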