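import Mathlib
import Pool.Agent.H957R3.LA

/-! Upper and lower bounds for dimensions of weight spaces of the lower central series. -/

namespace H957R3.LCS

open Module

section lin
variable {K V : Type*} [Field K] [CharZero K] [AddCommGroup V] [Module K V]

theorem indep_of_mod_two {m : ℕ} (Φ : V →ₗ[K] (Fin m → K)) (x : Fin m → V)
    (M : Matrix (Fin m) (Fin m) ℤ) (hM : ∀ i j, Φ (x i) j = (M i j : K))
    (h2 : ∀ i j, ((M i j : ℤ) : ZMod 2) = if i = j then 1 else 0) :
    LinearIndependent K (fun i => Φ (x i)) := by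
  have h3 : M.map (Int.castRingHom (ZMod 2)) = 1 := by
    ext i j
    rw [Matrix.map_apply, Matrix.one_apply]
    exact h2 i j
  have h4 : Int.castRingHom (ZMod 2) M.det = 1 := by
    rw [RingHom.map_det, RingHom.mapMatrix_apply, h3, Matrix.det_one]
  have h5 : M.det ≠ 0 := by
    intro h
    rw [h, map_zero] at h4
    exact zero_ne_one h4
  have h6 : (M.map (Int.castRingHom K)).det ≠ 0 := by
    rw [← RingHom.mapMatrix_apply, ← RingHom.map_det]
    simpa using h5
  have h7 := Matrix.linearIndependent_rows_of_det_ne_zero h6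
  have h8 : (fun i => Φ (x i)) = (M.map (Int.castRingHom K)).row := by
    funext i j
    rw [hM]; rfl
  rw [h8]; exact h7

end lin

variable (K : Type*) [Field K] {X : Type*}

/-- the vector functional. -/
noncomputable def Phi (φ : List X → ℕ → ℤ) (m : ℕ) : FreeAlgebra K X →ₗ[K] (Fin m → K) :=
  LinearMap.pi (fun j => fn K (fun w => ((φ w j : ℤ) : K)))

theorem Phi_nc (φ : List X → ℕ → ℤ) (m : ℕ) (ws : List (List X)) (w₀ : List X) (j : Fin m) :
    Phi K φ m (nc K ws w₀) j = ((evnc (fun w => φ w j) ws w₀ : ℤ) : K) := by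
  rw [Phi, LinearMap.pi_apply, fn_nc]
  exact evnc_map (Int.castAddHom K) _ ws w₀

theorem Phi_mon (φ : List X → ℕ → ℤ) (m : ℕ) (w : List X) (j : Fin m) :
    Phi K φ m (mon K w) j = ((φ w j : ℤ) : K) := by
  rw [Phi, LinearMap.pi_apply, fn_mon]

variable [DecidableEq X]

open Classical in
theorem wt_le_of_list {α : X → ℕ} {wl : List (List X)} (h : ∀ w, cont w = α → w ∈ wl) :
    (wt K α : Submodule K (FreeAlgebra K X)) ≤
      Submodule.span K (((wl.map (mon K)).toFinset : Finset (FreeAlgebra K X)) :
        Set (FreeAlgebra K X)) := by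
  rw [wt, Submodule.span_le]
  rintro _ ⟨w, hw, rfl⟩
  apply Submodule.subset_span
  simp only [List.coe_toFinset, List.mem_map, Set.mem_ofPred_eq]
  exact ⟨w, h w hw, rfl⟩

theorem finite_wt {α : X → ℕ} {wl : List (List X)} (h : ∀ w, cont w = α → w ∈ wl) :
    FiniteDimensional K (wt K α : Submodule K (FreeAlgebra K X)) := by
  classical
  have := wt_le_of_list K h
  have h2 : FiniteDimensional K (Submodule.span K (((wl.map (mon K)).toFinset :
    Finset (FreeAlgebra K X)) : Set (FreeAlgebra K X))) :=
    FiniteDimensional.span_finset K _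
  exact Submodule.finiteDimensional_of_le this

theorem finrank_wt_le {α : X → ℕ} {wl : List (List X)} (h : ∀ w, cont w = α → w ∈ wl) :
    finrank K (wt K α : Submodule K (FreeAlgebra K X)) ≤ wl.length := by
  classical
  have := wt_le_of_list K h
  have h2 : FiniteDimensional K (Submodule.span K (((wl.map (mon K)).toFinset :
    Finset (FreeAlgebra K X)) : Set (FreeAlgebra K X))) :=
    FiniteDimensional.span_finset K _
  refine (Submodule.finrank_mono this).trans ?_
  refine (finrank_span_finset_le_card _).trans ?_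
  exact (List.toFinset_card_le _).trans (by simp)

/-- upper bound criterion. -/
theorem upper [CharZero K] (k : ℕ) (α : X → ℕ) {wl : List (List X)}
    (h : ∀ w, cont w = α → w ∈ wl) (m : ℕ) (φ : List X → ℕ → ℤ)
    (hφ : ∀ ws w₀, ws.length = k + 1 → (∀ w ∈ ws, w ≠ []) → w₀ ≠ [] →
      cont (ws.flatten ++ w₀) = α → ∀ j < m, evnc (fun w => φ w j) ws w₀ = 0)
    (u : ℕ → List X) (hu : ∀ i < m, cont (u i) = α)
    (hI : ∀ i < m, ∀ j < m, ((φ (u i) j : ℤ) : ZMod 2) = if i = j then 1 else 0) :
    finrank K (lc K (k + 1) ⊓ wt K α : Submodule K (FreeAlgebra K X)) + m ≤ wl.length := by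
  have hfin : FiniteDimensional K (wt K α : Submodule K (FreeAlgebra K X)) := finite_wt K h
  have hli : LinearIndependent K (fun i : Fin m => Phi K φ m (mon K (u i))) := by
    refine indep_of_mod_two (Phi K φ m) (fun i : Fin m => mon K (u i))
      (fun i j => φ (u i) j) (fun i j => Phi_mon K φ m (u i) j) ?_
    intro i j
    rw [hI i i.2 j j.2]
    simp [Fin.ext_iff]
  have hli' : LinearIndependent K (fun i : Fin m => mon K (u i)) :=
    LinearIndependent.of_comp (Phi K φ m) hli
  set U : Submodule K (FreeAlgebra K X) :=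
    Submodule.span K (Set.range (fun i : Fin m => mon K (u i))) with hU
  have hUr : finrank K U = m := by
    rw [hU, finrank_span_eq_card hli', Fintype.card_fin]
  have hUle : U ≤ wt K α := by
    rw [hU, Submodule.span_le]
    rintro _ ⟨i, rfl⟩
    exact Submodule.subset_span ⟨u i, hu i i.2, rfl⟩
  have hker : (lc K (k + 1) ⊓ wt K α : Submodule K (FreeAlgebra K X)) ≤
      LinearMap.ker (Phi K φ m) := by
    refine (lc_inf_wt_le K k α).trans ?_
    rw [Submodule.span_le]
    rintro _ ⟨ws, w₀, h1, h2, h3, h4, rfl⟩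
    rw [SetLike.mem_coe, LinearMap.mem_ker]
    funext j
    rw [Phi_nc, hφ ws w₀ h1 h2 h3 h4 j j.2]
    simp
  have hdis : Disjoint (lc K (k + 1) ⊓ wt K α : Submodule K (FreeAlgebra K X)) U := by
    rw [Submodule.disjoint_def]
    intro x hx hxU
    have h0 : Phi K φ m x = 0 := hker hx
    rw [hU, Submodule.mem_span_range_iff_exists_fun] at hxU
    obtain ⟨c, rfl⟩ := hxU
    rw [map_sum] at h0
    simp only [map_smul] at h0
    have h1 := Fintype.linearIndependent_iff.1 hli c h0
    simp [h1]
  have hfin2 : FiniteDimensional K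
      (lc K (k + 1) ⊓ wt K α : Submodule K (FreeAlgebra K X)) :=
    Submodule.finiteDimensional_of_le inf_le_right
  have hfin3 : FiniteDimensional K U := Submodule.finiteDimensional_of_le hUle
  have h5 := Submodule.finrank_sup_add_finrank_inf_eq
    (lc K (k + 1) ⊓ wt K α : Submodule K (FreeAlgebra K X)) U
  rw [disjoint_iff.1 hdis, finrank_bot, add_zero, hUr] at h5
  rw [← h5]
  exact (Submodule.finrank_mono (sup_le inf_le_right hUle)).trans (finrank_wt_le K h)

/-- lower bound criterion. -/
theorem lower [CharZero K] (k : ℕ) (α : X → ℕ) {wl : List (List X)}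
    (h : ∀ w, cont w = α → w ∈ wl) (r : ℕ) (φ : List X → ℕ → ℤ)
    (gw : ℕ → List (List X)) (g0 : ℕ → List X) (hk : ∀ i < r, (gw i).length = k)
    (hc : ∀ i < r, cont ((gw i).flatten ++ g0 i) = α)
    (hI : ∀ i < r, ∀ j < r, ((evnc (fun w => φ w j) (gw i) (g0 i) : ℤ) : ZMod 2)
      = if i = j then 1 else 0) :
    r ≤ finrank K (lc K k ⊓ wt K α : Submodule K (FreeAlgebra K X)) := by
  have hfin : FiniteDimensional K (wt K α : Submodule K (FreeAlgebra K X)) := finite_wt K h
  have hfin2 : FiniteDimensional K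
      (lc K k ⊓ wt K α : Submodule K (FreeAlgebra K X)) :=
    Submodule.finiteDimensional_of_le inf_le_right
  have hli : LinearIndependent K (fun i : Fin r => Phi K φ r (nc K (gw i) (g0 i))) := by
    refine indep_of_mod_two (Phi K φ r) (fun i : Fin r => nc K (gw i) (g0 i))
      (fun i j => evnc (fun w => φ w j) (gw i) (g0 i)) (fun i j => Phi_nc K φ r _ _ j) ?_
    intro i j
    rw [hI i i.2 j j.2]
    simp [Fin.ext_iff]
  have hli' : LinearIndependent K (fun i : Fin r => nc K (gw i) (g0 i)) :=
    LinearIndependent.of_comp (Phi K φ r) hli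
  have hmem : ∀ i : Fin r, nc K (gw i) (g0 i) ∈
      (lc K k ⊓ wt K α : Submodule K (FreeAlgebra K X)) := by
    intro i
    refine ⟨?_, ?_⟩
    · have := nc_mem_lc K (gw i) (g0 i)
      rwa [hk i i.2] at this
    · have := nc_mem K (gw i) (g0 i)
      rwa [hc i i.2] at this
  have hspan : Submodule.span K (Set.range (fun i : Fin r => nc K (gw i) (g0 i))) ≤
      (lc K k ⊓ wt K α : Submodule K (FreeAlgebra K X)) := by
    rw [Submodule.span_le]
    rintro _ ⟨i, rfl⟩
    exact hmem i
  have h1 := Submodule.finrank_mono hspan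
  rwa [finrank_span_eq_card hli', Fintype.card_fin] at h1

/-- dimension of the weight space of `L_{k+1}/L_{k+2}`. -/
theorem finrank_quot (k : ℕ) (α : X → ℕ) {wl : List (List X)}
    (h : ∀ w, cont w = α → w ∈ wl) :
    finrank K ((lc K k ⊓ wt K α : Submodule K (FreeAlgebra K X)).map
      (lc K (k + 1)).mkQ) + finrank K (lc K (k + 1) ⊓ wt K α : Submodule K (FreeAlgebra K X))
      = finrank K (lc K k ⊓ wt K α : Submodule K (FreeAlgebra K X)) := by
  have hfin : FiniteDimensional K (wt K α : Submodule K (FreeAlgebra K X)) := finite_wt K h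
  set E : Submodule K (FreeAlgebra K X) := lc K k ⊓ wt K α with hE
  have hfin2 : FiniteDimensional K E := Submodule.finiteDimensional_of_le inf_le_right
  have h1 := LinearMap.finrank_range_add_finrank_ker ((lc K (k + 1)).mkQ.domRestrict E)
  have h2 : LinearMap.range ((lc K (k + 1)).mkQ.domRestrict E) = E.map (lc K (k + 1)).mkQ := by
    rw [LinearMap.range_domRestrict]
  have h3 : LinearMap.ker ((lc K (k + 1)).mkQ.domRestrict E) =
      Submodule.comap E.subtype (lc K (k + 1) ⊓ wt K α) := by
    ext ⟨x, hx⟩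
    rw [LinearMap.mem_ker, LinearMap.domRestrict_apply, Submodule.mkQ_apply,
      Submodule.Quotient.mk_eq_zero, Submodule.mem_comap]
    constructor
    · intro h; exact ⟨h, hx.2⟩
    · intro h; exact h.1
  rw [h2, h3] at h1
  rw [← h1]
  congr 1
  have hle : (lc K (k + 1) ⊓ wt K α : Submodule K (FreeAlgebra K X)) ≤ E :=
    inf_le_inf_right _ (lc_succ_le K k)
  exact (LinearEquiv.finrank_eq (Submodule.comapSubtypeEquivOfLe hle)).symm

end H957R3.LCS
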