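import Mathlib
import Pool.Agent.H957R3.LB

/-! Kernel-checkable certificates for the upper and lower bounds. -/

namespace H957R3.LCS

open Module

/-- letters -/
inductive Q | a | b | c | d
  deriving DecidableEq

/-- tries -/
inductive Tr
  | nil
  | leaf (v : ℕ)
  | node (a b c d : Tr)

/-- descend -/
def Tr.sub (t : Tr) (q : Q) : Tr :=
  Tr.casesOn t .nil (fun _ => .nil) (fun a b c d => Q.casesOn q a b c d)

/-- value at root -/
def Tr.val (t : Tr) : ℕ := Tr.casesOn t 0 (fun v => v) (fun _ _ _ _ => 0)

/-- look up -/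
def lk (t : Tr) (w : List Q) : ℕ :=
  List.rec (motive := fun _ => Tr → ℕ) (fun t => t.val) (fun q _ ih t => ih (t.sub q)) w t

/-- all values satisfy a test -/
def Tr.all (p : ℕ → Bool) : Tr → Bool
  | .nil => true
  | .leaf v => p v
  | .node a b c d => a.all p && b.all p && c.all p && d.all p

theorem lk_all {p : ℕ → Bool} (h0 : p 0 = true) (w : List Q) (t : Tr) (h : t.all p = true) :
    p (lk t w) = true := by
  induction w generalizing t with
  | nil =>
    cases t with
    | nil => exact h0
    | leaf v => exact h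
    | node a b c d => exact h0
  | cons q w ih =>
    show p (lk (t.sub q) w) = true
    apply ih
    cases t with
    | nil => rfl
    | leaf v => rfl
    | node a b c d =>
      simp only [Tr.all, Bool.and_eq_true] at h
      cases q
      · exact h.1.1.1
      · exact h.1.1.2
      · exact h.1.2
      · exact h.2

/-! ### evaluation in natural numbers -/

section pn
variable {X : Type*}

/-- sum of the terms of sign `s`. -/
def pn (φ : List X → ℕ) (s : Bool) (ws : List (List X)) (w₀ : List X) : ℕ :=
  List.rec (motive := fun _ => (List X → ℕ) → Bool → ℕ)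
    (fun φ s => Bool.casesOn s 0 (φ w₀))
    (fun w _ ih φ s => ih (fun x => φ (w ++ x)) s + ih (fun x => φ (x ++ w)) (!s)) ws φ s

theorem pn_nil (φ : List X → ℕ) (s : Bool) (w₀ : List X) :
    pn φ s [] w₀ = if s then φ w₀ else 0 := by cases s <;> rfl

theorem pn_cons (φ : List X → ℕ) (s : Bool) (w : List X) (ws : List (List X)) (w₀ : List X) :
    pn φ s (w :: ws) w₀ = pn (fun x => φ (w ++ x)) s ws w₀
      + pn (fun x => φ (x ++ w)) (!s) ws w₀ := rfl

theorem evnc_eq_pn (φ : List X → ℕ) (ws : List (List X)) (w₀ : List X) :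
    evnc (fun w => (φ w : ℤ)) ws w₀ = (pn φ true ws w₀ : ℤ) - (pn φ false ws w₀ : ℤ) := by
  induction ws generalizing φ with
  | nil => simp [evnc, pn_nil]
  | cons w ws ih =>
    show evnc (fun x => (φ (w ++ x) : ℤ) - (φ (x ++ w) : ℤ)) ws w₀ = _
    rw [evnc_sub, ih, ih, pn_cons, pn_cons]
    push_cast
    simp only [Bool.not_true, Bool.not_false]
    ring

/-- the digit of index `j` in base `B`. -/
def dig (B j x : ℕ) : ℕ := x / B ^ j % B

theorem dig_add_aux {B D x y : ℕ} (hx : ∀ j, dig B j x < D)
    (hy : ∀ j, dig B j y < D) (hD : D + D ≤ B) (j : ℕ) :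
    (x + y) / B ^ j = x / B ^ j + y / B ^ j := by
  induction j with
  | zero => simp
  | succ j ih =>
    rw [pow_succ, ← Nat.div_div_eq_div_mul, ← Nat.div_div_eq_div_mul,
      ← Nat.div_div_eq_div_mul, ih]
    apply Nat.add_div_eq_of_add_mod_lt
    have h1 := hx j
    have h2 := hy j
    simp only [dig] at h1 h2
    omega

theorem dig_add {B D x y : ℕ} (hx : ∀ j, dig B j x < D)
    (hy : ∀ j, dig B j y < D) (hD : D + D ≤ B) (j : ℕ) :
    dig B j (x + y) = dig B j x + dig B j y := by
  have h1 := hx j
  have h2 := hy j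
  simp only [dig] at h1 h2 ⊢
  rw [dig_add_aux hx hy hD j]
  apply Nat.add_mod_of_add_mod_lt
  omega

theorem dig_pn {B : ℕ} (ws : List (List X)) (w₀ : List X) {C : ℕ} (hC : 0 < C)
    (hCB : 2 ^ ws.length * C ≤ B) (φ : List X → ℕ) (hφ : ∀ w j, dig B j (φ w) < C) (s : Bool) :
    (∀ j, dig B j (pn φ s ws w₀) < 2 ^ ws.length * C) ∧
      ∀ j, dig B j (pn φ s ws w₀) = pn (fun w => dig B j (φ w)) s ws w₀ := by
  induction ws generalizing φ s with
  | nil =>
    cases s
    · refine ⟨fun j => ?_, fun j => ?_⟩
      · simpa [pn_nil, dig] using hC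
      · simp [pn_nil, dig]
    · refine ⟨fun j => ?_, fun j => ?_⟩
      · simpa [pn_nil] using hφ w₀ j
      · simp [pn_nil]
  | cons w ws ih =>
    have hE : 2 ^ ws.length * C + 2 ^ ws.length * C ≤ B := by
      rw [List.length_cons, pow_succ] at hCB
      calc 2 ^ ws.length * C + 2 ^ ws.length * C = 2 ^ ws.length * 2 * C := by ring
        _ ≤ B := hCB
    have h1 := ih (by omega) (fun x => φ (w ++ x)) (fun x j => hφ _ j) s
    have h2 := ih (by omega) (fun x => φ (x ++ w)) (fun x j => hφ _ j) (!s)
    have h3 : ∀ j, dig B j (pn φ s (w :: ws) w₀) = dig B j (pn (fun x => φ (w ++ x)) s ws w₀)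
        + dig B j (pn (fun x => φ (x ++ w)) (!s) ws w₀) := by
      intro j
      rw [pn_cons]
      exact dig_add h1.1 h2.1 hE j
    refine ⟨fun j => ?_, fun j => ?_⟩
    · rw [h3, List.length_cons, pow_succ]
      have := h1.1 j
      have := h2.1 j
      calc _ < 2 ^ ws.length * C + 2 ^ ws.length * C := by omega
        _ = _ := by ring
    · rw [h3, h1.2, h2.2, pn_cons]

theorem evnc_dig_eq_zero {B : ℕ} (ws : List (List X)) (w₀ : List X) {C : ℕ} (hC : 0 < C)
    (hCB : 2 ^ ws.length * C ≤ B) (φ : List X → ℕ) (hφ : ∀ w j, dig B j (φ w) < C)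
    (h : pn φ true ws w₀ = pn φ false ws w₀) (j : ℕ) :
    evnc (fun w => ((dig B j (φ w) : ℕ) : ℤ)) ws w₀ = 0 := by
  rw [evnc_eq_pn, ← (dig_pn ws w₀ hC hCB φ hφ true).2 j, ← (dig_pn ws w₀ hC hCB φ hφ false).2 j,
    h, sub_self]

/-- exclusive-or evaluation. -/
def xnc (φ : List X → ℕ) (ws : List (List X)) (w₀ : List X) : ℕ :=
  List.rec (motive := fun _ => (List X → ℕ) → ℕ)
    (fun φ => φ w₀)
    (fun w _ ih φ => Nat.xor (ih (fun x => φ (w ++ x))) (ih (fun x => φ (x ++ w)))) ws φ

theorem xnc_cons (φ : List X → ℕ) (w : List X) (ws : List (List X)) (w₀ : List X) :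
    xnc φ (w :: ws) w₀ = Nat.xor (xnc (fun x => φ (w ++ x)) ws w₀)
      (xnc (fun x => φ (x ++ w)) ws w₀) := rfl

/-- bit as an element of `ZMod 2`. -/
def b2 (b : Bool) : ZMod 2 := if b then 1 else 0

theorem b2_xor (a b : Bool) : b2 (a ^^ b) = b2 a - b2 b := by
  cases a <;> cases b <;> decide

theorem evnc_b2 (φ : List X → ℕ) (j : ℕ) (ws : List (List X)) (w₀ : List X) :
    evnc (fun w => b2 ((φ w).testBit j)) ws w₀ = b2 ((xnc φ ws w₀).testBit j) := by
  induction ws generalizing φ with
  | nil => rfl
  | cons w ws ih =>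
    show evnc (fun x => b2 ((φ (w ++ x)).testBit j) - b2 ((φ (x ++ w)).testBit j)) ws w₀ = _
    rw [evnc_sub, ih, ih, xnc_cons]
    have : Nat.xor (xnc (fun x => φ (w ++ x)) ws w₀) (xnc (fun x => φ (x ++ w)) ws w₀)
      = (xnc (fun x => φ (w ++ x)) ws w₀) ^^^ (xnc (fun x => φ (x ++ w)) ws w₀) := rfl
    rw [this, Nat.testBit_xor]
    exact (b2_xor _ _).symm

end pn

/-! ### Enumeration -/

/-- all words with given numbers of letters; the first argument is the length. -/
def wrd : ℕ → ℕ → ℕ → ℕ → ℕ → List (List Q)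
  | 0, _, _, _, _ => [[]]
  | n + 1, a, b, c, d =>
    (Nat.casesOn a [] (fun a' => (wrd n a' b c d).map (List.cons Q.a))) ++
    (Nat.casesOn b [] (fun b' => (wrd n a b' c d).map (List.cons Q.b))) ++
    (Nat.casesOn c [] (fun c' => (wrd n a b c' d).map (List.cons Q.c))) ++
    (Nat.casesOn d [] (fun d' => (wrd n a b c d').map (List.cons Q.d)))

theorem mem_wrd (w : List Q) (a b c d : ℕ) (ha : w.count Q.a = a) (hb : w.count Q.b = b)
    (hc : w.count Q.c = c) (hd : w.count Q.d = d) : w ∈ wrd w.length a b c d := by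
  induction w generalizing a b c d with
  | nil => simp [wrd]
  | cons q w ih =>
    rw [List.length_cons, wrd]
    cases q
    · have h : w.count Q.a + 1 = a := by simpa using ha
      subst h
      have := ih (w.count Q.a) b c d rfl (by simpa using hb) (by simpa using hc)
        (by simpa using hd)
      simp [this]
    · have h : w.count Q.b + 1 = b := by simpa using hb
      subst h
      have := ih a (w.count Q.b) c d (by simpa using ha) rfl (by simpa using hc)
        (by simpa using hd)
      simp [this]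
    · have h : w.count Q.c + 1 = c := by simpa using hc
      subst h
      have := ih a b (w.count Q.c) d (by simpa using ha) (by simpa using hb) rfl
        (by simpa using hd)
      simp [this]
    · have h : w.count Q.d + 1 = d := by simpa using hd
      subst h
      have := ih a b c (w.count Q.d) (by simpa using ha) (by simpa using hb)
        (by simpa using hc) rfl
      simp [this]

/-- nonempty prefixes with the corresponding rests. -/
def pre (w : List Q) : List (List Q × List Q) :=
  List.rec (motive := fun _ => List (List Q × List Q)) []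
    (fun x w ih => ([x], w) :: ih.map (fun p => (x :: p.1, p.2))) w

theorem mem_pre (p r : List Q) (hp : p ≠ []) : (p, r) ∈ pre (p ++ r) := by
  induction p with
  | nil => exact absurd rfl hp
  | cons x p ih =>
    show (x :: p, r) ∈ ([x], p ++ r) :: (pre (p ++ r)).map (fun p => (x :: p.1, p.2))
    by_cases h : p = []
    · subst h; simp
    · exact List.mem_cons_of_mem _ (List.mem_map.2 ⟨(p, r), ih h, rfl⟩)

/-- test all splittings of `w` into `k+1` nonempty pieces. -/
def spl (k : ℕ) (T : List (List Q) → List Q → Bool) (w : List Q) : Bool :=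
  Nat.rec (motive := fun _ => (List (List Q) → List Q → Bool) → List Q → Bool)
    (fun T w => List.casesOn w true (fun x w => T [] (x :: w)))
    (fun _ ih T w => (pre w).all (fun p => ih (fun ws w₀ => T (p.1 :: ws) w₀) p.2)) k T w

theorem spl_sound (k : ℕ) (T : List (List Q) → List Q → Bool) (ws : List (List Q))
    (w₀ : List Q) (hk : ws.length = k) (h1 : ∀ w ∈ ws, w ≠ []) (h2 : w₀ ≠ [])
    (h : spl k T (ws.flatten ++ w₀) = true) : T ws w₀ = true := by
  induction k generalizing T ws with
  | zero =>
    rw [List.length_eq_zero_iff] at hk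
    subst hk
    match w₀, h2, h with
    | x :: w, _, h => exact h
  | succ k ih =>
    match ws, hk, h1, h with
    | w :: ws, hk, h1, h =>
      have h' : ((pre (w ++ (ws.flatten ++ w₀))).all
        (fun p => spl k (fun ws w₀ => T (p.1 :: ws) w₀) p.2)) = true := by
        rw [← List.append_assoc]; exact h
      rw [List.all_eq_true] at h'
      have h3 := h' (w, ws.flatten ++ w₀) (mem_pre _ _ (h1 w (by simp)))
      exact ih (fun ws w₀ => T (w :: ws) w₀) ws (by simpa using hk)
        (fun v hv => h1 v (by simp [hv])) h3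

/-! ### Checkers -/

/-- main check for upper bounds -/
def chkU (k : ℕ) (t : Tr) (wl : List (List Q)) : Bool :=
  wl.all (fun w => spl k (fun ws w₀ => Nat.beq (pn (lk t) true ws w₀) (pn (lk t) false ws w₀)) w)

/-- all digits `< C` -/
def digOK (B C m v : ℕ) : Bool :=
  Nat.blt v (B ^ m) && (List.range m).all (fun j => Nat.blt (v / B ^ j % B) C)

theorem digOK_sound {B C m v : ℕ} (hB : 0 < B) (hC : 0 < C) (h : digOK B C m v = true) (j : ℕ) :
    dig B j v < C := by
  simp only [digOK, Bool.and_eq_true, List.all_eq_true, List.mem_range, Nat.blt_eq] at h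
  by_cases hj : j < m
  · exact h.2 j hj
  · have : v < B ^ j := lt_of_lt_of_le h.1 (Nat.pow_le_pow_right hB (by omega))
    simp [dig, Nat.div_eq_of_lt this, hC]

/-- parity pattern of the `i`th row -/
def rowOK (B m i v : ℕ) : Bool :=
  (List.range m).all (fun j => Nat.beq (v / B ^ j % B % 2) (cond (Nat.beq i j) 1 0))

/-- the check of the independence rows -/
def chkR (B m : ℕ) (t : Tr) (a b c d : ℕ) (nw : List (List Q)) : Bool :=
  List.rec (motive := fun _ => ℕ → Bool) (fun i => Nat.beq i m)
    (fun w _ ih i => rowOK B m i (lk t w) &&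
      (Nat.beq (w.count Q.a) a && Nat.beq (w.count Q.b) b && Nat.beq (w.count Q.c) c &&
        Nat.beq (w.count Q.d) d) && ih (i + 1)) nw 0

/-- contents of a word -/
def cQ (a b c d : ℕ) (w : List Q) : Prop :=
  w.count Q.a = a ∧ w.count Q.b = b ∧ w.count Q.c = c ∧ w.count Q.d = d

theorem chkR_sound {B m : ℕ} {t : Tr} {a b c d : ℕ} {nw : List (List Q)}
    (h : chkR B m t a b c d nw = true) :
    nw.length = m ∧ ∀ i < m, cQ a b c d (nw.getD i []) ∧
      ∀ j < m, dig B j (lk t (nw.getD i [])) % 2 = if i = j then 1 else 0 := by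
  have key : ∀ (l : List (List Q)) (s : ℕ),
      List.rec (motive := fun _ => ℕ → Bool) (fun i => Nat.beq i m)
      (fun w _ ih i => rowOK B m i (lk t w) &&
        (Nat.beq (w.count Q.a) a && Nat.beq (w.count Q.b) b && Nat.beq (w.count Q.c) c &&
        Nat.beq (w.count Q.d) d) && ih (i + 1)) l s = true →
      s + l.length = m ∧ ∀ i < l.length, cQ a b c d (l.getD i []) ∧
        ∀ j < m, dig B j (lk t (l.getD i [])) % 2 = if s + i = j then 1 else 0 := by
    intro l
    induction l with
    | nil =>
      intro s hs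
      exact ⟨Nat.eq_of_beq_eq_true hs, fun i hi => by simp at hi⟩
    | cons w l ih =>
      intro s hs
      simp only [Bool.and_eq_true] at hs
      obtain ⟨⟨h1, ⟨⟨h2a, h2b⟩, h2c⟩, h2d⟩, h3⟩ := hs
      obtain ⟨h4, h5⟩ := ih (s + 1) h3
      refine ⟨by rw [List.length_cons]; omega, fun i hi => ?_⟩
      match i with
      | 0 =>
        refine ⟨⟨Nat.eq_of_beq_eq_true h2a, Nat.eq_of_beq_eq_true h2b,
          Nat.eq_of_beq_eq_true h2c, Nat.eq_of_beq_eq_true h2d⟩, fun j hj => ?_⟩
        rw [rowOK, List.all_eq_true] at h1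
        have := Nat.eq_of_beq_eq_true (h1 j (List.mem_range.2 hj))
        show lk t w / B ^ j % B % 2 = _
        rw [this, add_zero]
        by_cases hsj : s = j
        · subst hsj; simp
        · rw [if_neg hsj]
          have : Nat.beq s j = false := by
            rw [Bool.eq_false_iff]; intro h; exact hsj (Nat.eq_of_beq_eq_true h)
          rw [this]; rfl
      | i + 1 =>
        have := h5 i (by simpa using hi)
        refine ⟨this.1, fun j hj => ?_⟩
        have h6 := this.2 j hj
        rw [show s + (i + 1) = s + 1 + i by ring]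
        exact h6
  obtain ⟨h1, h2⟩ := key nw 0 h
  rw [zero_add] at h1
  refine ⟨h1, fun i hi => ?_⟩
  have := h2 i (h1 ▸ hi)
  rwa [zero_add] at this

/-- the check for lower bounds -/
def chkL (k : ℕ) (t : Tr) (a b c d : ℕ) (gs : List (List (List Q) × List Q)) : Bool :=
  List.rec (motive := fun _ => ℕ → Bool) (fun _ => true)
    (fun g _ ih i => Nat.beq (xnc (lk t) g.1 g.2) (2 ^ i) && Nat.beq g.1.length k &&
      (Nat.beq ((g.1.flatten ++ g.2).count Q.a) a && Nat.beq ((g.1.flatten ++ g.2).count Q.b) b &&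
        Nat.beq ((g.1.flatten ++ g.2).count Q.c) c &&
        Nat.beq ((g.1.flatten ++ g.2).count Q.d) d) && ih (i + 1)) gs 0

theorem chkL_sound {k : ℕ} {t : Tr} {a b c d : ℕ} {gs : List (List (List Q) × List Q)}
    (h : chkL k t a b c d gs = true) :
    ∀ i < gs.length, (gs.getD i ([], [])).1.length = k ∧
      cQ a b c d ((gs.getD i ([], [])).1.flatten ++ (gs.getD i ([], [])).2) ∧
      xnc (lk t) (gs.getD i ([], [])).1 (gs.getD i ([], [])).2 = 2 ^ i := by
  have key : ∀ (l : List (List (List Q) × List Q)) (s : ℕ),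
      List.rec (motive := fun _ => ℕ → Bool) (fun _ => true)
      (fun g _ ih i => Nat.beq (xnc (lk t) g.1 g.2) (2 ^ i) && Nat.beq g.1.length k &&
      (Nat.beq ((g.1.flatten ++ g.2).count Q.a) a && Nat.beq ((g.1.flatten ++ g.2).count Q.b) b &&
        Nat.beq ((g.1.flatten ++ g.2).count Q.c) c &&
        Nat.beq ((g.1.flatten ++ g.2).count Q.d) d) && ih (i + 1)) l s = true →
      ∀ i < l.length, (l.getD i ([], [])).1.length = k ∧
      cQ a b c d ((l.getD i ([], [])).1.flatten ++ (l.getD i ([], [])).2) ∧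
      xnc (lk t) (l.getD i ([], [])).1 (l.getD i ([], [])).2 = 2 ^ (s + i) := by
    intro l
    induction l with
    | nil =>
      intro s hs i hi
      simp at hi
    | cons g l ih =>
      intro s hs i hi
      simp only [Bool.and_eq_true] at hs
      obtain ⟨⟨⟨h0, h1⟩, ⟨⟨h2a, h2b⟩, h2c⟩, h2d⟩, h3⟩ := hs
      match i with
      | 0 =>
        exact ⟨Nat.eq_of_beq_eq_true h1, ⟨Nat.eq_of_beq_eq_true h2a, Nat.eq_of_beq_eq_true h2b,
          Nat.eq_of_beq_eq_true h2c, Nat.eq_of_beq_eq_true h2d⟩, Nat.eq_of_beq_eq_true h0⟩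
      | i + 1 =>
        have := ih (s + 1) h3 i (by simpa using hi)
        rw [show s + (i + 1) = s + 1 + i by ring]
        exact this
  intro i hi
  have := key gs 0 h i hi
  rwa [zero_add] at this

/-! ### Transfer to words over `Fin 4` -/

/-- letters -/
def toQ (i : Fin 4) : Q := match i with | 0 => .a | 1 => .b | 2 => .c | 3 => .d

/-- letters -/
def toF : Q → Fin 4 | .a => 0 | .b => 1 | .c => 2 | .d => 3

theorem toF_toQ (i : Fin 4) : toF (toQ i) = i := by revert i; decide
theorem toQ_toF (q : Q) : toQ (toF q) = q := by cases q <;> rfl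
theorem toQ_inj : Function.Injective toQ := Function.LeftInverse.injective toF_toQ
theorem toF_inj : Function.Injective toF := Function.LeftInverse.injective toQ_toF

theorem cQ_of_cont {α : Fin 4 → ℕ} {w : List (Fin 4)} (h : cont w = α) :
    cQ (α 0) (α 1) (α 2) (α 3) (w.map toQ) := by
  subst h
  refine ⟨?_, ?_, ?_, ?_⟩
  · exact List.count_map_of_injective w toQ toQ_inj 0
  · exact List.count_map_of_injective w toQ toQ_inj 1
  · exact List.count_map_of_injective w toQ toQ_inj 2
  · exact List.count_map_of_injective w toQ toQ_inj 3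

theorem cont_of_cQ {α : Fin 4 → ℕ} {w : List Q} (h : cQ (α 0) (α 1) (α 2) (α 3) w) :
    cont (w.map toF) = α := by
  obtain ⟨h0, h1, h2, h3⟩ := h
  funext i
  show (w.map toF).count i = α i
  match i with
  | 0 => rw [← h0]; exact List.count_map_of_injective w toF toF_inj Q.a
  | 1 => rw [← h1]; exact List.count_map_of_injective w toF toF_inj Q.b
  | 2 => rw [← h2]; exact List.count_map_of_injective w toF toF_inj Q.c
  | 3 => rw [← h3]; exact List.count_map_of_injective w toF toF_inj Q.d

theorem map_toF_toQ (w : List (Fin 4)) : (w.map toQ).map toF = w := by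
  rw [List.map_map]
  conv_rhs => rw [← List.map_id w]
  congr 1
  funext i; exact toF_toQ i

theorem map_toQ_toF (w : List Q) : (w.map toF).map toQ = w := by
  rw [List.map_map]
  conv_rhs => rw [← List.map_id w]
  congr 1
  funext i; exact toQ_toF i

theorem cQ_length {a b c d : ℕ} {w : List Q} (h : cQ a b c d w) :
    w.length = a + b + c + d := by
  obtain ⟨h0, h1, h2, h3⟩ := h
  subst h0 h1 h2 h3
  induction w with
  | nil => rfl
  | cons q w ih =>
    rw [List.length_cons, ih]
    cases q <;> simp <;> ring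

/-- word list over `Fin 4`. -/
theorem mem_words (α : Fin 4 → ℕ) (w : List (Fin 4)) (h : cont w = α) :
    w ∈ (wrd (α 0 + α 1 + α 2 + α 3) (α 0) (α 1) (α 2) (α 3)).map (List.map toF) := by
  have h1 := cQ_of_cont h
  refine List.mem_map.2 ⟨w.map toQ, ?_, map_toF_toQ w⟩
  rw [← cQ_length h1]
  exact mem_wrd _ _ _ _ _ h1.1 h1.2.1 h1.2.2.1 h1.2.2.2

theorem map_flatten_append (ws : List (List (Fin 4))) (w₀ : List (Fin 4)) :
    (ws.flatten ++ w₀).map toQ = (ws.map (List.map toQ)).flatten ++ w₀.map toQ := by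
  rw [List.map_append, List.map_flatten]

variable (K : Type*) [Field K] [CharZero K]

theorem upperQ (k : ℕ) (α : Fin 4 → ℕ) (N B C m : ℕ) (t : Tr) (nw : List (List Q))
    (hN : (wrd (α 0 + α 1 + α 2 + α 3) (α 0) (α 1) (α 2) (α 3)).length = N)
    (hB : 0 < B) (hC : 0 < C) (hCB : 2 ^ (k + 1) * C ≤ B)
    (h1 : t.all (digOK B C m) = true)
    (h2 : chkR B m t (α 0) (α 1) (α 2) (α 3) nw = true)
    (h3 : chkU (k + 1) t (wrd (α 0 + α 1 + α 2 + α 3) (α 0) (α 1) (α 2) (α 3)) = true) :
    finrank K (lc K (k + 1) ⊓ wt K α : Submodule K (FreeAlgebra K (Fin 4))) + m ≤ N := by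
  have h4 := upper K k α (mem_words α) m
    (fun w j => ((dig B j (lk t (w.map toQ)) : ℕ) : ℤ)) ?_
    (fun i => (nw.getD i []).map toF) ?_ ?_
  · rwa [List.length_map, hN] at h4
  · intro ws w₀ hk hne h0 hc j _
    have hd : ∀ w j, dig B j (lk t w) < C := fun w j =>
      digOK_sound hB hC (lk_all (p := digOK B C m) (by
        simp only [digOK, Bool.and_eq_true, List.all_eq_true, List.mem_range, Nat.blt_eq]
        refine ⟨Nat.pow_pos hB, fun j _ => ?_⟩
        simpa using hC) w t h1) j
    have h5 : spl (k + 1) (fun ws w₀ => Nat.beq (pn (lk t) true ws w₀) (pn (lk t) false ws w₀))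
        ((ws.map (List.map toQ)).flatten ++ w₀.map toQ) = true := by
      rw [chkU, List.all_eq_true] at h3
      apply h3
      rw [← map_flatten_append]
      have h6 := cQ_of_cont hc
      rw [← cQ_length h6]
      exact mem_wrd _ _ _ _ _ h6.1 h6.2.1 h6.2.2.1 h6.2.2.2
    have h7 := spl_sound (k + 1) _ (ws.map (List.map toQ)) (w₀.map toQ)
      (by rw [List.length_map, hk]) (by
        intro v hv
        obtain ⟨v', hv', rfl⟩ := List.mem_map.1 hv
        simpa using hne v' hv') (by simpa using h0) h5
    have h8 := evnc_dig_eq_zero (B := B) (ws.map (List.map toQ)) (w₀.map toQ) hC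
      (by rw [List.length_map, hk]; exact hCB) (lk t) hd (Nat.eq_of_beq_eq_true h7) j
    rw [← h8]
    exact evnc_comp toQ (fun w => ((dig B j (lk t w) : ℕ) : ℤ)) ws w₀
  · intro i hi
    exact cont_of_cQ ((chkR_sound h2).2 i hi).1
  · intro i hi j hj
    have h5 := ((chkR_sound h2).2 i hi).2 j hj
    simp only [map_toQ_toF]
    have h6 : ((dig B j (lk t (nw.getD i [])) : ℕ) : ZMod 2)
        = ((dig B j (lk t (nw.getD i [])) % 2 : ℕ) : ZMod 2) := by
      rw [ZMod.natCast_mod]
    rw [Int.cast_natCast, h6, h5]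
    split_ifs <;> simp

theorem lowerQ (k : ℕ) (α : Fin 4 → ℕ) (t : Tr) (gs : List (List (List Q) × List Q))
    (h : chkL k t (α 0) (α 1) (α 2) (α 3) gs = true) :
    gs.length ≤ finrank K (lc K k ⊓ wt K α : Submodule K (FreeAlgebra K (Fin 4))) := by
  have h1 := chkL_sound h
  refine lower K k α (mem_words α) gs.length
    (fun w j => if (lk t (w.map toQ)).testBit j then 1 else 0)
    (fun i => (gs.getD i ([], [])).1.map (List.map toF))
    (fun i => (gs.getD i ([], [])).2.map toF) ?_ ?_ ?_
  · intro i hi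
    rw [List.length_map]
    exact (h1 i hi).1
  · intro i hi
    have := (h1 i hi).2.1
    rw [← cont_of_cQ this, List.map_append, List.map_flatten]
  · intro i hi j hj
    have h2 := (h1 i hi).2.2
    set ws := (gs.getD i ([], [])).1 with hws
    set w₀ := (gs.getD i ([], [])).2 with hw₀
    have h3 : ((evnc (fun w => if (lk t (w.map toQ)).testBit j then (1 : ℤ) else 0)
        (ws.map (List.map toF)) (w₀.map toF) : ℤ) : ZMod 2)
        = evnc (fun w => b2 ((lk t (w.map toQ)).testBit j)) (ws.map (List.map toF))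
          (w₀.map toF) := by
      have := evnc_map (Int.castAddHom (ZMod 2))
        (fun w => if (lk t (w.map toQ)).testBit j then (1 : ℤ) else 0)
        (ws.map (List.map toF)) (w₀.map toF)
      rw [Int.coe_castAddHom] at this
      refine Eq.trans this.symm ?_
      congr 1
      funext w
      rw [b2]
      split_ifs <;> simp
    rw [h3]
    have h4 := evnc_comp toQ (fun w => b2 ((lk t w).testBit j)) (ws.map (List.map toF))
      (w₀.map toF)
    rw [h4, map_toQ_toF]
    have h5 : (ws.map (List.map toF)).map (List.map toQ) = ws := by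
      rw [List.map_map]
      conv_rhs => rw [← List.map_id ws]
      congr 1
      funext w; exact map_toQ_toF w
    rw [h5, evnc_b2, h2, Nat.testBit_two_pow]
    by_cases hij : i = j
    · subst hij; simp [b2]
    · simp [b2, hij]

end H957R3.LCS
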