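import Mathlib
import Pool.Agent.H957R3.LC

/-! Certificates for the small weights. -/

namespace H957R3.LCS

open Module

/-- trie -/
def tU22 : Tr :=
(.node (.node (.node .nil (.node .nil (.leaf 0x3002084) .nil .nil) .nil .nil)
 (.node (.node .nil (.leaf 0x2082083) .nil .nil) (.node (.leaf 0x20820c2) .nil .nil .nil) .nil .nil)
 .nil .nil)
 (.node (.node (.node .nil (.leaf 0x2083082) .nil .nil) (.node (.leaf 0x20c2082) .nil .nil .nil) .nil .nil)
 (.node (.node (.leaf 0x3082082) .nil .nil .nil) .nil .nil .nil)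
 .nil .nil)
 .nil .nil)


/-- normal words -/
def nU22 : List (List Q) :=
[[.a, .b, .a, .b],
[.a, .b, .b, .a],
[.b, .a, .a, .b],
[.b, .a, .b, .a],
[.b, .b, .a, .a]]

-- N=6 B=64 C=5 m=5
/-- trie -/
def tU311 : Tr :=
(.node (.node (.node (.node .nil (.node .nil .nil (.leaf 0x100110070b040d04100d) .nil) (.node .nil (.leaf 0xe0110070d040d07100a) .nil .nil) .nil)
 (.node (.node .nil .nil (.leaf 0xe0310070b050d060e0c) .nil) .nil (.node (.leaf 0xc070c090a080b080c0c) .nil .nil .nil) .nil)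
 (.node (.node .nil (.leaf 0xc060c090b080b080e0a) .nil .nil) (.node (.leaf 0xb070c090b080b0a0c0a) .nil .nil .nil) .nil .nil)
 .nil)
 (.node (.node (.node .nil .nil (.leaf 0xc060e080b060d080c0b) .nil) .nil (.node (.leaf 0xb080c090a090b090b0b) .nil .nil .nil) .nil)
 .nil (.node (.node (.leaf 0xa0a0a0a0a0a0a0a0a0b) .nil .nil .nil) .nil .nil .nil)
 .nil)
 (.node (.node (.node .nil (.leaf 0xb080b0a0a0a0a090c0a) .nil .nil) (.node (.leaf 0xa0a0a0a0a0a0a0a0b0a) .nil .nil .nil) .nil .nil)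
 (.node (.node (.leaf 0xa0a0a0a0a0a0a0b0a0a) .nil .nil .nil) .nil .nil .nil)
 .nil .nil)
 .nil)
 (.node (.node (.node (.node .nil .nil (.leaf 0xb070d090b070d0a0a0a) .nil) .nil (.node (.leaf 0xa0a0a0a0a0a0b0a0a0a) .nil .nil .nil) .nil)
 .nil (.node (.node (.leaf 0xa0a0a0a0a0b0a0a0a0a) .nil .nil .nil) .nil .nil .nil)
 .nil)
 .nil (.node (.node (.node (.leaf 0xa0a0a0a0b0a0a0a0a0a) .nil .nil .nil) .nil .nil .nil)
 .nil .nil .nil)
 .nil)
 (.node (.node (.node (.node .nil (.leaf 0xa0a0a0b0a0a0a0a0a0a) .nil .nil) (.node (.leaf 0xa0a0b0a0a0a0a0a0a0a) .nil .nil .nil) .nil .nil)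
 (.node (.node (.leaf 0xa0b0a0a0a0a0a0a0a0a) .nil .nil .nil) .nil .nil .nil)
 .nil .nil)
 (.node (.node (.node (.leaf 0xb0a0a0a0a0a0a0a0a0a) .nil .nil .nil) .nil .nil .nil)
 .nil .nil .nil)
 .nil .nil)
 .nil)


/-- normal words -/
def nU311 : List (List Q) :=
[[.a, .b, .c, .a, .a],
[.a, .c, .a, .b, .a],
[.a, .c, .b, .a, .a],
[.b, .a, .a, .c, .a],
[.b, .a, .c, .a, .a],
[.b, .c, .a, .a, .a],
[.c, .a, .a, .a, .b],
[.c, .a, .a, .b, .a],
[.c, .a, .b, .a, .a],
[.c, .b, .a, .a, .a]]

-- N=20 B=256 C=17 m=10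
/-- trie -/
def tU32 : Tr :=
(.node (.node (.node (.node .nil (.node .nil (.leaf 0x5830240807800240f) .nil .nil) .nil .nil)
 (.node (.node .nil (.leaf 0x602c1e0a068201e0d) .nil .nil) (.node (.leaf 0x6030180c06030180d) .nil .nil .nil) .nil .nil)
 .nil .nil)
 (.node (.node (.node .nil (.leaf 0x6030180c060301a0c) .nil .nil) (.node (.leaf 0x6030180c06034180c) .nil .nil .nil) .nil .nil)
 (.node (.node (.leaf 0x6030180c06830180c) .nil .nil .nil) .nil .nil .nil)
 .nil .nil)
 .nil .nil)
 (.node (.node (.node (.node .nil (.leaf 0x6030180d06030180c) .nil .nil) (.node (.leaf 0x60301a0c06030180c) .nil .nil .nil) .nil .nil)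
 (.node (.node (.leaf 0x6034180c06030180c) .nil .nil .nil) .nil .nil .nil)
 .nil .nil)
 (.node (.node (.node (.leaf 0x6830180c06030180c) .nil .nil .nil) .nil .nil .nil)
 .nil .nil .nil)
 .nil .nil)
 .nil .nil)


/-- normal words -/
def nU32 : List (List Q) :=
[[.a, .a, .b, .b, .a],
[.a, .b, .a, .a, .b],
[.a, .b, .a, .b, .a],
[.a, .b, .b, .a, .a],
[.b, .a, .a, .a, .b],
[.b, .a, .a, .b, .a],
[.b, .a, .b, .a, .a],
[.b, .b, .a, .a, .a]]

-- N=10 B=512 C=19 m=8
/-- trie -/
def tU221 : Tr :=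
(.node (.node (.node .nil (.node .nil (.node .nil .nil (.leaf 0x30406040403040404040603080000040406060006000806) .nil) (.node .nil (.leaf 0x40405040403030405040603060002040505040206040604) .nil .nil) .nil)
 (.node .nil (.node .nil (.leaf 0x40404040403040406030603040004040604040406040404) .nil .nil) .nil .nil)
 .nil)
 (.node (.node .nil (.node .nil .nil (.leaf 0x40305040503040404040503060202050405050205020605) .nil) (.node .nil (.leaf 0x40404040503040305040503050203050504040305040504) .nil .nil) .nil)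
 (.node (.node .nil .nil (.leaf 0x40404030603040404040503040402060404050205040405) .nil) .nil (.node (.leaf 0x40404040404040404040404040404040404040404040405) .nil .nil .nil) .nil)
 (.node (.node .nil (.leaf 0x40404040404040404040404040404040404040404040504) .nil .nil) (.node (.leaf 0x40404040404040404040404040404040404040404050404) .nil .nil .nil) .nil .nil)
 .nil)
 (.node (.node .nil (.node .nil (.leaf 0x40404040404040404040404040404040404040405040404) .nil .nil) .nil .nil)
 (.node (.node .nil (.leaf 0x40404040404040404040404040404040404040504040404) .nil .nil) (.node (.leaf 0x40404040404040404040404040404040404050404040404) .nil .nil .nil) .nil .nil)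
 .nil .nil)
 .nil)
 (.node (.node (.node .nil (.node .nil .nil (.leaf 0x40404040404040404040404040404040405040404040404) .nil) (.node .nil (.leaf 0x40404040404040404040404040404040504040404040404) .nil .nil) .nil)
 (.node (.node .nil .nil (.leaf 0x40404040404040404040404040404050404040404040404) .nil) .nil (.node (.leaf 0x40404040404040404040404040405040404040404040404) .nil .nil .nil) .nil)
 (.node (.node .nil (.leaf 0x40404040404040404040404040504040404040404040404) .nil .nil) (.node (.leaf 0x40404040404040404040404050404040404040404040404) .nil .nil .nil) .nil .nil)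
 .nil)
 (.node (.node (.node .nil .nil (.leaf 0x40404040404040404040405040404040404040404040404) .nil) .nil (.node (.leaf 0x40404040404040404040504040404040404040404040404) .nil .nil .nil) .nil)
 .nil (.node (.node (.leaf 0x40404040404040404050404040404040404040404040404) .nil .nil .nil) .nil .nil .nil)
 .nil)
 (.node (.node (.node .nil (.leaf 0x40404040404040405040404040404040404040404040404) .nil .nil) (.node (.leaf 0x40404040404040504040404040404040404040404040404) .nil .nil .nil) .nil .nil)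
 (.node (.node (.leaf 0x40404040404050404040404040404040404040404040404) .nil .nil .nil) .nil .nil .nil)
 .nil .nil)
 .nil)
 (.node (.node (.node .nil (.node .nil (.leaf 0x40404040405040404040404040404040404040404040404) .nil .nil) .nil .nil)
 (.node (.node .nil (.leaf 0x40404040504040404040404040404040404040404040404) .nil .nil) (.node (.leaf 0x40404050404040404040404040404040404040404040404) .nil .nil .nil) .nil .nil)
 .nil .nil)
 (.node (.node (.node .nil (.leaf 0x40405040404040404040404040404040404040404040404) .nil .nil) (.node (.leaf 0x40504040404040404040404040404040404040404040404) .nil .nil .nil) .nil .nil)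
 (.node (.node (.leaf 0x50404040404040404040404040404040404040404040404) .nil .nil .nil) .nil .nil .nil)
 .nil .nil)
 .nil .nil)
 .nil)


/-- normal words -/
def nU221 : List (List Q) :=
[[.a, .b, .b, .c, .a],
[.a, .b, .c, .a, .b],
[.a, .b, .c, .b, .a],
[.a, .c, .a, .b, .b],
[.a, .c, .b, .a, .b],
[.a, .c, .b, .b, .a],
[.b, .a, .a, .b, .c],
[.b, .a, .a, .c, .b],
[.b, .a, .b, .a, .c],
[.b, .a, .b, .c, .a],
[.b, .a, .c, .a, .b],
[.b, .a, .c, .b, .a],
[.b, .b, .a, .a, .c],
[.b, .b, .a, .c, .a],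
[.b, .b, .c, .a, .a],
[.b, .c, .a, .a, .b],
[.b, .c, .a, .b, .a],
[.b, .c, .b, .a, .a],
[.c, .a, .a, .b, .b],
[.c, .a, .b, .a, .b],
[.c, .a, .b, .b, .a],
[.c, .b, .a, .a, .b],
[.c, .b, .a, .b, .a],
[.c, .b, .b, .a, .a]]

-- N=30 B=256 C=9 m=24
/-- trie -/
def tL32 : Tr :=
(.node (.node (.node (.node .nil (.node .nil (.leaf 0x17) .nil .nil) .nil .nil)
 (.node (.node .nil (.leaf 0x15) .nil .nil) (.node (.leaf 0x16) .nil .nil .nil) .nil .nil)
 .nil .nil)
 (.node (.node (.node .nil (.leaf 0x12) .nil .nil) .nil .nil .nil)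
 .nil .nil .nil)
 .nil .nil)
 (.node (.node (.node (.node .nil (.leaf 0xf) .nil .nil) .nil .nil .nil)
 .nil .nil .nil)
 .nil .nil .nil)
 .nil .nil)


/-- generators -/
def gL32 : List (List (List Q) × List Q) :=
[([[.a], [.a], [.a]], [.b, .b]),
([[.a], [.a], [.a, .b]], [.b]),
([[.a], [.a, .b], [.a]], [.b]),
([[.a, .b], [.a], [.a]], [.b]),
([[.b], [.a], [.a, .a]], [.b])]

/-- trie -/
def tL311 : Tr :=
(.node (.node (.node (.node .nil (.node .nil .nil (.leaf 0x5) .nil) (.node .nil (.leaf 0x4) .nil .nil) .nil)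
 (.node (.node .nil .nil (.leaf 0xa) .nil) .nil .nil .nil)
 (.node (.node .nil (.leaf 0xc) .nil .nil) .nil .nil .nil)
 .nil)
 .nil .nil .nil)
 .nil .nil .nil)


/-- generators -/
def gL311 : List (List (List Q) × List Q) :=
[([[.a], [.a], [.a], [.b]], [.c]),
([[.a], [.a], [.b], [.a]], [.c]),
([[.a], [.b], [.a], [.a]], [.c]),
([[.b], [.a], [.a], [.a]], [.c])]

/-- trie -/
def tL221 : Tr :=
(.node (.node (.node .nil (.node .nil (.node .nil .nil (.leaf 0x8002) .nil) (.node .nil (.leaf 0x8003) .nil .nil) .nil)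
 (.node .nil (.node .nil (.leaf 0x8000) .nil .nil) .nil .nil)
 .nil)
 (.node (.node .nil (.node .nil .nil (.leaf 0xf80e) .nil) (.node .nil (.leaf 0x81e0) .nil .nil) .nil)
 (.node (.node .nil .nil (.leaf 0xf4f8) .nil) .nil (.node (.leaf 0x8298) .nil .nil .nil) .nil)
 (.node (.node .nil (.leaf 0xf72b) .nil .nil) (.node (.leaf 0xdb6) .nil .nil .nil) .nil .nil)
 .nil)
 (.node (.node .nil (.node .nil (.leaf 0x8280) .nil .nil) .nil .nil)
 (.node (.node .nil (.leaf 0x7800) .nil .nil) (.node (.leaf 0x7478) .nil .nil .nil) .nil .nil)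
 .nil .nil)
 .nil)
 (.node (.node (.node .nil (.node .nil .nil (.leaf 0xfda8) .nil) (.node .nil (.leaf 0x9400) .nil .nil) .nil)
 (.node (.node .nil .nil (.leaf 0xcde0) .nil) .nil .nil .nil)
 .nil .nil)
 .nil (.node (.node (.node .nil (.leaf 0x79ab) .nil .nil) .nil .nil .nil)
 .nil .nil .nil)
 .nil)
 .nil .nil)


/-- generators -/
def gL221 : List (List (List Q) × List Q) :=
[([[.a], [.a], [.b]], [.b, .c]),
([[.a], [.a], [.b, .b]], [.c]),
([[.a], [.a, .b], [.b]], [.c]),
([[.a], [.b], [.a]], [.b, .c]),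
([[.a], [.b], [.a, .b]], [.c]),
([[.a], [.b, .a], [.b]], [.c]),
([[.a, .b], [.a], [.b]], [.c]),
([[.a], [.b], [.a, .c]], [.b]),
([[.a, .b], [.b], [.a]], [.c]),
([[.a, .c], [.b], [.a]], [.b]),
([[.b], [.a], [.a]], [.b, .c]),
([[.b], [.a], [.a, .b]], [.c]),
([[.b], [.a, .a], [.b]], [.c]),
([[.b], [.a], [.a, .c]], [.b]),
([[.b], [.a, .b], [.a]], [.c]),
([[.b], [.b], [.a, .a]], [.c])]

variable (K : Type*) [Field K] [CharZero K]

theorem U22 : finrank K (lc K 3 ⊓ wt K ![2, 2, 0, 0] : Submodule K (FreeAlgebra K (Fin 4))) + 5 ≤ 6 :=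
  upperQ K 2 ![2, 2, 0, 0] 6 64 5 5 tU22 nU22 (by decide +kernel) (by norm_num) (by norm_num)
    (by norm_num) (by decide +kernel) (by decide +kernel) (by decide +kernel)

theorem U311 : finrank K (lc K 3 ⊓ wt K ![3, 1, 1, 0] : Submodule K (FreeAlgebra K (Fin 4))) + 10 ≤ 20 :=
  upperQ K 2 ![3, 1, 1, 0] 20 256 17 10 tU311 nU311 (by decide +kernel) (by norm_num) (by norm_num)
    (by norm_num) (by decide +kernel) (by decide +kernel) (by decide +kernel)

theorem U32 : finrank K (lc K 4 ⊓ wt K ![3, 2, 0, 0] : Submodule K (FreeAlgebra K (Fin 4))) + 8 ≤ 10 :=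
  upperQ K 3 ![3, 2, 0, 0] 10 512 19 8 tU32 nU32 (by decide +kernel) (by norm_num) (by norm_num)
    (by norm_num) (by decide +kernel) (by decide +kernel) (by decide +kernel)

theorem U221 : finrank K (lc K 4 ⊓ wt K ![2, 2, 1, 0] : Submodule K (FreeAlgebra K (Fin 4))) + 24 ≤ 30 :=
  upperQ K 3 ![2, 2, 1, 0] 30 256 9 24 tU221 nU221 (by decide +kernel) (by norm_num) (by norm_num)
    (by norm_num) (by decide +kernel) (by decide +kernel) (by decide +kernel)

theorem L32 : 5 ≤ finrank K (lc K 3 ⊓ wt K ![3, 2, 0, 0] : Submodule K (FreeAlgebra K (Fin 4))) :=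
  lowerQ K 3 ![3, 2, 0, 0] tL32 gL32 (by decide +kernel)

theorem L311 : 4 ≤ finrank K (lc K 4 ⊓ wt K ![3, 1, 1, 0] : Submodule K (FreeAlgebra K (Fin 4))) :=
  lowerQ K 4 ![3, 1, 1, 0] tL311 gL311 (by decide +kernel)

theorem L221 : 16 ≤ finrank K (lc K 3 ⊓ wt K ![2, 2, 1, 0] : Submodule K (FreeAlgebra K (Fin 4))) :=
  lowerQ K 3 ![2, 2, 1, 0] tL221 gL221 (by decide +kernel)

end H957R3.LCS
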