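import Mathlib
import Pool.Agent.H957R3.LC

/-! Lower bound for the weight (3,2,1,1) of L_5. -/

namespace H957R3.LCS

open Module

set_option maxRecDepth 100000

/-- trie -/
def tL3211 : Tr :=
(.node (.node (.node (.node .nil (.node .nil (.node .nil .nil (.node .nil .nil .nil (.leaf 0x7c4d229fa03f810000c3662005e50ba4ab15e59bdafc108590187d788d258370453c4)) (.node .nil .nil (.leaf 0x7c4d229fa033810000c3662005e509a7ad11de83fbb1346cb659d6e8473d227b4dfa4) .nil))
 (.node .nil (.node .nil .nil .nil (.leaf 0xc8c39c51a850f16e143fdc6422f0e211a23c80d2f06584f649206853bc001a5ab12e0a0e)) .nil (.node .nil (.leaf 0x1f09dd84b45a6c1a290828c4925fd3cf3b8f502bcb90d91592f4a0178784a8d16abd2c6c6) .nil .nil))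
 (.node .nil (.node .nil .nil (.leaf 0x15a19c909c5efc0d8949048c9259c1473f091f1b4cccd0a8b4fd86b29018c75473d68fce5) .nil) (.node .nil (.leaf 0x805c418c0e1233ec91af986c02436a49c33e010d45b20fbf01614ce709080f5f9970d5ed) .nil .nil) .nil)
)
 (.node .nil (.node .nil (.node .nil .nil .nil (.leaf 0x201ab84d02657617a10260c340028fe6122dcd0957d7fefa3019a2ddf7ed8d1df028005c3)) .nil (.node .nil (.leaf 0x2ad850ce2c4f378696d9c8dada1cde030f9b224ad953dd0e4e514b50b88644db016002cd) .nil .nil))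
 .nil (.node .nil (.node .nil (.leaf 0x201afc3da0b69ee7410260c02da0c00036805008c99288d280a3140a2564cc01800845140) .nil .nil) .nil .nil)
)
 (.node .nil (.node .nil (.node .nil .nil (.leaf 0x383d804c48c3610000c00b824a032d0a301040c68d9984d6008e04610621524b08b27) .nil) (.node .nil (.leaf 0x2c96b9b5928d71932177d486642c22088d482810c6853fbae2a78208a4c801a4598b069e9) .nil .nil) .nil)
 (.node .nil (.node .nil (.leaf 0x201afc3da0b69eeb410260c02da0c0003483560cf28aa99fa44a324b8ef4061921034d920) .nil .nil) .nil .nil)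
 .nil)
)
 (.node (.node .nil (.node .nil .nil (.node .nil .nil .nil (.leaf 0x3a5b74818fd731eb292c2c02c2b5ad40824455220bd23d70e09d363ae1254c38f260cd108)) (.node .nil .nil (.leaf 0xfe4f51582ad2a170153f89649ae2ca83768fc2946925f26b66db083d28cce0c8461cc8e1) .nil))
 (.node .nil (.node .nil .nil .nil (.leaf 0xd292989fbb298c1e93c9540b6cdd18a38dac701ced52fadb44b1673720c6a806b59ad044)) .nil (.node .nil (.leaf 0x1888c508dafae926c175910036b4562b211cb31f358e6368b4a436a7db18c3280856cdacd) .nil .nil))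
 (.node .nil (.node .nil .nil (.leaf 0x1a451994a3e55bf0291afcd6c9d7e80a2eefec27bcc5d343b6ee3640f8a0ec80256d84369) .nil) (.node .nil (.leaf 0x2d37449cd780f2dae90a4594bdafd7c2947158047a4283eed274b01deea143b5bd57c0125) .nil .nil) .nil)
)
 (.node (.node .nil .nil (.node .nil .nil .nil (.leaf 0x201be801e372e1c2896d2545b4c000ed38d7a0118c90415d80453269120d2715631365005)) (.node .nil .nil (.leaf 0x701dba97a53ec10000936da005e52ee4bf15b5839ff890be2659ff2ccf85853041767) .nil))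
 .nil (.node (.node .nil .nil .nil (.leaf 0x8700d4f087baca034b08026228f2c3bb71d0092a533dd60cc929c800ccc14505321006)) .nil .nil (.node (.leaf 0x201b980c49e554fd086d25d6d960050812301900424bdaa8341232714631229883282c902) .nil .nil .nil))
 (.node (.node .nil .nil (.leaf 0x2013981cbc7a8a6f695995c592e28fc10f09ff1575a8f660d0a820b4fd356888d64840f62) .nil) .nil (.node (.leaf 0x10100010014000000000000000040000004040454c0020000000400020c600006a0) .nil .nil .nil) .nil)
)
 (.node (.node .nil (.node .nil .nil .nil (.leaf 0x2d3ab18557c802afc0650085242f1d4833917c04fa2c5d78706a1090ac39832dbb19e5986)) .nil (.node .nil (.leaf 0x2d3f448c221f2c48883ef587f62d5d0b8122fa115d642fcb220604d89185c88c0a37acc85) .nil .nil))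
 (.node (.node .nil .nil .nil (.leaf 0x377a2d053b6dd286602409c2525ab0e4892389276d2e2195109214c25d11e801984a4d8c9)) .nil .nil (.node (.leaf 0x2cddc8c691fa2d7a86f6dd6ff63fd2303fa7938cb1ff663322726b1c7b026294830657c4) .nil .nil .nil))
 .nil (.node (.node .nil (.leaf 0x1888b505706d5c19407591935b1453ce0bfb0a0efb55f89d00f336bf8f2486a5fa6d843c9) .nil .nil) (.node (.leaf 0x2c829851cc88c30e03498d42d61fe63b148ff3d6c5784f8600b32ec7c0ced88f91e2c2c7) .nil .nil .nil) .nil .nil)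
)
 (.node (.node .nil (.node .nil .nil (.leaf 0x3a56f195a50874a1814369803695212c0768e8276c2b3a96e27096b8389d020dd61689a2c) .nil) (.node .nil (.leaf 0x1880b51585f2828b214121801096d90716c2ec1bccb6d455e449247a3420c6b5bd0ee85aa) .nil .nil) .nil)
 (.node (.node .nil .nil (.leaf 0x35b2749d9d32fb8841109185129b0860168fef0fb77a78e5d06ba622f91d4ba9c7450c6a9) .nil) .nil (.node (.leaf 0x5f51965d73ee6085bf502d2024043be9aa015f55c34136261320b5fb48221542565b63) .nil .nil .nil) .nil)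
 (.node (.node .nil (.leaf 0x2d3734917d1747e5680a4507d00fd227be95e7118f81595a42ea964411c98c38ee6781860) .nil .nil) (.node (.leaf 0x22d3b199452dc8cca859bd02f401fb6aa73aa22957c8d88d40d026df973947999e3d04524) .nil .nil .nil) .nil .nil)
 .nil)
)
 (.node (.node .nil (.node .nil (.node .nil .nil .nil (.leaf 0x8700d4f087baca034b08026228f2c339e3b0080f1303150e1b49f62448d34015b09a85)) .nil (.node .nil (.leaf 0xd85043adf554be86f4582f420cf6f89049b1535ed416e32a086d4bdb00f55937e64746) .nil .nil))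
 .nil (.node .nil (.node .nil (.leaf 0x8700d4f087baca034b08026228f2c3bb71d0092a533dd60cc929c800d4c14505321006) .nil .nil) .nil .nil)
)
 (.node (.node .nil (.node .nil .nil .nil (.leaf 0x1a48ec8d23adab850075b9c750572280896f8a272e678fc524f096cebc286610322021bc9)) .nil (.node .nil (.leaf 0x1a4d1984567a8562482e4cc5825562c333b66e36a2ef3d83525882864c98ec99c28ec044a) .nil .nil))
 (.node (.node .nil .nil .nil (.leaf 0x8700d4f087baca034b08026228f2c33bd3d04aba971387408929f4b104f9c621305044)) .nil .nil (.node (.leaf 0x201b980c49e554fd086d25d6d960050812507d046b8218a0341e9433eb0de031232801842) .nil .nil .nil))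
 .nil (.node (.node .nil (.leaf 0x3a5ef1855097aa33e077d9937d17abe51a316a367201d45606c6227f0ea58ab42376cbd0c) .nil .nil) (.node (.leaf 0x201e6d053c327a1a4036d0d40b620648a8889901df8fa80642f6802f37b9e395710565d81) .nil .nil .nil) .nil .nil)
)
 .nil (.node (.node .nil (.node .nil (.leaf 0x201b980c49e554fd086d25d6d960050812301900424bdaa8341232714631229885282c902) .nil .nil) .nil .nil)
 (.node (.node .nil (.leaf 0x3a5b048c254084d4a82c2c91af15a8a5a883ec33d549a6cd54ea3622b51949b5805b84805) .nil .nil) (.node (.leaf 0x201b980c49e554fd086d25d6d960050812101900520bdae0343232714631629813282c902) .nil .nil .nil) .nil .nil)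
 .nil .nil)
)
 (.node (.node .nil (.node .nil (.node .nil .nil (.leaf 0x2013981cbc7a8a6f695995c592e28fc10f699b115c613468d0a486b7f009a281644b68e21) .nil) (.node .nil (.leaf 0x2c5dc9c9c807c45c95bddc5b4e177ea1ea3fb29d53518a3d6919276f188a630a553210e7) .nil .nil) .nil)
 (.node .nil (.node .nil (.leaf 0x2013981cbc7a8a6f695995c592e28fc10f09ff1575a8f660d0a820b4fd356e88d64840f62) .nil .nil) .nil .nil)
 .nil)
 (.node (.node .nil (.node .nil .nil (.leaf 0x2ff71d1484400546a90a6dc0b6eca68d16849a3dbdbc762ec677106f5bbde9096619fd926) .nil) (.node .nil (.leaf 0xd215994a4baf36c090825c090ef5ea60f44fc010e645ad0e48aa2ec3008e594ac06a4c61) .nil .nil) .nil)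
 (.node (.node .nil .nil (.leaf 0x2013981cbc7a8a6f695995c592e28fc10f499b114c213420d08486f65009ea01a44a6cc20) .nil) .nil (.node (.leaf 0x101000100140000000000000000c292600521446a0300d264260084980c70b2ce24) .nil .nil .nil) .nil)
 (.node (.node .nil (.leaf 0x2d32c19808c069022051b005020d9264040f47043a9d280520aba44f4e3d06b92c41e87b0) .nil .nil) (.node (.leaf 0x22d6449030fae62be00248002603bb291de34638db406acb3678329665894d300e13650a6) .nil .nil .nil) .nil .nil)
 .nil)
 (.node (.node .nil (.node .nil (.leaf 0x10100010014000000000000000040000004040454c0020000000400000820000480) .nil .nil) .nil .nil)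
 (.node (.node .nil (.leaf 0xfe48518283a9f288053f805240e294d1daf45389809c49b021ab09b86b0cb81b65a851ec) .nil .nil) (.node (.leaf 0x10100010014000000000000000042306046b18044524c92641ab14ca28b70b08ce0) .nil .nil .nil) .nil .nil)
 .nil .nil)
 .nil)
)
 (.node (.node (.node .nil (.node .nil .nil (.node .nil .nil .nil (.leaf 0xcc7dc1281bd19ec1419dfd1580144c0b8d891c207a52e45022168a7858abb593e945e41)) (.node .nil .nil (.leaf 0x3d1655d4010853028167dc3e787fd9c7ad8d9a2943319f426432907aa5690090b0d24452d) .nil))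
 (.node .nil (.node .nil .nil .nil (.leaf 0x37be20c55cdb4be44126f1ca7ff9824911354436e41edce2524c16edfef126848a83ecb4b)) .nil (.node .nil (.leaf 0x221fe009d21efec0a96ff40092c0cae71b906e12d9a5995ef6fe2026a505cef49b3449ec5) .nil .nil))
 (.node .nil (.node .nil .nil (.leaf 0x28b7a11dfa1a6ed7092ed84892c6d86f1f1621225ef99ce3d0f70683b299a171825fea4fe) .nil) (.node .nil (.leaf 0x3513d99096a548d6897d24c7d9fbe08386c6221738948ee5b05334c8cc2565cd58070522a) .nil .nil) .nil)
)
 (.node (.node .nil .nil (.node .nil .nil .nil (.leaf 0x16870c9dd05205ec026809447a2212d0bb0c678f4615154c00ece0bef05a1bc522284e88)) (.node .nil .nil (.leaf 0x1e00e0d1b55238fdc000e98721fd42ee1de0ab4179978f02d2614e9c78852b06f718c5ea5) .nil))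
 .nil (.node (.node .nil .nil .nil (.leaf 0xc18444be5b8018086f60bc86c13a8988afb62c6703a5b76449082722a130386af8c940e)) .nil .nil (.node (.leaf 0x3c7f5140c2e4350c68188ccceb3ed34d00b5b61e8ea9fd6821d584e3a67643a5d991ce04e) .nil .nil .nil))
 (.node (.node .nil .nil (.leaf 0x8a531f1e79fe4f0282eb849bf86510bbe3dfe25b5970e70c3b3e230a1637a0b6561ae2e3) .nil) .nil (.node (.leaf 0x21bfe1c18036b7a068081c59f9a11e0a2aac21226b5692b863ee04522d4e60865d9882426) .nil .nil .nil) .nil)
)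
 (.node (.node .nil (.node .nil .nil .nil (.leaf 0x2df369cd88171189c80a6053dd6c67c50ba8ad069545a9ae160cd21c5da1952c604181cc8)) .nil (.node .nil (.leaf 0x1ae13d05713fd293e82c9856dc56a7c203f1ce1b69156190f66a7c325504f664d0dc0118f) .nil .nil))
 (.node (.node .nil .nil .nil (.leaf 0x2c5770c53c7acee9092c701c9ccf7d6583cf026388506403840e38e2edcc773dd39849bc5)) .nil .nil (.node (.leaf 0x1464b549d83fdef1a04104817259e3801171983585282b4801b22257d355cc29e25a4530c) .nil .nil .nil))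
 .nil (.node (.node .nil (.leaf 0x39374c04ff086a6ee94bac9a9df467c020d2c30a51cff5c163ddf0ec4572e74d04bd2e485) .nil .nil) (.node (.leaf 0x12455084743efbe7882ef8c285d2b54f13d199606f1e3ac2d1868e72a8b0cd0d21f7a2245) .nil .nil .nil) .nil .nil)
)
 (.node (.node .nil (.node .nil .nil (.leaf 0x3e126819e91f87b5413651b3787d874d9f38381b3f901eda9104804593e45a43a7ad83ae9) .nil) (.node .nil (.leaf 0x721911097611c52a97fd9f1976808a53c21c1278c503a62b1df220408fb767a9f4603a29) .nil .nil) .nil)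
 (.node (.node .nil .nil (.leaf 0x1d04e91dde81fc6f0165bcac269d56462f5d2a5f6d9c3408e79af82f82528b2a25fc0696d) .nil) .nil (.node (.leaf 0x21ba00903c29ad84806531572a239e869ecbff0ab6b7c1d1c54198192f27e3bb8e344b9e6) .nil .nil .nil) .nil)
 (.node (.node .nil (.leaf 0x3b9f789d75c94db9287f540a9bd64c692459e733c41e3186b7c04273c29ec56c158c4a063) .nil .nil) (.node (.leaf 0x1889f99942573663682cb915c5369d663eb6fa70acbe0f61e5969c58791c0eab54dfcb366) .nil .nil .nil) .nil .nil)
 .nil)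
)
 (.node (.node (.node .nil .nil (.node .nil .nil .nil (.leaf 0x201be4457b7ef4c3a96d2515bf4000ed19b4b215b79004442497a2693b41efbd125869ac4)) (.node .nil .nil (.leaf 0x7c59229bb033e10000c3662005e50d87ad118e83fbe1346cb659d6e0073db47b4df86) .nil))
 .nil (.node (.node .nil .nil .nil (.leaf 0x8484ca2dfe4fc8000006513824fc403c4a901cc7515d08297e2d4100cc60c22296da02)) .nil .nil (.node (.leaf 0x3841084851c30134d8f515a280e92ba4633e8c8c333650d670a2f0d56a3866534ca07) .nil .nil .nil))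
 (.node (.node .nil .nil (.leaf 0x2013a071aab6d1ad486d4d3087400f2824cdfe2f60b9034e807fd054a0d48a39461020627) .nil) .nil (.node (.leaf 0x12c41a089dbeaa85bf560acc00005298d64103114c332d29d56287da9eba9a662245e2) .nil .nil .nil) .nil)
)
 .nil (.node (.node (.node .nil .nil .nil (.leaf 0xc406d97db932134b84340228ae93830d41565ef2b6454ac8287f95c09b0d07040e44)) .nil .nil (.node (.leaf 0x3841edd79f502034b0508ba0c0e8301af0054515a6e15253b609f72543b1c771483c5) .nil .nil .nil))
 .nil .nil (.node (.node (.leaf 0x201b944cc1ed41fd086d2586d2e0050833530b04794b9be990e0a2716f75aa307063203c3) .nil .nil .nil) .nil .nil .nil)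
)
 (.node (.node (.node .nil .nil (.leaf 0x306043b18414124d93600295482a8f5480cac1) .nil) .nil (.node (.leaf 0xc6c968c1f01200000d0ad800000214314048b544551a4cba200294c82a8e7480cac1) .nil .nil .nil) .nil)
 .nil (.node (.node (.leaf 0xc509808050d400000500b8000002760140040582540803bb641829442b0d64004201) .nil .nil .nil) .nil .nil .nil)
 .nil)
)
 (.node (.node (.node .nil (.node .nil .nil .nil (.leaf 0x1a20d1cc2b967a1bc134093a45f647668ac1610b1c4c1f6c12370016e0580304c9aac8c43)) .nil (.node .nil (.leaf 0x1fa5b809be8464e6094bd540b4bf1d291a81981985a71c5ef65432d9b32880c0e92e51f80) .nil .nil))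
 (.node (.node .nil .nil .nil (.leaf 0x2dfea84d6533cef16151b0fc162e2103a9fc1705231fac74b0de2cc0703c532cb2fa25044)) .nil .nil (.node (.leaf 0x17c114441fa4adb4c93c61144d1b3848a80e6a1ae50b7a1f0590f0ead921f51a52614ca49) .nil .nil .nil))
 .nil (.node (.node .nil (.leaf 0x259b29b9f200ff51a97df19424c82f222e34a81a936d296e05e8f61831ae1762ec2c47d09) .nil .nil) (.node (.leaf 0x33fabdbdaf3eaf46a110549357d324ee048eea1fa038eedb7516bc9ca551bcb5a8e78fbc0) .nil .nil .nil) .nil .nil)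
)
 (.node (.node (.node .nil .nil .nil (.leaf 0xde0c9c855ad54bae1674546642ca3a529b6b72daff2a95f24bb141fbfe48531f012ed78f)) .nil .nil (.node (.leaf 0x2bbac8c455688db80112353d13a5ea812b38a52749c7100cc033841bd31e66305f91a6305) .nil .nil .nil))
 .nil .nil (.node (.node (.leaf 0x1be58ccc8d9247fea83e61c1829772069040fc3b4c5d0bb294e9b2a670d002a49238e12c7) .nil .nil .nil) .nil .nil .nil)
)
 .nil (.node (.node (.node .nil (.leaf 0x1fa4850c0a8162f1a026f835071c1e099aa9ab3311d594de4477a00797208878721b293c5) .nil .nil) (.node (.leaf 0x140041732ea0c0410d2613812fc522d0ee26b782ee2826e69416c98ee2a031100d445) .nil .nil .nil) .nil .nil)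
 (.node (.node (.leaf 0x1dc1840c02055515483cb083d29e2849a0001607795cc650468892e3afb440d4e39849d05) .nil .nil .nil) .nil .nil .nil)
 .nil .nil)
)
 (.node (.node (.node .nil (.node .nil .nil (.leaf 0x3eb605000aa007c3a041247f731f4c273049c007eec064c020f22081aa0540ecf740830c3) .nil) (.node .nil (.leaf 0x17c0000c2adf4288402498024b38de66818ddb2674a410804412326c38042bec060b61bc0) .nil .nil) .nil)
 (.node (.node .nil .nil (.leaf 0x3eb2b08993c96551614324d9747d490fa3029629b1a7a53994532018b17bb212a1f8eb80f) .nil) .nil (.node (.leaf 0x21bb6c09141aec2be8081c9e5f431eaa018cc60b1d523500c697407947979ba26952a3245) .nil .nil .nil) .nil)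
 (.node (.node .nil (.leaf 0xb6c7d818f0876248112ad75c146164e182ba1145a3685952070c6121c98b34ffcb1288cc) .nil .nil) (.node (.leaf 0xb6c7d8996015075e112adc36606164bbaaaaf277ce223451070c6131e8a7912cb1228286) .nil .nil .nil) .nil .nil)
 .nil)
 (.node (.node (.node .nil .nil (.leaf 0x1604158c670933786002d14e4bd91c089b18212046fdae4e6692144b36b880ccb5f8a37c7) .nil) .nil (.node (.leaf 0x21ba4c00279a555f4053e92d4761944601a5e82c777dae62b4e0d2bdef4968ee0ed2e624c) .nil .nil .nil) .nil)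
 .nil (.node (.node (.leaf 0xc078128d46000005f7f800000080af20011d4412514c0262b430c605d56e98688b) .nil .nil .nil) .nil .nil .nil)
 .nil)
 (.node (.node (.node .nil (.leaf 0x17c02c051cccbf75e02499e247f857abb36ec81082f5e4297047b23cc464836ca7304c606) .nil .nil) (.node (.leaf 0x2ad63189bc9f5ecca1779cb15ee7820dbb6cd7020f4e1c3ce09432c4d5df22aad30840ac1) .nil .nil .nil) .nil .nil)
 (.node (.node (.leaf 0x2ad6058c2f5b5ecde04344175985c82b11cefb285d0863cb04b13209b395c2c15591403cc) .nil .nil .nil) .nil .nil .nil)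
 .nil .nil)
 .nil)
)
 (.node (.node (.node .nil (.node .nil (.node .nil .nil .nil (.leaf 0x118682e499525a9599dc6ffc24a0423c7400091a26fb154d616e7d340e938a03829cc4)) .nil (.node .nil (.leaf 0x34b6fd85bc7edd88210268c5347ad04039e9630cb2436c3e9290b44e580508f8d21d04285) .nil .nil))
 .nil (.node .nil (.node .nil (.leaf 0x383d80526950410268c02d824a013ca9361cb358c2d6a2bf32cfbf35cbbc031a617c7) .nil .nil) .nil .nil)
)
 (.node (.node .nil (.node .nil .nil .nil (.leaf 0x2a1ed1849036ee8be134b51c222794c18ae93a2fd247b5dc208772615a4d991559c92d381)) .nil (.node .nil (.leaf 0x1ea92005dfc0fa5ec95998108c9fce4a9839df33a20095ac06fe40a20068a32c3b46cc483) .nil .nil))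
 (.node (.node .nil .nil .nil (.leaf 0x11404b8c58a2489599da3cac24a0402e43000333fe8e8f00506a55730a919a37809547)) .nil .nil (.node (.leaf 0x201ac8404d6d0dbb0134d0c3c02000c821d3f609d726cecbe2e8660337a908a9a1320cdc5) .nil .nil .nil))
 .nil (.node (.node .nil (.leaf 0x3eb388b0c80978f1a959f81c069d0aea86792233d0fda87ab652b249c6fde9a42bef830c3) .nil .nil) (.node (.leaf 0x351280b4d5c80d872151e1385e7b8986afff46249d1766afb699b4e19f596bba7a0f206c0) .nil .nil .nil) .nil .nil)
)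
 .nil (.node (.node .nil (.node .nil (.leaf 0x201a8c30efbee54be134d0c0ab824f2e0d37290c72fe790762732095aa554a3c26124c285) .nil .nil) .nil .nil)
 (.node (.node .nil (.leaf 0x2bbb9c34b63ac944e90a11d1f3640c8d0506dd0b7fc25311328fea57c7f94b3f40d3a9e0f) .nil .nil) (.node (.leaf 0x201a8c30efbee54be134d07515824f2e0d574d085b37bb0f627fe6d7076988b5c21a601c7) .nil .nil .nil) .nil .nil)
 .nil .nil)
)
 (.node (.node (.node .nil (.node .nil .nil .nil (.leaf 0x3d1611c83bd3b2db61536c0a59dd5cec228c30128b37a3d226c4848285e1ef08b0b060d8e)) .nil (.node .nil (.leaf 0x9a0c008da3a46538165b4043425c96819f65d35a0762c3df69a347f7a8464dd319261a8f) .nil .nil))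
 (.node (.node .nil .nil .nil (.leaf 0x3bfac44ca94de6614067a41831f4fa87a1810f4104dfa7e8448a0c3c5d60b494cabb0868d)) .nil .nil (.node (.leaf 0x2d53b8cdcb3afc25a87d2d43bd6f27caa9bddc2685bd02849779e6b401b4332ae9514d30c) .nil .nil .nil))
 .nil (.node (.node .nil (.leaf 0x1f08d030867f24e56124c82373de904c27c45b084ad82c1253f346fd32f758f7c636482cd) .nil .nil) (.node (.leaf 0x385afc31a79a1c14c17731ae49d621a8afc30644f694d27d41eb9ca373d978ad03d78ba04) .nil .nil .nil) .nil .nil)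
)
 (.node (.node (.node .nil .nil .nil (.leaf 0xc406d97db932134b04340028acb3879f21567fb69cc6681a48439540e90112068041)) .nil .nil (.node (.leaf 0x201afc41cd2d4978000008e6780280212b3781375bb2fdfd3235b0a1c76c2891c762407c2) .nil .nil .nil))
 .nil .nil (.node (.node (.leaf 0x1504ce11797d5286f4586f4c28f0b2aba091ce2ce7de7b07036f648dc6881e13b49684) .nil .nil .nil) .nil .nil .nil)
)
 .nil (.node (.node (.node .nil (.leaf 0x1fa5850c02055517c83c9083d29e5bc8a00016334159cc90468892d3b7b0e36931b845506) .nil .nil) (.node (.leaf 0x1be4bd85b792fa2b416571b163f67224306c6205f17c6792c4c302961d74c9a8f31a247c4) .nil .nil .nil) .nil .nil)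
 (.node (.node (.leaf 0x3717818c20fe635dc849bd8899184aac11e8662bda5e3048644f0608b091a2f0b00905841) .nil .nil .nil) .nil .nil .nil)
 .nil .nil)
)
 .nil (.node (.node (.node .nil (.node .nil (.leaf 0x1143853c07f24e86f45859960c0ed0e57f0195542cd9f00e626633761eb14f11b20145) .nil .nil) .nil .nil)
 (.node (.node .nil (.leaf 0x28b324bd04f7f316886f4438874454a5178eaf114da3682b041a204e41898b09002361c43) .nil .nil) (.node (.leaf 0x12039d3803be7e95b9d208742400404b08123e2cebfe8f4e2c6c1eef04984620360183) .nil .nil .nil) .nil .nil)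
 .nil .nil)
 (.node (.node (.node .nil (.leaf 0x28b230b1433bf4bb00419d8b6da61b46b796a5328c006d31509f80bf72c083a8b0a900c40) .nil .nil) (.node (.leaf 0x2cf3243930a9065f282ca429c2ec7749afe8dc78542021bc128a1a08a569e23c203861f07) .nil .nil .nil) .nil .nil)
 (.node (.node (.leaf 0x1143c43c47f25c86f45859960c0ed0e57f0194502c98f00e626633769ab14e31b20145) .nil .nil .nil) .nil .nil .nil)
 .nil .nil)
 .nil .nil)
)
 (.node (.node (.node .nil (.node .nil (.node .nil .nil (.leaf 0x164211ccc1484285bf505bf424fc13b8aa91987225fff76e212ff73c16891f64b0d642) .nil) (.node .nil (.leaf 0x1845b8217a4884fc882cb801a4940881295d253efe6af79c648d16270e75cb0135b26fc07) .nil .nil) .nil)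
 (.node .nil (.node .nil (.leaf 0x201ba0213c36c2ac085995059940c5e02a20ad0527bfb9bc729ba039ff7c202886106c9c7) .nil .nil) .nil .nil)
 .nil)
 (.node (.node .nil (.node .nil .nil (.leaf 0x2cf7f9a15d80db9da85be02ac58eb8641a70dd19625bac2636f590a3b683b29f62482a9c8) .nil) (.node .nil (.leaf 0x5809da84d5a5031c0242924316b40eea399ca02be01acb032ecb6cb26187a07f23a6e48f) .nil .nil) .nil)
 (.node (.node .nil .nil (.leaf 0x150209c8c5047296f2da0a140cf0a392eba23227fefcda603125eac7882a0225068d06) .nil) .nil (.node (.leaf 0x481c345ff7f1c00000d3c6224fe605aded052798f138301dc6d4f7fc413593686c7c2) .nil .nil .nil) .nil)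
 (.node (.node .nil (.leaf 0x6242499c78d4a5161360967f7495a4a3d9abc2012dc76edb2bd1646f018e928521b67ecc) .nil .nil) (.node (.leaf 0x2ad6389986e185484100c4fd3385edebbe81a307ee405326b26ef408b0576b01eb1268285) .nil .nil .nil) .nil .nil)
 .nil)
 (.node (.node .nil (.node .nil (.leaf 0x201ab81d94e5651ae10060408da28fc614278f0997621a13a4cab4dd1308488c25230c240) .nil .nil) .nil .nil)
 (.node (.node .nil (.leaf 0x3dda081019127b91a05104736abd8d8f9c0e13289eb498c5302680172629e904339229b4e) .nil .nil) (.node (.leaf 0x201a8c1c14a521d9e034b86535800f2f1ee0f83310f6682c50f7667fca89e61c20384c286) .nil .nil .nil) .nil .nil)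
 .nil .nil)
 .nil)
 (.node (.node (.node .nil (.node .nil .nil (.leaf 0x28b240a80c379f1bc0752d0b4b84d5eb824bfc224ea0ff8926dbb4363468402c85f92db05) .nil) (.node .nil (.leaf 0x30f7bca158b3b2b68859950aef10186598b555325f684bcc660b822ca150839474000b9c1) .nil .nil) .nil)
 (.node (.node .nil .nil (.leaf 0x28b7f92569de2ed40818003b80249a08aa7cee706b00e50c34240626305b980ad3530e387) .nil) .nil (.node (.leaf 0x17015439a17fce86d2d55de2245e62c10772617350f34263038f9aa6671ade0c872d81) .nil .nil .nil) .nil)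
 (.node (.node .nil (.leaf 0x1be5b49560f3cbffe83c9851af34d2ea171b001577b489d96426b00b0fe52a31d48b03f80) .nil .nil) (.node (.leaf 0x1be48c901dbb4961e051b562093417e0358b2479780e5ff95226087137429199810c49cc2) .nil .nil .nil) .nil .nil)
 .nil)
 (.node (.node (.node .nil .nil (.leaf 0x164250cc81485085bf505bf624fe333a9af1dac7a5ba2520b34bed8dda2b9474004e82) .nil) .nil (.node (.leaf 0x481c345ff7f1c000006678224fe605ee890515113379147100d7fbc5c394d56248c40) .nil .nil .nil) .nil)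
 .nil (.node (.node (.leaf 0x48203adbedfda000005366224fe60be4af01cc49508400ac26d430554a2ce57b6dc02) .nil .nil .nil) .nil .nil .nil)
 .nil)
 (.node (.node (.node .nil (.leaf 0x26f3a921383ba91a885b441bdb49476f03ad82120a5c66b230d1165ad0d461a574110ad4d) .nil .nil) (.node (.leaf 0x1be5aca92bba9d8a083c9864dbf41220926ed2129cc9d851402abc2397760102522821f92) .nil .nil .nil) .nil .nil)
 (.node (.node (.leaf 0x1be494a05c7f7d8720676d577df4182519322326b581f0ef1683220c4de169bc26820f603) .nil .nil .nil) .nil .nil .nil)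
 .nil .nil)
 .nil)
 (.node (.node (.node .nil (.node .nil (.leaf 0x201a8c240a253bd4a00260534000c5e51a64ef1d6c51323e103d3253da800394573804087) .nil .nil) .nil .nil)
 (.node (.node .nil (.leaf 0xcc15a84b5f6a46a00000391ec0180a88bb9126e51c65ad10d12646f9182a1cf22b2c1c2) .nil .nil) (.node (.leaf 0x201bac2522a4f53208599563e740c5e010aa99096645d0416652f47b8eed20a506112cb24) .nil .nil .nil) .nil .nil)
 .nil .nil)
 (.node (.node (.node .nil (.leaf 0x1d0c91a84c65529dc065bc1a59fd506000bb291a82917e3974d0b4436245e08c56a00990b) .nil .nil) (.node (.leaf 0x1129182cb9fe391ba908e4fcddf13fee316b5360c83f0b0b92f32e42e5bcc01ef001056c9) .nil .nil .nil) .nil .nil)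
 (.node (.node (.leaf 0x201a8c201a213bd5800260534000c5e51a67e9194709366734f4141271dcc99ca4330ce47) .nil .nil .nil) .nil .nil .nil)
 .nil .nil)
 .nil .nil)
 .nil)
)
 (.node (.node (.node (.node .nil (.node .nil .nil (.node .nil .nil .nil (.leaf 0x2d9b6c85f1ec1f4a897f607ee36e598321338304b86c8b43d6112233be99ca0dc3d8e8ac4)) (.node .nil .nil (.leaf 0x32f2dc98a13ec92e2134246b57f1f08a95e2cb118b201f85e63396a0a105c9a1c4c8c506a) .nil))
 (.node .nil (.node .nil .nil .nil (.leaf 0x303f3401adf6f389a95b4801af1207ad222f05062219e5b3f40e3675ceb98f18cac9a5d8b)) .nil (.node .nil (.leaf 0x259ef885bcbe7bfd61124dc4362b4f0301038d2627bb236bd0aeb696f999a50debdfa82c7) .nil .nil))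
 (.node .nil (.node .nil .nil (.leaf 0x27532419c5a1c928897d2012c948f1220ef0d21eaef09f80d2e4b671da218aa5f6e4e1b63) .nil) (.node .nil (.leaf 0x1021591481c49903a96d98d5a47001e58e849a03968d4db09231901b5214a6bd0cc7c89ea) .nil .nil) .nil)
)
 (.node (.node .nil .nil (.node .nil .nil .nil (.leaf 0x1d0ce189f860cc3c4167d4be785f160538dcb207af984f7ef256204ee990a9ac01900020d)) (.node .nil .nil (.leaf 0x3d165990990256338167dc6e73ffd9c78c6e882d28319a43c0e0007a8ca98820459948e6c) .nil))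
 .nil (.node (.node .nil .nil .nil (.leaf 0x87001458c2a0fc0752dbe55828c8f3b9e3f095744b3c5206b140e852c6a8462ca21dc3)) .nil .nil (.node (.leaf 0x864bd09539aaec3a00260e65e06cf0aabd86e224ea8f24624cc123f06b82cb4c0030c980) .nil .nil .nil))
 (.node (.node .nil .nil (.leaf 0x35b7b535b91b260e497dbc30aabb4282b783da2cb67f9aadf2c3140dee35060487722932d) .nil) .nil (.node (.leaf 0x340575d78a79200000b407a249a7baf5f13f23726ce03493a033cb0ce4954731044a7) .nil .nil .nil) .nil)
)
 (.node (.node .nil (.node .nil .nil .nil (.leaf 0x1a2c240530e44624e0000c891bd7948838aee83312d1271d66d4a263e6244f217a9be9186)) .nil (.node .nil (.leaf 0x2d3f64891204a551684bd800bd6d91800200663729db9c9a24acb07e0df1450c6a9da0bc5) .nil .nil))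
 (.node (.node .nil .nil .nil (.leaf 0x377a2d053b6cf017602408ca5278f346890a8b234479a79510f39495f23dacb1b9ea4cd8b)) .nil .nil (.node (.leaf 0x114dc10c0dbad06f087f4cd18933602fb904851b9b01ce16263ea20205a04091e8102d3c6) .nil .nil .nil))
 .nil (.node (.node .nil (.leaf 0x10ed3c0d4ea14dffe81adc4ac912930480974803c48044b33226b6965080028d396488048) .nil .nil) (.node (.leaf 0x176d30857a739574a87d9c1ed9383ce02896942fb7606045547814011b24a3115b25697c2) .nil .nil .nil) .nil .nil)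
)
 (.node (.node .nil (.node .nil .nil (.leaf 0x2ff3e891d3b76de4490a6d4ac2cce3af9eb68335b71cde2bd603b0555fb54c947e2dccf20) .nil) (.node .nil (.leaf 0xd24ac1df14ddd896153d1ca42cf1e44bddf5e04bb7de29386cb90a78fb466b49d2fa0522) .nil .nil) .nil)
 (.node (.node .nil .nil (.leaf 0x20176d9dfb89ebcd2959954fe6c2cae38f51841d6c4d9c58e41880cf9e350f307778493a6) .nil) .nil (.node (.leaf 0x4f51567d778a12000008a74200621841a3f1858b4ee8d2039866ce000ec1df73f05877) .nil .nil .nil) .nil)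
 (.node (.node .nil (.leaf 0x2d3734956d13456c080a440fd02d9185bebfe3119dce9e1b6642305215b1ca38186f84701) .nil .nil) (.node (.leaf 0x22d3b199452dca6ca859bc0af423b8c8a713a02d7e9f7c8d40b1a68838158bb1cd3e09cad) .nil .nil .nil) .nil .nil)
 .nil)
)
 (.node (.node (.node .nil .nil (.node .nil .nil .nil (.leaf 0x108c6509eafe22b4617591852ff14f6b219891129b648120a4023014450404b4b35b8d8c6)) (.node .nil .nil (.leaf 0xfe4f51392ab2a0f6153f89649ae2ca835c8fc281ed22e7ab64db083d2c48e305461cca6b) .nil))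
 .nil (.node (.node .nil .nil .nil (.leaf 0xc09c0ce185990ca03495682da3732b0937410e0df2f52d02427e7e3928b60c49a0a5609)) .nil .nil (.node (.leaf 0x30c558ca468d1f02151c04b2b817ccc3127562d68d9d89317d646944cbe8714cbc887c80) .nil .nil .nil))
 (.node (.node .nil .nil (.leaf 0x1d0124bdeaba1953293e4949927d1ca12d33b8227a8c55d3b12ea62b42ae3ebfd6088b4ab) .nil) .nil (.node (.leaf 0x21bef9814568f617a053e98d52c357a8b9f4b40c71706e7a85c0f2499bcf6fa4bccba2663) .nil .nil .nil) .nil)
)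
 .nil (.node (.node (.node .nil .nil .nil (.leaf 0x3b37858cc0ff6a4729089482e4b700c4b1d12a028b26cc60a0b424a06501c8aca160d0c89)) .nil .nil (.node (.leaf 0xa01a8010c44bbd5e85bdd1edf44f50b1020e43347ccfdb2e5334076b54af52a31d0eb985) .nil .nil .nil))
 .nil .nil .nil)
 (.node (.node (.node .nil .nil (.leaf 0x5ad8d2c328b8b486d2d55b4e206e1a04caa3b18f411f012b112c670046b94220a25a43) .nil) .nil (.node (.leaf 0x21bb78095d45c32b283ec44e99619b8620517207dff5260aa2e74680b9f99ab39932449c7) .nil .nil .nil) .nil)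
 .nil .nil .nil)
)
 (.node (.node (.node .nil (.node .nil .nil .nil (.leaf 0x1024f40d8f124978a100b4bb63f0886c1ac5ba1fe46f79dc80e38280885c2a3dcbc18ce8b)) .nil (.node .nil (.leaf 0x1385840de24414ce297db980b692188000530c1a01f3bde1b6f896e06560ca31aac680bca) .nil .nil))
 (.node (.node .nil .nil .nil (.leaf 0xd2ca80d84920f7b6165bdd0318f5c0483406012b99d9ea044e1f6c22138ab0c61214400a)) .nil .nil .nil)
 .nil (.node (.node .nil (.leaf 0x54c84383e1687e4e01244383a09d8c83e29511c73f0c97ed6e29064eda88b05aadea5c45) .nil .nil) (.node (.leaf 0x132c243de864f2b4a165e0931c52160e3794b309751642123291eeb6d57c20b7780468183) .nil .nil .nil) .nil .nil)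
)
 (.node (.node (.node .nil .nil .nil (.leaf 0x2d33dd8494403545690a44c0b6cdd4a7128ef81dfef9b89be2d3102abcb5ed0d8a55c55c6)) .nil .nil (.node (.leaf 0xb6c7d0dae2062c28112ad880b86574d1041aa24fea528a0316360eaf8a6f21ff9f0e2186) .nil .nil .nil))
 .nil .nil .nil)
 .nil (.node (.node (.node .nil (.leaf 0x28b210887da924bba043f53138c6d46b99d57904f83fea9e466034ca9cb58020d2b820707) .nil .nil) .nil .nil .nil)
 .nil .nil .nil)
)
 (.node (.node (.node .nil (.node .nil .nil (.leaf 0x3eb2848c0d210f15e04124200c9f0f2538433217ff9425e5347206bfeb0920b081a905809) .nil) (.node .nil (.leaf 0x3d1284000fa57eb6205104167f1fdfa33846520a13a24b3d30f5009e7105699570b36818c) .nil .nil) .nil)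
 (.node (.node .nil .nil (.leaf 0x3eb6050416a84c45a077fc200cbdcac7a1c63c0a64c7b1e344330006a4957b1e608b001cb) .nil) .nil .nil .nil)
 .nil .nil)
 (.node (.node (.node .nil .nil (.leaf 0x160094087aa96dfec034091259fbd5e6331de5201576116016cc949b430c489d123b48e4e) .nil) .nil .nil .nil)
 .nil .nil .nil)
 (.node (.node (.node .nil (.leaf 0x3d16298d2397f19c4067ddf51e7d9f80a2a3353cb4e583bb503fa674dcad8bbd83aa04688) .nil .nil) .nil .nil .nil)
 .nil .nil .nil)
 .nil)
)
 (.node (.node (.node (.node .nil .nil (.node .nil .nil .nil (.leaf 0x201be805f376e1c3a96d2745b4c000ed38d7a0119cd0454d8045326912056715711365005)) (.node .nil .nil (.leaf 0x7019aa93a53ff10000936da005e52ee7b9119edb9ba1b47700185470058d763b499a7) .nil))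
 .nil (.node (.node .nil .nil .nil (.leaf 0x9500c6789b54a08652d053f428f0b39190910912052a41426b4b7d34cef0cf07a20c46)) .nil .nil .nil)
 (.node (.node .nil .nil (.leaf 0x20128c30efa0c4d8c134b8c02da24f0e14b74d0093b1f40de2ff92d71729cf207550013e7) .nil) .nil .nil .nil)
)
 .nil .nil .nil)
 .nil (.node (.node (.node (.node .nil .nil .nil (.leaf 0x800002000220823620012d1c24524e5800306284881035324d82)) .nil .nil (.node (.leaf 0x201ac40020fad6282002680026028a2111ca60188954244b067514c5818184b0c31849ec6) .nil .nil .nil))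
 .nil .nil .nil)
 .nil .nil .nil)
 (.node (.node (.node (.node .nil .nil (.leaf 0x164250cc81485085bf505bf624fe33bc3eb1dbcbfdb4f46d392ffbefc6398d3000df80) .nil) .nil (.node (.leaf 0x12055ae1bfc75e85bf506d2c000051747501c30aeae8bc644122b8e3ce3a4f22060180) .nil .nil .nil) .nil)
 .nil .nil .nil)
 .nil .nil .nil)
)
 (.node (.node (.node (.node .nil (.node .nil .nil .nil (.leaf 0x2db6c004124408a22010253b718d83e5002c210dbfb92cf874e4849c2d3d2128f880e0983)) .nil (.node .nil (.leaf 0x2d33210128c124b4a87d0803d0cd916da02c32231353ea8046a696172729609daba4c9587) .nil .nil))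
 (.node (.node .nil .nil .nil (.leaf 0x2176448c0a7ea789c043fd3e5583e9aa19c120215e646e366637125004896aa0d8f26dec5)) .nil .nil (.node (.leaf 0x2ad725851a7ffa3c886f65308767b808b9e877020ce3206e109e204ac0898e2d4b2b20082) .nil .nil .nil))
 .nil (.node (.node .nil (.leaf 0x26f2c18838c079036041900d022981440005650041d4acf8304fa418e7290411185d84b84) .nil .nil) (.node (.leaf 0x2ad6448020faf62aa00248082627a80819e9642ca089eebe22dc32c04c9dcf991a0f11c83) .nil .nil .nil) .nil .nil)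
)
 (.node (.node (.node .nil .nil .nil (.leaf 0x2f36c00818c079036051b805022cd246000503047a58ace03443020e281d07b8e819e0416)) .nil .nil (.node (.leaf 0x2ad6058c205e457ae034907d380502e4b188743562771e28634434182817c48da9e8aba40) .nil .nil .nil))
 .nil .nil .nil)
 .nil (.node (.node (.node .nil (.leaf 0x10000088437e6681a68b6d58245c13aa9bd0468095a8602ff32f5ba9448acb38360e81) .nil .nil) .nil .nil .nil)
 .nil .nil .nil)
)
 (.node (.node (.node (.node .nil .nil .nil (.leaf 0x34d25d887445a928e000954274582f69bab6f627eddad80550fb065ddb35ec94cb4a48509)) .nil .nil .nil)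
 .nil .nil .nil)
 .nil .nil .nil)
 .nil (.node (.node (.node (.node .nil (.leaf 0x3dda3c016cc0e37bc02641fa733f088120361c30d7d4cc5324ad06a327a140b5e1106558e) .nil .nil) (.node (.leaf 0x2ad62589187fbc7b003490b82144edeb8368e81fa18bf270528694387d3de010c231403c6) .nil .nil .nil) .nil .nil)
 .nil .nil .nil)
 .nil .nil .nil)
)
 (.node (.node (.node (.node .nil (.node .nil .nil (.leaf 0x16008d843bcd7df100340978213997a1b1ec61347d7d82681205945def342ab0e12b45f0b) .nil) (.node .nil (.leaf 0x1601ec81014871e728592448805bd78219ae120ad1034cc504a2069503006285c1180100f) .nil .nil) .nil)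
 (.node (.node .nil .nil (.leaf 0x16009c804c5e6492a034097b4cb95d6e0b10920f2759479c26d7b4398b5c422d21194068d) .nil) .nil (.node (.leaf 0x140c4f5202f1c036d83a734240cb12b3953b0ba2b4cb602e06c235a88a14c00a60943) .nil .nil .nil) .nil)
 (.node (.node .nil (.leaf 0x1448dbc86029a000000c00c00fc09b5b6c2efc6c5a4580ac06349894ca0db10a24a40) .nil .nil) (.node (.leaf 0x1340975d78c74685bf50ad200c0cfb2b2a0119ece36c36260b20912906b09302a48803) .nil .nil .nil) .nil .nil)
 .nil)
 (.node (.node (.node .nil .nil (.leaf 0x160090804fcc0c4aa03409413ff958ae031a9d0306233711225cb22800480081321068c0e) .nil) .nil (.node (.leaf 0x1340975d78c74686d2d3ca1800fc0299ebc2b1965c80d02ca347f37a8ea98b32b081c2) .nil .nil .nil) .nil)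
 .nil .nil .nil)
 (.node (.node (.node .nil (.leaf 0x342171def0636036d9bf6a000a0013979726b41c5a0b40e98064a894c88d711b21cc7) .nil .nil) .nil .nil .nil)
 .nil .nil .nil)
 .nil)
 (.node (.node (.node (.node .nil .nil (.leaf 0x1601bc897e5ed947486ffc48993997a10339b73c651c1bea5469863ec9dc6b08e11a206cf) .nil) .nil .nil .nil)
 .nil .nil .nil)
 .nil .nil .nil)
 (.node (.node (.node (.node .nil (.leaf 0x341175d398d9400001bc07800a05bedff53f717deeed101b0625cf34a295333901f46) .nil .nil) (.node (.leaf 0x340575d788f1600001bc07800a05b87ff53f217d8abd101b0625cf3ce2b5e13901544) .nil .nil .nil) .nil .nil)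
 .nil .nil .nil)
 .nil .nil .nil)
 .nil)
)
 (.node (.node (.node (.node .nil (.node .nil (.node .nil .nil .nil (.leaf 0x20039458c1f7706e486f4d86f44005282ef00d08ca95d4beb4b980717629692d706b4dd82)) .nil (.node .nil (.leaf 0x3792e281025e6dbbc01240852658572e2329eb267620afd2067432bdfacda2489254658c6) .nil .nil))
 .nil (.node .nil (.node .nil (.leaf 0x2b40d6fec8c1ba034b8802620052d319e7b14e86f79d942d0b418985dc329834001486) .nil .nil) .nil .nil)
)
 (.node (.node .nil (.node .nil .nil .nil (.leaf 0x3bd6310557960352606740840284a028101c830f22779fe270c70201fee54008f21120146)) .nil (.node .nil (.leaf 0xc4465893a24e6532841b88102ec3d2132cfed1ead606dc1342f22f3ff4cc3aca19dc1c04) .nil .nil))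
 (.node (.node .nil .nil .nil (.leaf 0x120012881cee6ab3ccd33ccc0cacf082a033eaf6e1e6736b01246e9dc4800d2324dec6)) .nil .nil (.node (.leaf 0x1142c53da4eb7a86d2d85bfe0c0cf139eb215e61943613277b263ea5ca7a8a21040805) .nil .nil .nil))
 .nil (.node (.node .nil (.leaf 0x17c02c8511c96631c06520834bd86b4f8322c41e7c02c77172e8b4d4ec6c07b4c164c27c2) .nil .nil) (.node (.leaf 0x1000c02004f46085bf58da6e245e33ac2db9daefcd5e756f19230dcf4e519331440985) .nil .nil .nil) .nil .nil)
)
 .nil (.node (.node .nil (.node .nil (.leaf 0x7c59c7047ea0c034b8d02d828f1c10d76d04eb749189e0cb92de2fec048d64080d542) .nil .nil) .nil .nil)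
 (.node (.node .nil (.leaf 0x11e5490c2952055e080adcc0bd336b233a80c918de60c0a6261216bdd680e7101150b960c) .nil .nil) (.node (.leaf 0x70095f125a32a036d88000228f2c20747f0848f29bc2448906de34e88db0320160d03) .nil .nil .nil) .nil .nil)
 .nil .nil)
)
 (.node (.node (.node .nil (.node .nil .nil .nil (.leaf 0x4a401c89e1e137920774d0800025e0a89cb9f1c32aaaf3fb4ed2065ce7c6f2833c240983)) .nil (.node .nil (.leaf 0x351378887c3f31e66c089142e6bb4646ab5b981537fd62c544b426eecd3dae4180e74d151) .nil .nil))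
 (.node (.node .nil .nil .nil (.leaf 0x15a415489921bf00004749002df94c2a8844060d4e897716e6f8e8d881f546a3906961f43)) .nil .nil (.node (.leaf 0x1184ccbda5bb7a85bf5c1d0e24a239a91f138e863bff6c3c6d70d7ef10424e050209cd) .nil .nil .nil))
 .nil (.node (.node .nil (.leaf 0x3d1709081c2d96474808bcd092bfdc87a1d2f42eef0c5369077106b12bc66f45a7af2084b) .nil .nil) (.node (.leaf 0x1000411801f24286d2dc5d940cf0f9285e01dd8054f312747f85c6574f71da1ddef305) .nil .nil .nil) .nil .nil)
)
 (.node (.node (.node .nil .nil .nil (.leaf 0xc406d97db932134b84340228ae93833d2115ef76a277265a487f2088b18257a4c425)) .nil .nil (.node (.leaf 0x3841edd79f502036d8d02d80c0ca3879940567dc64eef80f640af11d071016716d847) .nil .nil .nil))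
 .nil .nil .nil)
 .nil (.node (.node (.node .nil (.leaf 0x371695847728464a00650d043fdaca620b159037fab2bd24321614e54e658a4c738a09541) .nil .nil) .nil .nil .nil)
 .nil .nil .nil)
)
 .nil (.node (.node (.node .nil (.node .nil (.leaf 0x1143853de5ebbc86f45859960c0ed51beb215b619623330e7a62248956918601344a04) .nil .nil) .nil .nil)
 .nil .nil .nil)
 (.node (.node (.node .nil (.leaf 0x12009321b8f5ce82ed80fed628ae9b9a2032bd95769cf44f200c123c1e3bce1b06c404) .nil .nil) .nil .nil .nil)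
 .nil .nil .nil)
 .nil .nil)
)
 (.node (.node (.node (.node .nil (.node .nil .nil .nil (.leaf 0x19649d806e8492da8026644c1bd3e64712d2c527bd4aa8eb54ef040d5fb40d89838a00b88)) .nil (.node .nil (.leaf 0x19e05c806e843049a0a664441bf734e81a90833384d8ece66007228b12b8a4a0511de158d) .nil .nil))
 (.node (.node .nil .nil .nil (.leaf 0x15a4190874be7d934042fc4a525bc6c3ab1db20b4dcd720e42c3b40d139025359281607c8)) .nil .nil .nil)
 .nil (.node (.node .nil (.leaf 0x3d161d085c65a928e051b10a747f1c48b2f1b9231043f6a0309220e8c421c02c0a7deb9c4) .nil .nil) .nil .nil .nil)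
)
 .nil .nil .nil)
 .nil .nil (.node (.node (.node (.node .nil (.leaf 0x6240488101a2f1ae002d14d24095a4f11e34e3c27d50eb3769b306e7984c21980010648a) .nil .nil) .nil .nil .nil)
 .nil .nil .nil)
 .nil .nil .nil)
)
 .nil (.node (.node (.node (.node .nil (.node .nil (.leaf 0x201b981c59e544fc486d25d6d960050812301900020bdee8341232714631229807282c902) .nil .nil) .nil .nil)
 (.node (.node .nil (.leaf 0x2ad7118c652d035f2859bd87ed44e22ba37cc430c0b6bc00449f062ea429088cd33b409c4) .nil .nil) .nil .nil .nil)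
 .nil .nil)
 (.node (.node (.node .nil (.leaf 0x1dc0900c487308a3a0264913665f024912b2291fe4e2589306a6a6c4b88ccab167324968d) .nil .nil) .nil .nil .nil)
 .nil .nil .nil)
 .nil .nil)
 .nil .nil .nil)
)
 .nil)


/-- generators -/
def gL3211 : List (List (List Q) × List Q) :=
[([[.a], [.a], [.a], [.b]], [.b, .c, .d]),
([[.a], [.a], [.a], [.b, .b]], [.c, .d]),
([[.a], [.a], [.a], [.b, .b, .c]], [.d]),
([[.a], [.a], [.a, .b], [.b]], [.c, .d]),
([[.a], [.a], [.a, .b], [.b, .c]], [.d]),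
([[.a], [.a], [.a, .b, .b], [.c]], [.d]),
([[.a], [.a, .a], [.b], [.b, .c]], [.d]),
([[.a], [.a, .a], [.b, .b], [.c]], [.d]),
([[.a], [.a, .a, .b], [.b], [.c]], [.d]),
([[.a, .a], [.a, .b], [.b], [.c]], [.d]),
([[.a, .a, .a], [.b], [.b], [.c]], [.d]),
([[.a], [.a], [.a], [.b]], [.b, .d, .c]),
([[.a], [.a], [.a], [.b, .b, .d]], [.c]),
([[.a], [.a], [.a, .b], [.b, .d]], [.c]),
([[.a], [.a, .a], [.b], [.b, .d]], [.c]),
([[.a], [.a], [.a], [.b, .c]], [.b, .d]),
([[.a], [.a], [.a, .b, .c], [.b]], [.d]),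
([[.a], [.a, .a, .b], [.c], [.b]], [.d]),
([[.a, .a, .a], [.b], [.c], [.b]], [.d]),
([[.a], [.a], [.a, .b, .d], [.b]], [.c]),
([[.a], [.a], [.a, .c], [.b]], [.b, .d]),
([[.a], [.a], [.a, .c], [.b, .b]], [.d]),
([[.a], [.a], [.a, .c, .b], [.b]], [.d]),
([[.a], [.a, .a, .c], [.b], [.b]], [.d]),
([[.a, .a, .a], [.c], [.b], [.b]], [.d]),
([[.a], [.a], [.a, .d], [.b]], [.b, .c]),
([[.a], [.a], [.a, .d], [.b, .b]], [.c]),
([[.a], [.a], [.a, .d, .b], [.b]], [.c]),
([[.a], [.a, .a, .d], [.b], [.b]], [.c]),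
([[.a], [.a], [.b], [.a]], [.b, .c, .d]),
([[.a], [.a], [.b], [.a, .b]], [.c, .d]),
([[.a], [.a], [.b], [.a, .b, .c]], [.d]),
([[.a], [.a], [.b, .a], [.b]], [.c, .d]),
([[.a], [.a], [.b, .a], [.b, .c]], [.d]),
([[.a], [.a], [.b, .a, .b], [.c]], [.d]),
([[.a], [.a, .b], [.a], [.b]], [.c, .d]),
([[.a], [.a, .b], [.a], [.b, .c]], [.d]),
([[.a], [.a, .b], [.a, .b], [.c]], [.d]),
([[.a], [.a, .b, .a], [.b], [.c]], [.d]),
([[.a, .a], [.b, .a], [.b], [.c]], [.d]),
([[.a, .a, .b], [.a], [.b], [.c]], [.d]),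
([[.a], [.a], [.b], [.a]], [.b, .d, .c]),
([[.a], [.a], [.b], [.a, .b, .d]], [.c]),
([[.a], [.a], [.b, .a], [.b, .d]], [.c]),
([[.a], [.a, .b], [.a], [.b, .d]], [.c]),
([[.a], [.a], [.b], [.a, .c]], [.b, .d]),
([[.a], [.a], [.b], [.a, .c, .b]], [.d]),
([[.a], [.a], [.b, .a, .c], [.b]], [.d]),
([[.a], [.a, .b], [.a, .c], [.b]], [.d]),
([[.a, .a, .b], [.a], [.c], [.b]], [.d]),
([[.a], [.a], [.b], [.a, .c, .d]], [.b]),
([[.a], [.a], [.b], [.a, .d]], [.b, .c]),
([[.a], [.a], [.b], [.a, .d, .b]], [.c]),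
([[.a], [.a, .b], [.a, .d], [.b]], [.c]),
([[.a], [.a], [.b], [.a, .d, .c]], [.b]),
([[.a], [.a, .b], [.b], [.a]], [.c, .d]),
([[.a], [.a, .b], [.b], [.a, .c]], [.d]),
([[.a], [.a, .b], [.b, .a], [.c]], [.d]),
([[.a], [.a, .b, .b], [.a], [.c]], [.d]),
([[.a, .a, .b], [.b], [.a], [.c]], [.d]),
([[.a], [.a, .b], [.b], [.a, .d]], [.c]),
([[.a], [.a], [.b, .b, .c], [.a]], [.d]),
([[.a], [.a, .b], [.b, .c], [.a]], [.d]),
([[.a], [.a, .b, .b], [.c], [.a]], [.d]),
([[.a, .a, .b], [.b], [.c], [.a]], [.d]),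
([[.a], [.a], [.b, .b, .d], [.a]], [.c]),
([[.a], [.a, .b], [.b, .d], [.a]], [.c]),
([[.a], [.a], [.b, .c], [.a]], [.b, .d]),
([[.a], [.a], [.b, .c], [.a, .b]], [.d]),
([[.a], [.a, .b], [.c], [.a, .b]], [.d]),
([[.a], [.a, .b, .c], [.a], [.b]], [.d]),
([[.a, .a, .b], [.c], [.a], [.b]], [.d]),
([[.a], [.a, .b, .c], [.b], [.a]], [.d]),
([[.a, .a, .b], [.c], [.b], [.a]], [.d]),
([[.a], [.a], [.b, .d], [.a, .b]], [.c]),
([[.a], [.a, .b, .d], [.a], [.b]], [.c]),
([[.a], [.a, .b, .d], [.b], [.a]], [.c]),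
([[.a], [.a, .c], [.a], [.b]], [.b, .d]),
([[.a], [.a, .c], [.a], [.b, .b]], [.d]),
([[.a], [.a, .c], [.a, .b], [.b]], [.d]),
([[.a, .a, .c], [.a], [.b], [.b]], [.d]),
([[.a], [.a, .c], [.b], [.a]], [.b, .d]),
([[.a], [.a, .c], [.b], [.a, .b]], [.d]),
([[.a], [.a, .c], [.b, .a], [.b]], [.d]),
([[.a], [.a, .c, .b], [.a], [.b]], [.d]),
([[.a, .a, .c], [.b], [.a], [.b]], [.d]),
([[.a], [.a, .c], [.b], [.a, .d]], [.b]),
([[.a], [.a, .c, .b], [.b], [.a]], [.d]),
([[.a, .a, .c], [.b], [.b], [.a]], [.d]),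
([[.a], [.a, .c, .d], [.b], [.a]], [.b]),
([[.a], [.a, .d], [.a], [.b]], [.b, .c]),
([[.a], [.a, .d], [.a], [.b, .b]], [.c]),
([[.a], [.a, .d], [.a, .b], [.b]], [.c]),
([[.a, .a, .d], [.a], [.b], [.b]], [.c]),
([[.a], [.a, .d], [.b], [.a]], [.b, .c]),
([[.a], [.a, .d], [.b], [.a, .b]], [.c]),
([[.a], [.a, .d], [.b, .a], [.b]], [.c]),
([[.a], [.a, .d, .b], [.a], [.b]], [.c]),
([[.a, .a, .d], [.b], [.a], [.b]], [.c]),
([[.a], [.a, .d], [.b], [.a, .c]], [.b]),
([[.a], [.a, .d, .b], [.b], [.a]], [.c]),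
([[.a, .a, .d], [.b], [.b], [.a]], [.c]),
([[.a], [.a, .d, .c], [.b], [.a]], [.b]),
([[.a], [.b], [.a], [.a]], [.b, .c, .d]),
([[.a], [.b], [.a], [.a, .b]], [.c, .d]),
([[.a], [.b], [.a], [.a, .b, .c]], [.d]),
([[.a], [.b], [.a, .a], [.b]], [.c, .d]),
([[.a], [.b], [.a, .a], [.b, .c]], [.d]),
([[.a], [.b], [.a, .a, .b], [.c]], [.d]),
([[.a], [.b, .a, .a], [.b], [.c]], [.d]),
([[.a, .b], [.a], [.a], [.b]], [.c, .d]),
([[.a, .b], [.a], [.a], [.b, .c]], [.d]),
([[.a, .b], [.a], [.a, .b], [.c]], [.d]),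
([[.a, .b], [.a, .a], [.b], [.c]], [.d]),
([[.a], [.b], [.a], [.a]], [.b, .d, .c]),
([[.a], [.b], [.a], [.a, .b, .d]], [.c]),
([[.a], [.b], [.a, .a], [.b, .d]], [.c]),
([[.a, .b], [.a], [.a], [.b, .d]], [.c]),
([[.a], [.b], [.a], [.a, .c]], [.b, .d]),
([[.a], [.b], [.a], [.a, .c, .b]], [.d]),
([[.a], [.b], [.a, .a, .c], [.b]], [.d]),
([[.a, .b], [.a], [.a, .c], [.b]], [.d]),
([[.a], [.b], [.a], [.a, .c, .d]], [.b]),
([[.a], [.b], [.a], [.a, .d]], [.b, .c]),
([[.a], [.b], [.a], [.a, .d, .b]], [.c]),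
([[.a], [.b], [.a, .a, .d], [.b]], [.c]),
([[.a, .b], [.a], [.a, .d], [.b]], [.c]),
([[.a], [.b], [.a], [.a, .d, .c]], [.b]),
([[.a], [.b], [.a, .b], [.a]], [.c, .d]),
([[.a], [.b], [.a, .b], [.a, .c]], [.d]),
([[.a, .b], [.a], [.b], [.a]], [.c, .d]),
([[.a, .b], [.a], [.b], [.a, .c]], [.d]),
([[.a, .b], [.a], [.b, .a], [.c]], [.d]),
([[.a, .b], [.a, .b], [.a], [.c]], [.d]),
([[.a], [.b], [.a, .b], [.a, .d]], [.c]),
([[.a, .b], [.a], [.b], [.a, .d]], [.c]),
([[.a], [.b], [.a, .b, .c], [.a]], [.d]),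
([[.a, .b], [.a], [.b, .c], [.a]], [.d]),
([[.a, .b], [.a, .b], [.c], [.a]], [.d]),
([[.a], [.b], [.a, .b, .d], [.a]], [.c]),
([[.a, .b], [.a], [.b, .d], [.a]], [.c]),
([[.a], [.b], [.a, .c], [.a]], [.b, .d]),
([[.a], [.b], [.a, .c], [.a, .b]], [.d]),
([[.a, .b], [.a], [.c], [.a, .b]], [.d]),
([[.a, .b], [.a, .c], [.a], [.b]], [.d]),
([[.a], [.b], [.a, .c], [.a, .d]], [.b]),
([[.a], [.b], [.a, .c, .b], [.a]], [.d]),
([[.a, .b], [.a, .c], [.b], [.a]], [.d]),
([[.a], [.b], [.a, .d], [.a]], [.b, .c]),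
([[.a], [.b], [.a, .d], [.a, .b]], [.c]),
([[.a, .b], [.a, .d], [.a], [.b]], [.c]),
([[.a], [.b], [.a, .d, .b], [.a]], [.c]),
([[.a, .b], [.a, .d], [.b], [.a]], [.c]),
([[.a], [.b], [.b], [.a, .a]], [.c, .d]),
([[.a], [.b], [.b], [.a, .a, .c]], [.d]),
([[.a, .b], [.b], [.a], [.a]], [.c, .d]),
([[.a, .b], [.b], [.a], [.a, .c]], [.d]),
([[.a, .b], [.b], [.a, .a], [.c]], [.d]),
([[.a, .b, .b], [.a], [.a], [.c]], [.d]),
([[.a], [.b], [.b], [.a, .a, .d]], [.c]),
([[.a, .b], [.b], [.a], [.a, .d]], [.c]),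
([[.a, .b], [.b], [.a, .c], [.a]], [.d]),
([[.a, .b, .b], [.a], [.c], [.a]], [.d]),
([[.a, .b], [.b], [.a, .d], [.a]], [.c]),
([[.a], [.b], [.b, .c], [.a, .a]], [.d]),
([[.a], [.b, .b, .c], [.a], [.a]], [.d]),
([[.a, .b], [.b], [.c], [.a, .a]], [.d]),
([[.a, .b], [.b, .c], [.a], [.a]], [.d]),
([[.a, .b, .b], [.c], [.a], [.a]], [.d]),
([[.a], [.b, .b, .d], [.a], [.a]], [.c]),
([[.a, .b], [.b, .d], [.a], [.a]], [.c]),
([[.a], [.b, .c], [.a], [.a]], [.b, .d]),
([[.a], [.b, .c], [.a], [.a, .b]], [.d]),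
([[.a], [.b, .c], [.a, .a], [.b]], [.d]),
([[.a, .b], [.c], [.a], [.a, .b]], [.d]),
([[.a, .b], [.c], [.a, .a], [.b]], [.d]),
([[.a, .b, .c], [.a], [.a], [.b]], [.d]),
([[.a, .b, .c], [.a], [.b], [.a]], [.d]),
([[.a], [.b, .c], [.b], [.a, .a]], [.d]),
([[.a, .b], [.c], [.b], [.a, .a]], [.d]),
([[.a, .b, .c], [.b], [.a], [.a]], [.d]),
([[.a], [.b, .d], [.a, .a], [.b]], [.c]),
([[.a, .b, .d], [.a], [.a], [.b]], [.c]),
([[.a, .b, .d], [.a], [.b], [.a]], [.c]),
([[.a, .b, .d], [.b], [.a], [.a]], [.c]),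
([[.a], [.c], [.a, .a], [.b, .b]], [.d]),
([[.a, .c], [.a], [.a], [.b]], [.b, .d]),
([[.a, .c], [.a], [.a], [.b, .b]], [.d]),
([[.a, .c], [.a], [.a, .b], [.b]], [.d]),
([[.a, .c], [.a], [.b], [.a]], [.b, .d]),
([[.a, .c], [.a], [.b], [.a, .b]], [.d]),
([[.a, .c], [.a], [.b, .a], [.b]], [.d]),
([[.a, .c], [.a, .b], [.a], [.b]], [.d]),
([[.a, .c], [.a], [.b], [.a, .d]], [.b]),
([[.a, .c], [.a, .b], [.b], [.a]], [.d]),
([[.a, .c], [.a, .d], [.b], [.a]], [.b]),
([[.a, .c], [.b], [.a], [.a]], [.b, .d]),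
([[.a, .c], [.b], [.a], [.a, .b]], [.d]),
([[.a, .c], [.b], [.a, .a], [.b]], [.d]),
([[.a, .c, .b], [.a], [.a], [.b]], [.d]),
([[.a, .c], [.b], [.a], [.a, .d]], [.b]),
([[.a, .c], [.b], [.a, .b], [.a]], [.d]),
([[.a, .c, .b], [.a], [.b], [.a]], [.d]),
([[.a, .c], [.b], [.b], [.a, .a]], [.d]),
([[.a, .c, .b], [.b], [.a], [.a]], [.d]),
([[.a, .c, .d], [.a], [.b], [.a]], [.b]),
([[.a, .d], [.a], [.a], [.b]], [.b, .c]),
([[.a, .d], [.a], [.a], [.b, .b]], [.c]),
([[.a, .d], [.a], [.a, .b], [.b]], [.c]),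
([[.a, .d], [.a], [.b], [.a]], [.b, .c]),
([[.a, .d], [.a], [.b], [.a, .b]], [.c]),
([[.a, .d], [.a], [.b, .a], [.b]], [.c]),
([[.a, .d], [.a, .b], [.a], [.b]], [.c]),
([[.a, .d], [.a], [.b], [.a, .c]], [.b]),
([[.a, .d], [.a, .b], [.b], [.a]], [.c]),
([[.a, .d], [.a, .c], [.b], [.a]], [.b]),
([[.a, .d], [.b], [.a], [.a]], [.b, .c]),
([[.a, .d], [.b], [.a], [.a, .b]], [.c]),
([[.a, .d], [.b], [.a, .a], [.b]], [.c]),
([[.a, .d, .b], [.a], [.a], [.b]], [.c]),
([[.a, .d], [.b], [.a], [.a, .c]], [.b]),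
([[.a, .d], [.b], [.a, .b], [.a]], [.c]),
([[.a, .d, .b], [.a], [.b], [.a]], [.c]),
([[.a, .d, .b], [.b], [.a], [.a]], [.c]),
([[.a, .d, .c], [.a], [.b], [.a]], [.b]),
([[.b], [.a], [.a], [.a]], [.b, .c, .d]),
([[.b], [.a], [.a], [.a, .b]], [.c, .d]),
([[.b], [.a], [.a], [.a, .b, .c]], [.d]),
([[.b], [.a], [.a, .a], [.b]], [.c, .d]),
([[.b], [.a], [.a, .a], [.b, .c]], [.d]),
([[.b], [.a], [.a, .a, .b], [.c]], [.d]),
([[.b], [.a, .a], [.a, .b], [.c]], [.d]),
([[.b], [.a, .a, .a], [.b], [.c]], [.d]),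
([[.b], [.a], [.a], [.a]], [.b, .d, .c]),
([[.b], [.a], [.a], [.a, .b, .d]], [.c]),
([[.b], [.a], [.a, .a], [.b, .d]], [.c]),
([[.b], [.a], [.a], [.a, .c]], [.b, .d]),
([[.b], [.a], [.a], [.a, .c, .b]], [.d]),
([[.b], [.a], [.a, .a, .c], [.b]], [.d]),
([[.b], [.a, .a], [.a, .c], [.b]], [.d]),
([[.b], [.a], [.a], [.a, .c, .d]], [.b]),
([[.b], [.a], [.a], [.a, .d]], [.b, .c]),
([[.b], [.a], [.a], [.a, .d, .b]], [.c]),
([[.b], [.a], [.a, .a, .d], [.b]], [.c]),
([[.b], [.a, .a], [.a, .d], [.b]], [.c]),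
([[.b], [.a], [.a], [.a, .d, .c]], [.b]),
([[.b], [.a], [.a, .b], [.a]], [.c, .d]),
([[.b], [.a], [.a, .b], [.a, .c]], [.d]),
([[.b], [.a], [.a, .b], [.a, .d]], [.c]),
([[.b], [.a], [.a, .b, .c], [.a]], [.d]),
([[.b], [.a], [.a, .b, .d], [.a]], [.c]),
([[.b], [.a], [.a, .c], [.a]], [.b, .d]),
([[.b], [.a], [.a, .c], [.a, .b]], [.d]),
([[.b], [.a], [.a, .c, .a], [.b]], [.d]),
([[.b], [.a], [.a, .c], [.a, .d]], [.b]),
([[.b], [.a], [.a, .c, .b], [.a]], [.d]),
([[.b], [.a], [.a, .c, .d], [.a]], [.b]),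
([[.b], [.a], [.a, .d], [.a]], [.b, .c]),
([[.b], [.a], [.a, .d], [.a, .b]], [.c]),
([[.b], [.a], [.a, .d], [.a, .c]], [.b]),
([[.b], [.a], [.a, .d, .b], [.a]], [.c]),
([[.b], [.a], [.a, .d, .c], [.a]], [.b]),
([[.b], [.a], [.b], [.a, .a]], [.c, .d]),
([[.b], [.a], [.b], [.a, .a, .c]], [.d]),
([[.b], [.a, .b], [.a], [.a]], [.c, .d]),
([[.b], [.a, .b], [.a], [.a, .c]], [.d]),
([[.b], [.a, .b], [.a, .c], [.a]], [.d]),
([[.b], [.a], [.b, .c], [.a, .a]], [.d]),
([[.b], [.a, .b, .c], [.a], [.a]], [.d]),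
([[.b], [.a, .b, .d], [.a], [.a]], [.c]),
([[.b], [.a, .c], [.a], [.a]], [.b, .d]),
([[.b], [.a, .c], [.a], [.a, .b]], [.d]),
([[.b], [.a, .c], [.a, .b], [.a]], [.d]),
([[.b], [.a, .c], [.b], [.a, .a]], [.d]),
([[.b], [.a, .c, .b], [.a], [.a]], [.d]),
([[.b], [.a, .d], [.a], [.a]], [.b, .c]),
([[.b], [.a, .d], [.b], [.a, .a]], [.c]),
([[.b], [.a, .d, .b], [.a], [.a]], [.c]),
([[.b], [.b, .c], [.a], [.a, .a]], [.d]),
([[.b, .b, .c], [.a], [.a], [.a]], [.d]),
([[.b, .b, .d], [.a], [.a], [.a]], [.c]),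
([[.b, .c], [.a], [.a], [.a]], [.b, .d]),
([[.b, .c], [.a], [.a], [.a, .b]], [.d]),
([[.b, .c], [.a], [.a, .a], [.b]], [.d]),
([[.b, .c], [.a], [.a, .b], [.a]], [.d]),
([[.b, .c], [.a], [.b], [.a, .a]], [.d]),
([[.b, .d], [.a], [.a], [.a, .b]], [.c]),
([[.b, .d], [.a], [.a, .a], [.b]], [.c]),
([[.b, .d], [.a], [.a, .b], [.a]], [.c]),
([[.c], [.a], [.a, .a], [.b, .b]], [.d])]


variable (K : Type*) [Field K] [CharZero K]

theorem L3211 : 290 ≤ finrank K (lc K 4 ⊓ wt K ![3, 2, 1, 1] : Submodule K (FreeAlgebra K (Fin 4))) :=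
  lowerQ K 4 ![3, 2, 1, 1] tL3211 gL3211 (by decide +kernel)

end H957R3.LCS
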