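import Mathlib

/-! Counting semistandard Young tableaux by enumeration of fillings. -/

namespace H957R3.LCS

/-- compatibility of two filled cells -/
def Cp (p q : (ℕ × ℕ) × ℕ) : Prop :=
  (p.1.1 = q.1.1 → (p.1.2 < q.1.2 → p.2 ≤ q.2) ∧ (q.1.2 < p.1.2 → q.2 ≤ p.2)) ∧
  (p.1.2 = q.1.2 → (p.1.1 < q.1.1 → p.2 < q.2) ∧ (q.1.1 < p.1.1 → q.2 < p.2))

/-- Boolean version of `Cp` -/
def cpb (p q : (ℕ × ℕ) × ℕ) : Bool :=
  (cond (Nat.beq p.1.1 q.1.1)
    (cond (Nat.blt p.1.2 q.1.2) (Nat.ble p.2 q.2)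
      (cond (Nat.blt q.1.2 p.1.2) (Nat.ble q.2 p.2) true)) true) &&
  (cond (Nat.beq p.1.2 q.1.2)
    (cond (Nat.blt p.1.1 q.1.1) (Nat.blt p.2 q.2)
      (cond (Nat.blt q.1.1 p.1.1) (Nat.blt q.2 p.2) true)) true)

theorem cpb_iff (p q : (ℕ × ℕ) × ℕ) : cpb p q = true ↔ Cp p q := by
  obtain ⟨⟨a, b⟩, x⟩ := p
  obtain ⟨⟨c, d⟩, y⟩ := q
  have e1 : Nat.beq a c = decide (a = c) := by
    rw [Bool.eq_iff_iff, decide_eq_true_iff, Nat.beq_eq]
  have e2 : Nat.beq b d = decide (b = d) := by
    rw [Bool.eq_iff_iff, decide_eq_true_iff, Nat.beq_eq]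
  have e3 : ∀ u v : ℕ, Nat.blt u v = decide (u < v) := by
    intro u v; rw [Bool.eq_iff_iff, decide_eq_true_iff, Nat.blt_eq]
  have e4 : ∀ u v : ℕ, Nat.ble u v = decide (u ≤ v) := by
    intro u v; rw [Bool.eq_iff_iff, decide_eq_true_iff, Nat.ble_eq]
  simp only [cpb, Cp, e1, e2, e3, e4, Bool.cond_decide, Bool.and_eq_true]
  split_ifs <;> simp_all <;> omega

instance Cp_symm : Std.Symm Cp := ⟨by
  rintro p q ⟨h1, h2⟩
  exact ⟨fun h => ⟨(h1 h.symm).2, (h1 h.symm).1⟩, fun h => ⟨(h2 h.symm).2, (h2 h.symm).1⟩⟩⟩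

theorem Cp_refl (p : (ℕ × ℕ) × ℕ) : Cp p p :=
  ⟨fun _ => ⟨fun h => absurd h (lt_irrefl _), fun h => absurd h (lt_irrefl _)⟩,
    fun _ => ⟨fun h => absurd h (lt_irrefl _), fun h => absurd h (lt_irrefl _)⟩⟩

/-- all compatible fillings of the cells `cs` by numbers `< n`. -/
def fills (n : ℕ) : List (ℕ × ℕ) → List (List ℕ)
  | [] => [[]]
  | c :: cs => (fills n cs).flatMap (fun v =>
      ((List.range n).filter (fun x => (cs.zip v).all (cpb (c, x)))).map (fun x => x :: v))

theorem mem_fills (n : ℕ) (cs : List (ℕ × ℕ)) (v : List ℕ) :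
    v ∈ fills n cs ↔ v.length = cs.length ∧ (∀ x ∈ v, x < n) ∧ (cs.zip v).Pairwise Cp := by
  induction cs generalizing v with
  | nil =>
    simp only [fills, List.mem_singleton, List.length_nil, List.zip_nil_left,
      List.Pairwise.nil, and_true]
    constructor
    · rintro rfl; simp
    · rintro ⟨h, -⟩; exact List.length_eq_zero_iff.1 h
  | cons c cs ih =>
    simp only [fills, List.mem_flatMap, List.mem_map, List.mem_filter, List.mem_range,
      List.all_eq_true, cpb_iff]
    constructor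
    · rintro ⟨v', hv', x, ⟨hx, hc⟩, rfl⟩
      obtain ⟨h1, h2, h3⟩ := (ih v').1 hv'
      refine ⟨by simp [h1], ?_, ?_⟩
      · intro y hy
        rcases List.mem_cons.1 hy with rfl | hy
        · exact hx
        · exact h2 y hy
      · rw [List.zip_cons_cons, List.pairwise_cons]
        exact ⟨hc, h3⟩
    · rintro ⟨h1, h2, h3⟩
      match v, h1, h2, h3 with
      | x :: v, h1, h2, h3 =>
        rw [List.zip_cons_cons, List.pairwise_cons] at h3
        exact ⟨v, (ih v).2 ⟨by simpa using h1, fun y hy => h2 y (by simp [hy]), h3.2⟩, x,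
          ⟨h2 x (by simp), h3.1⟩, rfl⟩

theorem nodup_fills (n : ℕ) (cs : List (ℕ × ℕ)) : (fills n cs).Nodup := by
  induction cs with
  | nil => simp [fills]
  | cons c cs ih =>
    rw [fills, List.nodup_flatMap]
    refine ⟨fun v _ => ?_, ?_⟩
    · refine List.Nodup.map (fun x y h => by simpa using h) ?_
      exact (List.nodup_range).filter _
    · refine List.Pairwise.imp ?_ ih
      intro v v' hne
      rw [Function.onFun, List.disjoint_left]
      intro u hu hu'
      simp only [List.mem_map] at hu hu'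
      obtain ⟨x, -, rfl⟩ := hu
      obtain ⟨y, -, h⟩ := hu'
      exact hne (List.cons.inj h).2.symm

/-- number of semistandard tableaux of given shape and content. -/
noncomputable def kos (μ : YoungDiagram) {n : ℕ} (β : Fin n → ℕ) : ℕ :=
  Nat.card {T : SemistandardYoungTableau μ // (∀ c ∈ μ.cells, T c.1 c.2 < n) ∧
    ∀ i : Fin n, (μ.cells.filter fun c => T c.1 c.2 = i).card = β i}

theorem zip_map_self (cs : List (ℕ × ℕ)) (f : ℕ × ℕ → ℕ) :
    cs.zip (cs.map f) = cs.map (fun c => (c, f c)) := by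
  induction cs with
  | nil => rfl
  | cons c cs ih => simp [ih]

theorem filter_card (μ : YoungDiagram) (cs : List (ℕ × ℕ)) (hnd : cs.Nodup)
    (hcs : ∀ c, c ∈ cs ↔ c ∈ μ.cells) (f : ℕ × ℕ → ℕ) (i : ℕ) :
    (μ.cells.filter fun c => f c = i).card = (cs.map f).count i := by
  have h : (μ.cells.filter fun c => f c = i) = (cs.filter (fun c => decide (f c = i))).toFinset := by
    ext c
    rw [Finset.mem_filter, List.mem_toFinset, List.mem_filter, hcs, decide_eq_true_iff]
  rw [h, List.toFinset_card_of_nodup (hnd.filter _),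
    List.count_eq_countP, List.countP_map, List.countP_eq_length_filter]
  congr 2

theorem mem_zip_getD {cs : List (ℕ × ℕ)} {v : List ℕ} (hlen : v.length = cs.length)
    {c : ℕ × ℕ} (hc : c ∈ cs) : (c, v.getD (cs.idxOf c) 0) ∈ cs.zip v := by
  have hk : cs.idxOf c < cs.length := List.idxOf_lt_length_of_mem hc
  have hk' : cs.idxOf c < (cs.zip v).length := by simp [hlen, hk]
  have h := List.getElem_mem hk'
  rw [List.getElem_zip, List.getElem_idxOf] at h
  rwa [List.getD_eq_getElem v 0 (by omega)]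

theorem Cp_of_fill {n : ℕ} {cs : List (ℕ × ℕ)} {v : List ℕ} (hv : v ∈ fills n cs)
    {c d : ℕ × ℕ} (hc : c ∈ cs) (hd : d ∈ cs) :
    Cp (c, v.getD (cs.idxOf c) 0) (d, v.getD (cs.idxOf d) 0) := by
  obtain ⟨h1, -, h3⟩ := (mem_fills n cs v).1 hv
  exact h3.forall_of_forall (fun x _ => Cp_refl x) (mem_zip_getD h1 hc) (mem_zip_getD h1 hd)

/-- the tableau defined by a filling. -/
noncomputable def ofFill (μ : YoungDiagram) (n : ℕ) (cs : List (ℕ × ℕ))
    (hcs : ∀ c, c ∈ cs ↔ c ∈ μ.cells) (v : List ℕ) (hv : v ∈ fills n cs) :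
    SemistandardYoungTableau μ where
  entry i j := v.getD (cs.idxOf (i, j)) 0
  row_weak' := by
    intro i j1 j2 hj h2
    have h1 : (i, j1) ∈ μ := μ.up_left_mem le_rfl hj.le h2
    exact ((Cp_of_fill hv ((hcs _).2 h1) ((hcs _).2 h2)).1 rfl).1 hj
  col_strict' := by
    intro i1 i2 j hi h2
    have h1 : (i1, j) ∈ μ := μ.up_left_mem hi.le le_rfl h2
    exact ((Cp_of_fill hv ((hcs _).2 h1) ((hcs _).2 h2)).2 rfl).1 hi
  zeros' := by
    intro i j h
    have h1 : (i, j) ∉ cs := fun h' => h ((hcs _).1 h')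
    rw [List.idxOf_eq_length h1, ← ((mem_fills n cs v).1 hv).1]
    simp

theorem map_ofFill (μ : YoungDiagram) (n : ℕ) (cs : List (ℕ × ℕ)) (hnd : cs.Nodup)
    (hcs : ∀ c, c ∈ cs ↔ c ∈ μ.cells) (v : List ℕ) (hv : v ∈ fills n cs) :
    cs.map (fun c => ofFill μ n cs hcs v hv c.1 c.2) = v := by
  have hlen := ((mem_fills n cs v).1 hv).1
  apply List.ext_getElem
  · simp [hlen]
  · intro k h1 h2
    rw [List.getElem_map]
    show v.getD (cs.idxOf (cs[k].1, cs[k].2)) 0 = v[k]
    rw [Prod.mk.eta, hnd.idxOf_getElem k, List.getD_eq_getElem v 0 h2]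

theorem map_mem_fills (μ : YoungDiagram) (n : ℕ) (cs : List (ℕ × ℕ))
    (hcs : ∀ c, c ∈ cs ↔ c ∈ μ.cells) (T : SemistandardYoungTableau μ)
    (hT : ∀ c ∈ μ.cells, T c.1 c.2 < n) : cs.map (fun c => T c.1 c.2) ∈ fills n cs := by
  rw [mem_fills]
  refine ⟨by simp, ?_, ?_⟩
  · intro x hx
    obtain ⟨c, hc, rfl⟩ := List.mem_map.1 hx
    exact hT c ((hcs c).1 hc)
  · rw [zip_map_self, List.pairwise_map]
    refine (List.pairwise_of_forall_mem_list ?_)
    intro c hc d hd
    have hc' : (c.1, c.2) ∈ μ := (hcs c).1 hc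
    have hd' : (d.1, d.2) ∈ μ := (hcs d).1 hd
    refine ⟨fun h => ⟨fun h1 => ?_, fun h1 => ?_⟩, fun h => ⟨fun h1 => ?_, fun h1 => ?_⟩⟩
    · simp only at h h1 ⊢
      rw [h]
      exact T.row_weak h1 (h ▸ hd')
    · simp only at h h1 ⊢
      rw [h]
      exact T.row_weak h1 (h ▸ hc')
    · simp only at h h1 ⊢
      rw [h]
      exact T.col_strict h1 (h ▸ hd')
    · simp only at h h1 ⊢
      rw [h]
      exact T.col_strict h1 (h ▸ hc')

theorem card_list {γ : Type*} (l : List γ) (h : l.Nodup) : Nat.card {v // v ∈ l} = l.length := by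
  classical
  have h1 : Nat.card {v // v ∈ l} = Nat.card {v // v ∈ l.toFinset} :=
    Nat.card_congr (Equiv.subtypeEquivRight (fun v => List.mem_toFinset.symm))
  rw [h1, Nat.card_eq_fintype_card, Fintype.card_coe, List.toFinset_card_of_nodup h]

theorem kos_eq (μ : YoungDiagram) (cs : List (ℕ × ℕ)) (hnd : cs.Nodup)
    (hcs : ∀ c, c ∈ cs ↔ c ∈ μ.cells) {n : ℕ} (β : Fin n → ℕ) :
    kos μ β = (fills n cs).countP (fun v => decide (∀ i : Fin n, v.count (i : ℕ) = β i)) := by
  have hcard : Nat.card {v // v ∈ (fills n cs).filter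
      (fun v => decide (∀ i : Fin n, v.count (i : ℕ) = β i))} =
      (fills n cs).countP (fun v => decide (∀ i : Fin n, v.count (i : ℕ) = β i)) := by
    rw [List.countP_eq_length_filter]
    exact card_list _ ((nodup_fills n cs).filter _)
  rw [← hcard, kos]
  refine Nat.card_congr ⟨fun T => ⟨cs.map (fun c => T.1 c.1 c.2), ?_⟩,
    fun v => ⟨ofFill μ n cs hcs v.1 (List.mem_filter.1 v.2).1, ?_, ?_⟩, ?_, ?_⟩
  · rw [List.mem_filter, decide_eq_true_iff]
    refine ⟨map_mem_fills μ n cs hcs T.1 T.2.1, fun i => ?_⟩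
    rw [← T.2.2 i]
    exact (filter_card μ cs hnd hcs (fun c => T.1 c.1 c.2) i).symm
  · intro c hc
    have hv := (List.mem_filter.1 v.2).1
    have h1 := (mem_fills n cs v.1).1 hv
    have h2 := mem_zip_getD h1.1 ((hcs c).2 hc)
    exact h1.2.1 _ (List.of_mem_zip h2).2
  · intro i
    have hv := (List.mem_filter.1 v.2)
    rw [decide_eq_true_iff] at hv
    rw [← hv.2 i]
    have := filter_card μ cs hnd hcs
      (fun c => ofFill μ n cs hcs v.1 (List.mem_filter.1 v.2).1 c.1 c.2) i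
    rw [this, map_ofFill μ n cs hnd hcs v.1 hv.1]
  · intro T
    apply Subtype.ext
    apply SemistandardYoungTableau.ext
    intro i j
    by_cases h : (i, j) ∈ cs
    · show (cs.map (fun c => T.1 c.1 c.2)).getD (cs.idxOf (i, j)) 0 = T.1 i j
      have hk : cs.idxOf (i, j) < cs.length := List.idxOf_lt_length_of_mem h
      rw [List.getD_eq_getElem _ 0 (by simpa using hk), List.getElem_map, List.getElem_idxOf]
    · have h' : (i, j) ∉ μ := fun h' => h ((hcs _).2 h')
      rw [SemistandardYoungTableau.zeros _ h', SemistandardYoungTableau.zeros _ h']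
  · intro v
    apply Subtype.ext
    exact map_ofFill μ n cs hnd hcs v.1 (List.mem_filter.1 v.2).1

/-! ### Cells of a diagram given by its row lengths -/

/-- cells -/
def cells (i : ℕ) : List ℕ → List (ℕ × ℕ)
  | [] => []
  | r :: w => (List.range r).map (fun j => (i, j)) ++ cells (i + 1) w

theorem mem_cells (i : ℕ) (w : List ℕ) (c : ℕ × ℕ) :
    c ∈ cells i w ↔ i ≤ c.1 ∧ c.2 < w.getD (c.1 - i) 0 := by
  obtain ⟨a, b⟩ := c
  induction w generalizing i with
  | nil => simp [cells]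
  | cons r w ih =>
    rw [cells, List.mem_append, ih]
    simp only [List.mem_map, List.mem_range, Prod.mk.injEq]
    constructor
    · rintro (⟨j, hj, rfl, rfl⟩ | ⟨h1, h2⟩)
      · simpa using hj
      · refine ⟨by omega, ?_⟩
        rw [show a - i = (a - (i + 1)) + 1 by omega, List.getD_cons_succ]
        exact h2
    · rintro ⟨h1, h2⟩
      rcases Nat.eq_or_lt_of_le h1 with h | h
      · subst h
        left
        exact ⟨b, by simpa using h2, rfl, rfl⟩
      · right
        refine ⟨by omega, ?_⟩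
        rw [show a - i = (a - (i + 1)) + 1 by omega, List.getD_cons_succ] at h2
        exact h2

theorem nodup_cells (i : ℕ) (w : List ℕ) : (cells i w).Nodup := by
  induction w generalizing i with
  | nil => simp [cells]
  | cons r w ih =>
    rw [cells, List.nodup_append']
    refine ⟨List.Nodup.map (fun x y h => by simpa using h) List.nodup_range, ih _, ?_⟩
    rw [List.disjoint_left]
    intro c hc hc'
    obtain ⟨j, -, rfl⟩ := List.mem_map.1 hc
    have := ((mem_cells _ _ _).1 hc').1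
    simp only at this
    omega

theorem mem_cells_iff {w : List ℕ} (hw : w.SortedGE) (c : ℕ × ℕ) :
    c ∈ cells 0 w ↔ c ∈ (YoungDiagram.ofRowLens w hw).cells := by
  rw [mem_cells, YoungDiagram.mem_cells, YoungDiagram.mem_ofRowLens]
  simp only [Nat.zero_le, true_and, Nat.sub_zero]
  constructor
  · intro h
    by_cases h1 : c.1 < w.length
    · exact ⟨h1, by rwa [List.getD_eq_getElem _ _ h1] at h⟩
    · rw [List.getD_eq_default _ _ (by omega)] at h
      omega
  · rintro ⟨h1, h2⟩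
    rwa [List.getD_eq_getElem _ _ h1]

theorem kos_ofRowLens {w : List ℕ} (hw : w.SortedGE) {n : ℕ} (β : Fin n → ℕ) :
    kos (YoungDiagram.ofRowLens w hw) β =
      (fills n (cells 0 w)).countP (fun v => decide (∀ i : Fin n, v.count (i : ℕ) = β i)) :=
  kos_eq _ (cells 0 w) (nodup_cells 0 w) (mem_cells_iff hw) β

theorem sum_countP {n : ℕ} (α : Fin n → ℕ) (l : List (List ℕ)) :
    ∑ β ∈ Finset.Iic α, l.countP (fun v => decide (∀ i : Fin n, v.count (i : ℕ) = β i))
      = l.countP (fun v => decide (∀ i : Fin n, v.count (i : ℕ) ≤ α i)) := by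
  induction l with
  | nil => simp
  | cons v l ih =>
    simp only [List.countP_cons, Finset.sum_add_distrib, ih]
    congr 1
    have h : ∀ β : Fin n → ℕ, (decide (∀ i : Fin n, v.count (i : ℕ) = β i) = true) ↔
        β = fun i : Fin n => v.count (i : ℕ) := by
      intro β
      rw [decide_eq_true_iff]
      constructor
      · intro h; funext i; exact (h i).symm
      · rintro rfl i; rfl
    simp only [h]
    rw [Finset.sum_ite_eq']
    by_cases hv : ∀ i : Fin n, v.count (i : ℕ) ≤ α i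
    · rw [if_pos (Finset.mem_Iic.2 hv), if_pos (decide_eq_true hv)]
    · rw [if_neg (fun h => hv (Finset.mem_Iic.1 h)), if_neg (by simpa using hv)]

theorem sum_kos {w : List ℕ} (hw : w.SortedGE) {n : ℕ} (α : Fin n → ℕ) :
    ∑ β ∈ Finset.Iic α, kos (YoungDiagram.ofRowLens w hw) β =
      (fills n (cells 0 w)).countP (fun v => decide (∀ i : Fin n, v.count (i : ℕ) ≤ α i)) := by
  simp only [kos_ofRowLens]
  exact sum_countP α _

end H957R3.LCS
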