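import Mathlib
import Pool.Agent.H957R3.LT

/-! The inequality between the weight multiplicities of the functors `G_λ`. -/

namespace H957R3.LCS

/-- content test -/
def lt4 (a b c d : ℕ) (v : List ℕ) : Bool :=
  Nat.ble (v.count 0) a && Nat.ble (v.count 1) b && Nat.ble (v.count 2) c && Nat.ble (v.count 3) d

/-- computed weight multiplicity -/
def gC (w : List ℕ) (a b c d : ℕ) : ℕ :=
  ((List.range (a + b + c + d + 1)).map (fun j =>
    (fills 4 (cells 0 (w ++ List.replicate (2 * j) 1))).countP (lt4 a b c d))).sum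

/-- the inequality to be checked -/
def ineq (w : List ℕ) : Bool :=
  Nat.ble (12 * gC w 3 2 0 0 + 11 * gC w 2 2 1 0)
    (2 * gC w 3 2 1 1 + 21 * gC w 2 2 0 0 + 4 * gC w 3 1 1 0)

/-- sortedness test -/
def sortedB : List ℕ → Bool
  | [] => true
  | a :: w => w.all (fun b => Nat.ble b a) && sortedB w

/-- lists of positive integers with at most `k` entries and sum at most `n`. -/
def comps : ℕ → ℕ → List (List ℕ)
  | 0, _ => [[]]
  | k + 1, n => [] :: (List.range n).flatMap (fun r => (comps k (n - (r + 1))).map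
      (fun w => (r + 1) :: w))

theorem check : (comps 5 5).all (fun w => !sortedB w || ineq w) = true := by decide +kernel

theorem mem_comps (k n : ℕ) (w : List ℕ) (hpos : ∀ x ∈ w, 0 < x) (hk : w.length ≤ k)
    (hn : w.sum ≤ n) : w ∈ comps k n := by
  induction k generalizing n w with
  | zero =>
    rw [Nat.le_zero, List.length_eq_zero_iff] at hk
    subst hk
    simp [comps]
  | succ k ih =>
    rw [comps]
    match w, hpos, hk, hn with
    | [], _, _, _ => simp
    | x :: w, hpos, hk, hn =>
      have hx : 0 < x := hpos x (by simp)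
      rw [List.sum_cons] at hn
      refine List.mem_cons_of_mem _ (List.mem_flatMap.2 ⟨x - 1, List.mem_range.2 (by omega), ?_⟩)
      refine List.mem_map.2 ⟨w, ih _ w (fun y hy => hpos y (by simp [hy])) (by simpa using hk)
        (by omega), ?_⟩
      rw [Nat.sub_add_cancel hx]

theorem sortedB_of (w : List ℕ) (h : w.Pairwise (fun a b => b ≤ a)) : sortedB w = true := by
  induction w with
  | nil => rfl
  | cons a w ih =>
    rw [List.pairwise_cons] at h
    rw [sortedB, Bool.and_eq_true, List.all_eq_true]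
    exact ⟨fun b hb => Nat.ble_eq_true_of_le (h.1 b hb), ih h.2⟩

theorem length_le_sum (w : List ℕ) (hpos : ∀ x ∈ w, 0 < x) : w.length ≤ w.sum := by
  induction w with
  | nil => simp
  | cons a w ih =>
    have := hpos a (by simp)
    have := ih (fun x hx => hpos x (by simp [hx]))
    rw [List.length_cons, List.sum_cons]
    omega

theorem length_cells (i : ℕ) (w : List ℕ) : (cells i w).length = w.sum := by
  induction w generalizing i with
  | nil => rfl
  | cons a w ih => rw [cells, List.length_append, ih]; simp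

theorem card_ofRowLens {w : List ℕ} (hw : w.SortedGE) :
    (YoungDiagram.ofRowLens w hw).cells.card = w.sum := by
  have h : (YoungDiagram.ofRowLens w hw).cells = (cells 0 w).toFinset := by
    ext c; rw [List.mem_toFinset, mem_cells_iff hw]
  rw [h, List.toFinset_card_of_nodup (nodup_cells 0 w), length_cells]

theorem sum_rowLens (μ : YoungDiagram) : μ.rowLens.sum = μ.cells.card := by
  rw [← card_ofRowLens μ.rowLens_sorted, YoungDiagram.ofRowLens_to_rowLens_eq_self]

/-- the tableau number vanishes unless the content has the right size. -/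
theorem kos_eq_zero (μ : YoungDiagram) {n : ℕ} (β : Fin n → ℕ) (h : ∑ i, β i ≠ μ.cells.card) :
    kos μ β = 0 := by
  rw [kos, Nat.card_eq_zero]
  left
  constructor
  rintro ⟨T, h1, h2⟩
  apply h
  have h3 : μ.cells.card = ∑ i ∈ Finset.range n, (μ.cells.filter fun c => T c.1 c.2 = i).card :=
    Finset.card_eq_sum_card_fiberwise (fun c hc => Finset.mem_coe.2 (Finset.mem_range.2 (h1 c hc)))
  rw [h3, Finset.sum_range]
  exact Finset.sum_congr rfl (fun i _ => (h2 i).symm)

/-- `(λ, 1^m)` -/
def addO (μ : YoungDiagram) (m : ℕ) : YoungDiagram :=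
  YoungDiagram.ofRowLens (μ.rowLens ++ List.replicate m 1) (by
    rw [List.sortedGE_iff_pairwise, List.pairwise_append]
    refine ⟨μ.rowLens_sorted.pairwise, ?_, ?_⟩
    · exact List.pairwise_replicate.2 (Or.inr le_rfl)
    · intro a ha b hb
      rw [List.eq_of_mem_replicate hb]
      exact μ.pos_of_mem_rowLens a ha)

theorem card_addO (μ : YoungDiagram) (m : ℕ) : (addO μ m).cells.card = μ.cells.card + m := by
  rw [addO, card_ofRowLens, List.sum_append, sum_rowLens]
  simp

/-- weight multiplicity of `G_λ`. -/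
noncomputable def mG (lam : YoungDiagram) (n : ℕ) (α : Fin n → ℕ) : ℕ :=
  ∑ j ∈ Finset.range (∑ i, α i + 1), ∑ β ∈ Finset.Iic α, kos (addO lam (2 * j)) β

theorem mG_eq_zero (lam : YoungDiagram) (n : ℕ) (α : Fin n → ℕ) (h : ∑ i, α i < lam.cells.card) :
    mG lam n α = 0 := by
  rw [mG]
  refine Finset.sum_eq_zero (fun j _ => Finset.sum_eq_zero (fun β hβ => ?_))
  apply kos_eq_zero
  rw [card_addO]
  have : ∑ i, β i ≤ ∑ i, α i := Finset.sum_le_sum (fun i _ => (Finset.mem_Iic.1 hβ) i)
  omega

theorem sum_range_list (f : ℕ → ℕ) (n : ℕ) :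
    ∑ j ∈ Finset.range n, f j = ((List.range n).map f).sum := by
  induction n with
  | zero => rfl
  | succ n ih => rw [Finset.sum_range_succ, ih, List.range_succ]; simp

theorem lt4_eq (a b c d : ℕ) (v : List ℕ) :
    decide (∀ i : Fin 4, v.count (i : ℕ) ≤ ![a, b, c, d] i) = lt4 a b c d v := by
  rw [Bool.eq_iff_iff, decide_eq_true_iff]
  simp only [lt4, Bool.and_eq_true]
  constructor
  · intro h
    exact ⟨⟨⟨Nat.ble_eq_true_of_le (h 0), Nat.ble_eq_true_of_le (h 1)⟩,
      Nat.ble_eq_true_of_le (h 2)⟩, Nat.ble_eq_true_of_le (h 3)⟩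
  · rintro ⟨⟨⟨h0, h1⟩, h2⟩, h3⟩ i
    match i with
    | 0 => exact Nat.le_of_ble_eq_true h0
    | 1 => exact Nat.le_of_ble_eq_true h1
    | 2 => exact Nat.le_of_ble_eq_true h2
    | 3 => exact Nat.le_of_ble_eq_true h3

theorem mG_eq (lam : YoungDiagram) (a b c d : ℕ) :
    mG lam 4 ![a, b, c, d] = gC lam.rowLens a b c d := by
  have h1 : ∑ i, ![a, b, c, d] i = a + b + c + d := by
    simp [Fin.sum_univ_four]
  rw [mG, gC, h1, sum_range_list]
  congr 1
  apply List.map_congr_left
  intro j _
  rw [addO, sum_kos]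
  congr 1
  funext v
  exact lt4_eq a b c d v

theorem ineq_all (lam : YoungDiagram) :
    12 * mG lam 4 ![3, 2, 0, 0] + 11 * mG lam 4 ![2, 2, 1, 0] ≤
      2 * mG lam 4 ![3, 2, 1, 1] + 21 * mG lam 4 ![2, 2, 0, 0] + 4 * mG lam 4 ![3, 1, 1, 0] := by
  by_cases h : lam.cells.card ≤ 5
  · simp only [mG_eq]
    have hpos := lam.pos_of_mem_rowLens
    have hs := sum_rowLens lam
    have hm : lam.rowLens ∈ comps 5 5 := mem_comps 5 5 _ hpos
      ((length_le_sum _ hpos).trans (by omega)) (by omega)
    have h2 := List.all_eq_true.1 check _ hm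
    rw [sortedB_of _ lam.rowLens_sorted.pairwise, Bool.not_true, Bool.false_or, ineq,
      Nat.ble_eq] at h2
    exact h2
  · rw [mG_eq_zero lam 4 ![3, 2, 0, 0] (by simp [Fin.sum_univ_four]; omega),
      mG_eq_zero lam 4 ![2, 2, 1, 0] (by simp [Fin.sum_univ_four]; omega)]
    simp

end H957R3.LCS
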