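import Pool.Agent.H957R3.PhiDefs

/-! Basic lemmas, the homomorphism `τ`, and the computation of `φ` in degree two. -/

open scoped TensorProduct

noncomputable section

set_option linter.unusedSectionVars false

namespace H957.ReederPhi

/-! ### Algebra homomorphisms out of a symmetric algebra -/

/-- The subalgebra generated by the commuting values of `f` is commutative. -/
abbrev adjoinRing {M B : Type} [AddCommGroup M] [Module ℂ M] [Ring B] [Algebra ℂ B]
    (f : M →ₗ[ℂ] B) (hf : ∀ x y, f x * f y = f y * f x) :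
    CommRing (Algebra.adjoin ℂ (Set.range f)) :=
  { (inferInstance : Ring (Algebra.adjoin ℂ (Set.range f))) with
    mul_comm := fun a b => by
      have h : IsMulCommutative (Algebra.adjoin ℂ (Set.range f)) :=
        Algebra.isMulCommutative_adjoin ℂ (by rintro _ ⟨x, rfl⟩ _ ⟨y, rfl⟩; exact hf x y)
      exact h.is_comm.comm a b }

/-- The algebra homomorphism `S(M) → B` extending a linear map `f : M → B` with commuting
values (the algebra `B` itself need not be commutative). -/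
def symLift {M B : Type} [AddCommGroup M] [Module ℂ M] [Ring B] [Algebra ℂ B]
    (f : M →ₗ[ℂ] B) (hf : ∀ x y, f x * f y = f y * f x) : SymmetricAlgebra ℂ M →ₐ[ℂ] B :=
  letI : CommRing (Algebra.adjoin ℂ (Set.range f)) := adjoinRing f hf
  (Algebra.adjoin ℂ (Set.range f)).val.comp
    (SymmetricAlgebra.lift
      (f.codRestrict (Subalgebra.toSubmodule (Algebra.adjoin ℂ (Set.range f)))
        (fun x => Algebra.subset_adjoin ⟨x, rfl⟩)))

theorem symLift_ι {M B : Type} [AddCommGroup M] [Module ℂ M] [Ring B] [Algebra ℂ B]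
    (f : M →ₗ[ℂ] B) (hf : ∀ x y, f x * f y = f y * f x) (x : M) :
    symLift f hf (SymmetricAlgebra.ι ℂ M x) = f x := by
  let _ : CommRing (Algebra.adjoin ℂ (Set.range f)) := adjoinRing f hf
  unfold symLift
  rw [AlgHom.comp_apply, SymmetricAlgebra.lift_ι_apply]
  rfl

section Lin

variable {g : Type} [AddCommGroup g] [Module ℂ g]

/-- Induction principle: multiplication by vectors on the left. -/
theorem left_ind {P : ExteriorAlgebra ℂ g → Prop}
    (h1 : ∀ r : ℂ, P (algebraMap ℂ (ExteriorAlgebra ℂ g) r))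
    (h2 : ∀ x y, P x → P y → P (x + y))
    (h3 : ∀ (m : g) x, P x → P (ExteriorAlgebra.ι ℂ m * x)) (x : ExteriorAlgebra ℂ g) : P x :=
  CliffordAlgebra.left_induction (Q := (0 : QuadraticForm ℂ g)) h1 h2 (fun x m h => h3 m x h) x

theorem ct_ι_mul (d : Module.Dual ℂ g) (a : g) (w : ExteriorAlgebra ℂ g) :
    CliffordAlgebra.contractLeft (Q := (0 : QuadraticForm ℂ g)) d (ExteriorAlgebra.ι ℂ a * w) =
      d a • w - ExteriorAlgebra.ι ℂ a *
        CliffordAlgebra.contractLeft (Q := (0 : QuadraticForm ℂ g)) d w :=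
  CliffordAlgebra.contractLeft_ι_mul (Q := (0 : QuadraticForm ℂ g)) d a w

theorem ι_mul_ι_swap (a b : g) :
    (ExteriorAlgebra.ι ℂ a * ExteriorAlgebra.ι ℂ b : ExteriorAlgebra ℂ g) =
      -(ExteriorAlgebra.ι ℂ b * ExteriorAlgebra.ι ℂ a) :=
  eq_neg_of_add_eq_zero_left (ExteriorAlgebra.ι_add_mul_swap a b)

theorem ι_mul_ι_central (a b : g) (w : ExteriorAlgebra ℂ g) :
    (ExteriorAlgebra.ι ℂ a * ExteriorAlgebra.ι ℂ b) * w =
      w * (ExteriorAlgebra.ι ℂ a * ExteriorAlgebra.ι ℂ b) := by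
  induction w using left_ind with
  | h1 r => exact (Algebra.commutes r _).symm
  | h2 x y hx hy => rw [mul_add, add_mul, hx, hy]
  | h3 m x hx =>
    have h : (ExteriorAlgebra.ι ℂ a * ExteriorAlgebra.ι ℂ b) * ExteriorAlgebra.ι ℂ m =
        ExteriorAlgebra.ι ℂ m * (ExteriorAlgebra.ι ℂ a * ExteriorAlgebra.ι ℂ b) := by
      rw [mul_assoc, ι_mul_ι_swap b m, mul_neg, ← mul_assoc, ι_mul_ι_swap a m, neg_mul, neg_neg,
        mul_assoc]
    rw [← mul_assoc, h, mul_assoc, hx, mul_assoc]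

/-! ### Derivations -/

/-- `deriv` as a linear map. -/
def derivLin [FiniteDimensional ℂ g] (T : g →ₗ[ℂ] g) :
    ExteriorAlgebra ℂ g →ₗ[ℂ] ExteriorAlgebra ℂ g where
  toFun := deriv T
  map_add' := fun v w => by
    simp only [deriv, map_add, mul_add, Finset.sum_add_distrib]
  map_smul' := fun c w => by
    simp only [deriv, map_smul, mul_smul_comm, Finset.smul_sum, RingHom.id_apply]

section derivLemmas

variable [FiniteDimensional ℂ g]

theorem deriv_apply (T : g →ₗ[ℂ] g) (w : ExteriorAlgebra ℂ g) :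
    derivLin T w = ∑ i, ExteriorAlgebra.ι ℂ (T (Module.finBasis ℂ g i)) *
      CliffordAlgebra.contractLeft (Q := (0 : QuadraticForm ℂ g))
        ((Module.finBasis ℂ g).coord i) w := rfl

theorem deriv_algebraMap (T : g →ₗ[ℂ] g) (r : ℂ) :
    derivLin T (algebraMap ℂ (ExteriorAlgebra ℂ g) r) = 0 := by
  rw [deriv_apply]
  refine Finset.sum_eq_zero fun i _ => ?_
  rw [CliffordAlgebra.contractLeft_algebraMap, mul_zero]

theorem deriv_one (T : g →ₗ[ℂ] g) : derivLin T (1 : ExteriorAlgebra ℂ g) = 0 := by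
  rw [← map_one (algebraMap ℂ (ExteriorAlgebra ℂ g)), deriv_algebraMap]

/-- The Leibniz rule. -/
theorem deriv_ι_mul (T : g →ₗ[ℂ] g) (y : g) (w : ExteriorAlgebra ℂ g) :
    derivLin T (ExteriorAlgebra.ι ℂ y * w) =
      ExteriorAlgebra.ι ℂ (T y) * w + ExteriorAlgebra.ι ℂ y * derivLin T w := by
  rw [deriv_apply, deriv_apply]
  have h1 : ∀ i, ExteriorAlgebra.ι ℂ (T (Module.finBasis ℂ g i)) *
      CliffordAlgebra.contractLeft (Q := (0 : QuadraticForm ℂ g))
        ((Module.finBasis ℂ g).coord i) (ExteriorAlgebra.ι ℂ y * w) =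
      ExteriorAlgebra.ι ℂ (T ((Module.finBasis ℂ g).repr y i • Module.finBasis ℂ g i)) * w +
      ExteriorAlgebra.ι ℂ y * (ExteriorAlgebra.ι ℂ (T (Module.finBasis ℂ g i)) *
      CliffordAlgebra.contractLeft (Q := (0 : QuadraticForm ℂ g))
        ((Module.finBasis ℂ g).coord i) w) := by
    intro i
    rw [ct_ι_mul, mul_sub, ← mul_assoc (ExteriorAlgebra.ι ℂ (T (Module.finBasis ℂ g i)))
      (ExteriorAlgebra.ι ℂ y), ι_mul_ι_swap (T (Module.finBasis ℂ g i)) y, map_smul, map_smul,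
      Module.Basis.coord_apply, mul_smul_comm, smul_mul_assoc, neg_mul, sub_neg_eq_add, mul_assoc]
  simp_rw [h1]
  rw [Finset.sum_add_distrib, ← Finset.sum_mul, ← Finset.mul_sum, ← map_sum, ← map_sum,
    (Module.finBasis ℂ g).sum_repr]

theorem deriv_ι (T : g →ₗ[ℂ] g) (y : g) :
    derivLin T (ExteriorAlgebra.ι ℂ y) = ExteriorAlgebra.ι ℂ (T y) := by
  have h := deriv_ι_mul T y (1 : ExteriorAlgebra ℂ g)
  rw [mul_one, mul_one, deriv_one, mul_zero, add_zero] at h
  exact h

theorem deriv_add (S T : g →ₗ[ℂ] g) : derivLin (S + T) = derivLin S + derivLin T := by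
  refine LinearMap.ext fun w => ?_
  simp only [LinearMap.add_apply, deriv_apply, map_add, add_mul, Finset.sum_add_distrib]

theorem deriv_smul (c : ℂ) (T : g →ₗ[ℂ] g) : derivLin (c • T) = c • derivLin T := by
  refine LinearMap.ext fun w => ?_
  simp only [LinearMap.smul_apply, deriv_apply, map_smul, smul_mul_assoc, Finset.smul_sum]

theorem deriv_bracket (S T : g →ₗ[ℂ] g) (w : ExteriorAlgebra ℂ g) :
    derivLin (S ∘ₗ T - T ∘ₗ S) w = derivLin S (derivLin T w) - derivLin T (derivLin S w) := by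
  induction w using left_ind with
  | h1 r => rw [deriv_algebraMap, deriv_algebraMap, deriv_algebraMap, map_zero, map_zero, sub_zero]
  | h2 x y hx hy => simp only [map_add, hx, hy]; abel
  | h3 m x hx =>
    rw [deriv_ι_mul, deriv_ι_mul, deriv_ι_mul, map_add, map_add, deriv_ι_mul, deriv_ι_mul,
      deriv_ι_mul, deriv_ι_mul, hx]
    simp only [LinearMap.sub_apply, LinearMap.comp_apply, map_sub, sub_mul, mul_sub]
    abel

end derivLemmas

/-! ### The pairing -/

/-- short name for the contraction -/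
abbrev ct (d : Module.Dual ℂ g) : ExteriorAlgebra ℂ g →ₗ[ℂ] ExteriorAlgebra ℂ g :=
  CliffordAlgebra.contractLeft (Q := (0 : QuadraticForm ℂ g)) d

/-- short name for the constant term -/
abbrev eps : ExteriorAlgebra ℂ g →ₐ[ℂ] ℂ := ExteriorAlgebra.algebraMapInv (R := ℂ) (M := g)

/-- The pairing as a bilinear map. -/
def pairLin (κ : g →ₗ[ℂ] Module.Dual ℂ g) :
    ExteriorAlgebra ℂ g →ₗ[ℂ] ExteriorAlgebra ℂ g →ₗ[ℂ] ℂ :=
  LinearMap.compr₂
    (CliffordAlgebra.foldl (0 : QuadraticForm ℂ g) (kcontr κ) (kcontr_kcontr κ)).flip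
    (ExteriorAlgebra.algebraMapInv (R := ℂ) (M := g)).toLinearMap

theorem pairLin_apply (κ : g →ₗ[ℂ] Module.Dual ℂ g) (a w : ExteriorAlgebra ℂ g) :
    pairLin κ a w = pairing κ a w := rfl

theorem eps_ι_mul (x : g) (w : ExteriorAlgebra ℂ g) : eps (ExteriorAlgebra.ι ℂ x * w) = 0 := by
  rw [map_mul]
  simp [eps, ExteriorAlgebra.algebraMapInv]

theorem pairing_one (κ : g →ₗ[ℂ] Module.Dual ℂ g) (w : ExteriorAlgebra ℂ g) :
    pairLin κ 1 w = eps w := by
  rw [pairLin_apply, pairing]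
  erw [CliffordAlgebra.foldl_one]

theorem pairing_ι_mul (κ : g →ₗ[ℂ] Module.Dual ℂ g) (x : g) (a w : ExteriorAlgebra ℂ g) :
    pairLin κ (ExteriorAlgebra.ι ℂ x * a) w = pairLin κ a (ct (κ x) w) := by
  have h := CliffordAlgebra.foldl_mul (0 : QuadraticForm ℂ g) (kcontr κ) (kcontr_kcontr κ) w
    (ExteriorAlgebra.ι ℂ x) a
  have h2 := CliffordAlgebra.foldl_ι (0 : QuadraticForm ℂ g) (kcontr κ) (kcontr_kcontr κ) w x
  rw [pairLin_apply, pairLin_apply, pairing, pairing, h]
  erw [h2]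
  rfl

theorem pairing_two (κ : g →ₗ[ℂ] Module.Dual ℂ g) (y z : g) (w : ExteriorAlgebra ℂ g) :
    pairLin κ (ExteriorAlgebra.ι ℂ y * ExteriorAlgebra.ι ℂ z) w =
      eps (ct (κ z) (ct (κ y) w)) := by
  have h := pairing_ι_mul κ y (ExteriorAlgebra.ι ℂ z * 1) w
  rw [mul_one] at h
  rw [h]
  have h3 := pairing_ι_mul κ z 1 (ct (κ y) w)
  rw [mul_one] at h3
  rw [h3, pairing_one]

theorem eps_ct_ct (d e : Module.Dual ℂ g) (u v : g) (w : ExteriorAlgebra ℂ g) :
    eps (ct e (ct d (ExteriorAlgebra.ι ℂ u * (ExteriorAlgebra.ι ℂ v * w)))) =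
      (d u * e v - d v * e u) * eps w := by
  rw [ct_ι_mul, ct_ι_mul, map_sub, map_smul, ct_ι_mul, ct_ι_mul]
  simp only [map_sub, map_smul, eps_ι_mul, smul_eq_mul]
  ring

end Lin

section Lie

variable {g : Type} [LieRing g] [LieAlgebra ℂ g] [FiniteDimensional ℂ g]

theorem act_apply (x : g) (w : ExteriorAlgebra ℂ g) :
    act x w = derivLin (LieAlgebra.ad ℂ g x : g →ₗ[ℂ] g) w := rfl

/-- `Λ g` as a `g`-module. -/
instance exteriorLieRingModule : LieRingModule g (ExteriorAlgebra ℂ g) where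
  bracket x w := act x w
  add_lie x y w := by
    change act (x + y) w = act x w + act y w
    rw [act_apply, act_apply, act_apply, map_add, deriv_add, LinearMap.add_apply]
  lie_add x v w := by
    change act x (v + w) = act x v + act x w
    rw [act_apply, act_apply, act_apply, map_add]
  leibniz_lie x y w := by
    change act x (act y w) = act ⁅x, y⁆ w + act y (act x w)
    rw [act_apply, act_apply, act_apply, act_apply, act_apply]
    have h := deriv_bracket (LieAlgebra.ad ℂ g x : g →ₗ[ℂ] g) (LieAlgebra.ad ℂ g y : g →ₗ[ℂ] g) w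
    have h2 : (LieAlgebra.ad ℂ g ⁅x, y⁆ : g →ₗ[ℂ] g) =
        (LieAlgebra.ad ℂ g x : g →ₗ[ℂ] g) ∘ₗ (LieAlgebra.ad ℂ g y : g →ₗ[ℂ] g) -
        (LieAlgebra.ad ℂ g y : g →ₗ[ℂ] g) ∘ₗ (LieAlgebra.ad ℂ g x : g →ₗ[ℂ] g) := by
      refine LinearMap.ext fun z => ?_
      simp only [LinearMap.sub_apply, LinearMap.comp_apply, LieAlgebra.ad_apply, lie_lie]
    rw [h2, h]
    abel

theorem lie_ext_def (x : g) (w : ExteriorAlgebra ℂ g) :
    ⁅x, w⁆ = derivLin (LieAlgebra.ad ℂ g x : g →ₗ[ℂ] g) w := rfl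

instance exteriorLieModule : LieModule ℂ g (ExteriorAlgebra ℂ g) where
  smul_lie t x w := by
    rw [lie_ext_def, lie_ext_def, map_smul, deriv_smul, LinearMap.smul_apply]
  lie_smul t x w := by
    rw [lie_ext_def, lie_ext_def, map_smul]

variable [LieAlgebra.IsKilling ℂ g]

/-- `s` as a linear map. -/
def sMap (g : Type) [LieRing g] [LieAlgebra ℂ g] [FiniteDimensional ℂ g]
    [LieAlgebra.IsKilling ℂ g] : g →ₗ[ℂ] ExteriorAlgebra ℂ g where
  toFun := sFun
  map_add' := fun x y => by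
    simp only [sFun, lie_add, map_add, mul_add, Finset.sum_add_distrib, smul_add]
  map_smul' := fun c x => by
    simp only [sFun, lie_smul, map_smul, mul_smul_comm, ← Finset.smul_sum, RingHom.id_apply]
    rw [smul_comm]

theorem sMap_apply (x : g) : sMap g x =
    (1 / 2 : ℂ) • ∑ i, ExteriorAlgebra.ι ℂ (Module.finBasis ℂ g i) *
      ExteriorAlgebra.ι ℂ ⁅LinearMap.BilinForm.dualBasis (killingForm ℂ g)
        (LieAlgebra.IsKilling.killingForm_nondegenerate ℂ g) (Module.finBasis ℂ g) i, x⁆ := rfl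

theorem sMap_central (x : g) (w : ExteriorAlgebra ℂ g) : sMap g x * w = w * sMap g x := by
  rw [sMap_apply, smul_mul_assoc, mul_smul_comm, Finset.sum_mul, Finset.mul_sum]
  congr 1
  exact Finset.sum_congr rfl fun i _ => ι_mul_ι_central _ _ w

/-- `ad`-invariance of the Killing form -/
theorem kill_inv (x y z : g) : killingForm ℂ g ⁅x, y⁆ z = killingForm ℂ g x ⁅y, z⁆ :=
  LieModule.traceForm_apply_lie_apply ℂ g g x y z

theorem kill_symm (x y : g) : killingForm ℂ g x y = killingForm ℂ g y x :=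
  LieModule.traceForm_comm ℂ g g x y

theorem sum_dual (y w : g) :
    ∑ i, killingForm ℂ g y (Module.finBasis ℂ g i) *
      killingForm ℂ g w (LinearMap.BilinForm.dualBasis (killingForm ℂ g)
        (LieAlgebra.IsKilling.killingForm_nondegenerate ℂ g) (Module.finBasis ℂ g) i) =
      killingForm ℂ g y w := by
  set b := Module.finBasis ℂ g
  set d := LinearMap.BilinForm.dualBasis (killingForm ℂ g)
        (LieAlgebra.IsKilling.killingForm_nondegenerate ℂ g) b with hd
  have h1 : ∀ i, killingForm ℂ g w (d i) = b.repr w i := by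
    intro i
    conv_lhs => rw [← b.sum_repr w]
    rw [map_sum, LinearMap.sum_apply]
    simp only [map_smul, LinearMap.smul_apply, smul_eq_mul]
    rw [Finset.sum_eq_single i]
    · rw [kill_symm, hd, LinearMap.BilinForm.apply_dualBasis_left, if_pos rfl, mul_one]
    · intro j _ hj
      rw [kill_symm, hd, LinearMap.BilinForm.apply_dualBasis_left, if_neg hj, mul_zero]
    · intro h; exact absurd (Finset.mem_univ i) h
  simp_rw [h1]
  conv_rhs => rw [← b.sum_repr w, map_sum]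
  refine Finset.sum_congr rfl fun i _ => ?_
  rw [map_smul, smul_eq_mul, mul_comm]

theorem eps_ct_ct_sMap (h y z : g) (w : ExteriorAlgebra ℂ g) :
    eps (ct (killingForm ℂ g z) (ct (killingForm ℂ g y) (sMap g h * w))) =
      -killingForm ℂ g h ⁅y, z⁆ * eps w := by
  have h1 := sum_dual y ⁅h, z⁆
  have h2 := sum_dual z ⁅h, y⁆
  rw [sMap_apply, smul_mul_assoc, Finset.sum_mul, map_smul, map_smul, map_smul, map_sum, map_sum,
    map_sum]
  simp_rw [mul_assoc, eps_ct_ct]
  rw [← Finset.sum_mul]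
  have e1 : ∀ i, killingForm ℂ g z ⁅LinearMap.BilinForm.dualBasis (killingForm ℂ g)
        (LieAlgebra.IsKilling.killingForm_nondegenerate ℂ g) (Module.finBasis ℂ g) i, h⁆ =
      killingForm ℂ g ⁅h, z⁆ (LinearMap.BilinForm.dualBasis (killingForm ℂ g)
        (LieAlgebra.IsKilling.killingForm_nondegenerate ℂ g) (Module.finBasis ℂ g) i) := by
    intro i
    rw [← lie_skew, ← lie_skew h z, map_neg, map_neg, LinearMap.neg_apply, kill_inv]
  have e2 : ∀ i, killingForm ℂ g y ⁅LinearMap.BilinForm.dualBasis (killingForm ℂ g)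
        (LieAlgebra.IsKilling.killingForm_nondegenerate ℂ g) (Module.finBasis ℂ g) i, h⁆ =
      killingForm ℂ g ⁅h, y⁆ (LinearMap.BilinForm.dualBasis (killingForm ℂ g)
        (LieAlgebra.IsKilling.killingForm_nondegenerate ℂ g) (Module.finBasis ℂ g) i) := by
    intro i
    rw [← lie_skew, ← lie_skew h y, map_neg, map_neg, LinearMap.neg_apply, kill_inv]
  simp_rw [e1, e2]
  rw [Finset.sum_sub_distrib, h1]
  have h3 : ∑ x, killingForm ℂ g ⁅h, y⁆ (LinearMap.BilinForm.dualBasis (killingForm ℂ g)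
        (LieAlgebra.IsKilling.killingForm_nondegenerate ℂ g) (Module.finBasis ℂ g) x) *
        killingForm ℂ g z (Module.finBasis ℂ g x) = killingForm ℂ g z ⁅h, y⁆ := by
    rw [← h2]
    exact Finset.sum_congr rfl fun i _ => mul_comm _ _
  rw [h3, kill_symm z, kill_inv h y z, ← kill_inv y h z, ← lie_skew y h, map_neg,
    LinearMap.neg_apply, kill_inv h y z, smul_eq_mul]
  ring

section Tau

variable {h : Type} [AddCommGroup h] [Module ℂ h]

/-- The algebra homomorphism `τ : S(h) → Λ g` extending `s ∘ j` for a linear map `j : h → g`. -/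
def tau (j : h →ₗ[ℂ] g) : SymmetricAlgebra ℂ h →ₐ[ℂ] ExteriorAlgebra ℂ g :=
  symLift (sMap g ∘ₗ j) (fun x y => sMap_central (j x) (sMap g (j y)))

theorem tau_ι (j : h →ₗ[ℂ] g) (x : h) :
    tau j (SymmetricAlgebra.ι ℂ h x) = sMap g (j x) :=
  symLift_ι _ _ x

/-- The degree two part of `τ b`, up to the constant term. -/
theorem tau_deg_two (j : h →ₗ[ℂ] g) (b : SymmetricAlgebra ℂ h) :
    ∃ (t : g) (c : ℂ), ∀ (y z : g) (w : ExteriorAlgebra ℂ g),
      eps (ct (killingForm ℂ g z) (ct (killingForm ℂ g y) (tau j b * w))) =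
        killingForm ℂ g t ⁅y, z⁆ * eps w +
          c * eps (ct (killingForm ℂ g z) (ct (killingForm ℂ g y) w)) := by
  induction b using SymmetricAlgebra.induction with
  | algebraMap r =>
    refine ⟨0, r, fun y z w => ?_⟩
    rw [AlgHom.commutes, ← Algebra.smul_def, map_smul, map_smul, map_smul, map_zero,
      LinearMap.zero_apply, zero_mul, zero_add, smul_eq_mul]
  | ι u =>
    refine ⟨-(j u), 0, fun y z w => ?_⟩
    rw [tau_ι, eps_ct_ct_sMap, map_neg, LinearMap.neg_apply, zero_mul, add_zero]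
  | mul a b ha hb =>
    obtain ⟨t1, c1, h1⟩ := ha
    obtain ⟨t2, c2, h2⟩ := hb
    refine ⟨eps (tau j b) • t1 + c1 • t2, c1 * c2, fun y z w => ?_⟩
    rw [map_mul (tau j), mul_assoc, h1, h2, map_mul eps]
    simp only [map_add, map_smul, LinearMap.add_apply, LinearMap.smul_apply, smul_eq_mul]
    ring
  | add a b ha hb =>
    obtain ⟨t1, c1, h1⟩ := ha
    obtain ⟨t2, c2, h2⟩ := hb
    refine ⟨t1 + t2, c1 + c2, fun y z w => ?_⟩
    rw [map_add, add_mul, map_add, map_add, map_add, h1, h2]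
    simp only [map_add, LinearMap.add_apply]
    ring

/-- The map `φ : Λ g → A^*`, the transpose of `τ|_A`. -/
def phi (j : h →ₗ[ℂ] g) (A : Submodule ℂ (SymmetricAlgebra ℂ h)) :
    ExteriorAlgebra ℂ g →ₗ[ℂ] Module.Dual ℂ A :=
  LinearMap.compl₂ (pairLin (killingForm ℂ g)) ((tau j).toLinearMap ∘ₗ A.subtype)

theorem phi_apply (j : h →ₗ[ℂ] g) (A : Submodule ℂ (SymmetricAlgebra ℂ h))
    (w : ExteriorAlgebra ℂ g) (a : A) :
    phi j A w a = pairLin (killingForm ℂ g) w (tau j (a : SymmetricAlgebra ℂ h)) := rfl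

end Tau

/-- The functional `h ↦ ⟨w, s h⟩`. -/
def bFun : ExteriorAlgebra ℂ g →ₗ[ℂ] Module.Dual ℂ g :=
  LinearMap.compl₂ (pairLin (killingForm ℂ g)) (sMap g)

theorem bFun_apply (w : ExteriorAlgebra ℂ g) (h : g) :
    bFun w h = pairLin (killingForm ℂ g) w (sMap g h) := rfl

theorem eps_ct_ct_one (d e : Module.Dual ℂ g) :
    eps (ct e (ct d (1 : ExteriorAlgebra ℂ g))) = 0 := by
  rw [ct, CliffordAlgebra.contractLeft_one, map_zero, map_zero]

theorem bFun_two (y z h : g) :
    bFun (ExteriorAlgebra.ι ℂ y * ExteriorAlgebra.ι ℂ z) h = -killingForm ℂ g h ⁅y, z⁆ := by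
  rw [bFun_apply, pairing_two]
  have h1 := eps_ct_ct_sMap h y z (1 : ExteriorAlgebra ℂ g)
  rw [mul_one, map_one, mul_one] at h1
  exact h1

theorem phi_two {h : Type} [AddCommGroup h] [Module ℂ h] (j : h →ₗ[ℂ] g)
    (b : SymmetricAlgebra ℂ h) :
    ∃ t : g, ∀ y z : g,
      pairLin (killingForm ℂ g) (ExteriorAlgebra.ι ℂ y * ExteriorAlgebra.ι ℂ z) (tau j b) =
        bFun (ExteriorAlgebra.ι ℂ y * ExteriorAlgebra.ι ℂ z) t := by
  obtain ⟨t, c, ht⟩ := tau_deg_two j b
  refine ⟨-t, fun y z => ?_⟩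
  have h1 := ht y z 1
  rw [mul_one, eps_ct_ct_one, map_one, mul_one, mul_zero, add_zero] at h1
  rw [pairing_two, h1, bFun_two, map_neg, LinearMap.neg_apply, neg_neg]

end Lie

end H957.ReederPhi
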