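import Pool.Agent.H957R3.PhiA

/-! The map `Φ` in degree three. -/

open scoped TensorProduct

noncomputable section

set_option linter.unusedSectionVars false

namespace H957.ReederPhi

section Cop

variable {g : Type} [AddCommGroup g] [Module ℂ g]

theorem coproduct_one : coproduct g 1 = 1 ⊗ₜ[ℂ] 1 := by
  unfold coproduct
  erw [CliffordAlgebra.foldr_one]

theorem coproduct_ι_mul (x : g) (w : ExteriorAlgebra ℂ g) :
    coproduct g (ExteriorAlgebra.ι ℂ x * w) = step x (coproduct g w) := by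
  have h := CliffordAlgebra.foldr_mul (0 : QuadraticForm ℂ g) (stepLin g) stepLin_stepLin
    (1 ⊗ₜ[ℂ] 1) (ExteriorAlgebra.ι ℂ x) w
  have h2 := CliffordAlgebra.foldr_ι (0 : QuadraticForm ℂ g) (stepLin g) stepLin_stepLin
    (coproduct g w) x
  exact h.trans h2

theorem involute_ι' (x : g) : CliffordAlgebra.involute (Q := (0 : QuadraticForm ℂ g))
    (ExteriorAlgebra.ι ℂ x) = -ExteriorAlgebra.ι ℂ x :=
  CliffordAlgebra.involute_ι x

theorem coproduct_three (x y z : g) :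
    coproduct g (ExteriorAlgebra.ι ℂ x * (ExteriorAlgebra.ι ℂ y * ExteriorAlgebra.ι ℂ z)) =
    (ExteriorAlgebra.ι ℂ x * (ExteriorAlgebra.ι ℂ y * ExteriorAlgebra.ι ℂ z)) ⊗ₜ[ℂ] 1 +
    (ExteriorAlgebra.ι ℂ y * ExteriorAlgebra.ι ℂ z) ⊗ₜ[ℂ] (ExteriorAlgebra.ι ℂ x) +
    (ExteriorAlgebra.ι ℂ x * ExteriorAlgebra.ι ℂ y) ⊗ₜ[ℂ] (ExteriorAlgebra.ι ℂ z) -
    (ExteriorAlgebra.ι ℂ y) ⊗ₜ[ℂ] (ExteriorAlgebra.ι ℂ x * ExteriorAlgebra.ι ℂ z) -
    (ExteriorAlgebra.ι ℂ x * ExteriorAlgebra.ι ℂ z) ⊗ₜ[ℂ] (ExteriorAlgebra.ι ℂ y) +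
    (ExteriorAlgebra.ι ℂ z) ⊗ₜ[ℂ] (ExteriorAlgebra.ι ℂ x * ExteriorAlgebra.ι ℂ y) +
    (ExteriorAlgebra.ι ℂ x) ⊗ₜ[ℂ] (ExteriorAlgebra.ι ℂ y * ExteriorAlgebra.ι ℂ z) +
    1 ⊗ₜ[ℂ] (ExteriorAlgebra.ι ℂ x * (ExteriorAlgebra.ι ℂ y * ExteriorAlgebra.ι ℂ z)) := by
  have hz : coproduct g (ExteriorAlgebra.ι ℂ z) =
      (ExteriorAlgebra.ι ℂ z) ⊗ₜ[ℂ] 1 + 1 ⊗ₜ[ℂ] (ExteriorAlgebra.ι ℂ z) := by
    have h := coproduct_ι_mul z (1 : ExteriorAlgebra ℂ g)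
    rw [mul_one, coproduct_one, step_tmul, map_one, mul_one] at h
    exact h
  rw [coproduct_ι_mul, coproduct_ι_mul, hz]
  simp only [map_add, map_neg, map_one, step_tmul, involute_ι_mul, involute_ι', mul_one, mul_neg,
    neg_neg, TensorProduct.neg_tmul]
  abel

theorem evenProj_def (w : ExteriorAlgebra ℂ g) : evenProj g w =
    (1 / 2 : ℂ) • (w + CliffordAlgebra.involute (Q := (0 : QuadraticForm ℂ g)) w) := rfl

theorem evenProj_one : evenProj g 1 = 1 := by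
  rw [evenProj_def, map_one, ← two_smul ℂ (1 : ExteriorAlgebra ℂ g), smul_smul]
  norm_num

theorem evenProj_ι (x : g) : evenProj g (ExteriorAlgebra.ι ℂ x) = 0 := by
  rw [evenProj_def, involute_ι', add_neg_cancel, smul_zero]

theorem evenProj_two (x y : g) :
    evenProj g (ExteriorAlgebra.ι ℂ x * ExteriorAlgebra.ι ℂ y) =
      ExteriorAlgebra.ι ℂ x * ExteriorAlgebra.ι ℂ y := by
  rw [evenProj_def, involute_ι_mul, involute_ι', mul_neg, neg_neg,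
    ← two_smul ℂ (ExteriorAlgebra.ι ℂ x * ExteriorAlgebra.ι ℂ y), smul_smul]
  norm_num

theorem evenProj_three (x y z : g) :
    evenProj g (ExteriorAlgebra.ι ℂ x * (ExteriorAlgebra.ι ℂ y * ExteriorAlgebra.ι ℂ z)) = 0 := by
  rw [evenProj_def, involute_ι_mul, involute_ι_mul, involute_ι']
  simp only [mul_neg, neg_neg, add_neg_cancel, smul_zero]

end Cop

section Lie

variable {g : Type} [LieRing g] [LieAlgebra ℂ g] [FiniteDimensional ℂ g]
variable [LieAlgebra.IsKilling ℂ g]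
variable {h : Type} [AddCommGroup h] [Module ℂ h]

/-- The map `Φ = (p ⊗ φ) ∘ (Id ⊗ π) ∘ Δ : Λ g → Λ h ⊗ A^*`, where `p = Λ q`. -/
def bigPhi (q : g →ₗ[ℂ] h) (j : h →ₗ[ℂ] g) (A : Submodule ℂ (SymmetricAlgebra ℂ h)) :
    ExteriorAlgebra ℂ g →ₗ[ℂ] ExteriorAlgebra ℂ h ⊗[ℂ] Module.Dual ℂ A :=
  TensorProduct.map (ExteriorAlgebra.map q).toLinearMap (phi j A) ∘ₗ
    TensorProduct.map LinearMap.id (evenProj g) ∘ₗ coproduct g

theorem bigPhi_apply (q : g →ₗ[ℂ] h) (j : h →ₗ[ℂ] g) (A : Submodule ℂ (SymmetricAlgebra ℂ h))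
    (w : ExteriorAlgebra ℂ g) :
    bigPhi q j A w = TensorProduct.map (ExteriorAlgebra.map q).toLinearMap (phi j A)
      (TensorProduct.map LinearMap.id (evenProj g) (coproduct g w)) := rfl

/-- `Φ` on decomposable vectors of degree three, when `dim h ≤ 2`. -/
theorem bigPhi_three (q : g →ₗ[ℂ] h) (j : h →ₗ[ℂ] g) (A : Submodule ℂ (SymmetricAlgebra ℂ h))
    [FiniteDimensional ℂ h] (hH : Module.finrank ℂ h ≤ 2) (x y z : g) :
    bigPhi q j A (ExteriorAlgebra.ι ℂ x * (ExteriorAlgebra.ι ℂ y * ExteriorAlgebra.ι ℂ z)) =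
      ExteriorAlgebra.ι ℂ (q x) ⊗ₜ[ℂ] phi j A (ExteriorAlgebra.ι ℂ y * ExteriorAlgebra.ι ℂ z) -
      ExteriorAlgebra.ι ℂ (q y) ⊗ₜ[ℂ] phi j A (ExteriorAlgebra.ι ℂ x * ExteriorAlgebra.ι ℂ z) +
      ExteriorAlgebra.ι ℂ (q z) ⊗ₜ[ℂ]
        phi j A (ExteriorAlgebra.ι ℂ x * ExteriorAlgebra.ι ℂ y) := by
  have h0 : ExteriorAlgebra.map q
      (ExteriorAlgebra.ι ℂ x * (ExteriorAlgebra.ι ℂ y * ExteriorAlgebra.ι ℂ z)) = 0 := by
    have h1 : ExteriorAlgebra.ιMulti ℂ 3 ![q x, q y, q z] = 0 := by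
      refine AlternatingMap.map_linearDependent _ _ fun hli => ?_
      have := hli.fintype_card_le_finrank
      simp only [Fintype.card_fin] at this
      omega
    rw [map_mul, map_mul, ExteriorAlgebra.map_apply_ι, ExteriorAlgebra.map_apply_ι,
      ExteriorAlgebra.map_apply_ι, ← h1, ExteriorAlgebra.ιMulti_apply]
    simp
  rw [bigPhi_apply, coproduct_three]
  simp only [map_add, map_sub, TensorProduct.map_tmul, LinearMap.id_apply,
    evenProj_one, evenProj_ι, evenProj_two, evenProj_three, AlgHom.toLinearMap_apply, h0,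
    map_zero, TensorProduct.zero_tmul, TensorProduct.tmul_zero, ExteriorAlgebra.map_apply_ι]
  abel

end Lie

end H957.ReederPhi
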