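import Pool.Agent.H957R3.PhiB

/-! The submodule of `Λ³ g` killed by `Φ`. -/

open scoped TensorProduct

noncomputable section

set_option linter.unusedSectionVars false

namespace H957.ReederPhi

section Lin

variable {g : Type} [AddCommGroup g] [Module ℂ g]

theorem three_mem (x y z : g) :
    ExteriorAlgebra.ι ℂ x * (ExteriorAlgebra.ι ℂ y * ExteriorAlgebra.ι ℂ z) ∈ ⋀[ℂ]^3 g := by
  rw [← ExteriorAlgebra.ιMulti_span_fixedDegree]
  refine Submodule.subset_span ⟨![x, y, z], ?_⟩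
  rw [ExteriorAlgebra.ιMulti_apply]
  simp

theorem deg3_ind {P : ExteriorAlgebra ℂ g → Prop} (h0 : P 0)
    (hadd : ∀ x y, P x → P y → P (x + y)) (hsmul : ∀ (c : ℂ) x, P x → P (c • x))
    (h : ∀ x y z : g, P (ExteriorAlgebra.ι ℂ x * (ExteriorAlgebra.ι ℂ y * ExteriorAlgebra.ι ℂ z)))
    (w : ExteriorAlgebra ℂ g) (hw : w ∈ ⋀[ℂ]^3 g) : P w := by
  rw [← ExteriorAlgebra.ιMulti_span_fixedDegree] at hw
  induction hw using Submodule.span_induction with
  | mem x hx =>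
    obtain ⟨v, rfl⟩ := hx
    have := h (v 0) (v 1) (v 2)
    rw [ExteriorAlgebra.ιMulti_apply]
    simpa [List.ofFn_succ] using this
  | zero => exact h0
  | add x y _ _ hx hy => exact hadd x y hx hy
  | smul c x _ hx => exact hsmul c x hx

theorem ct_ι (d : Module.Dual ℂ g) (z : g) :
    ct d (ExteriorAlgebra.ι ℂ z) = algebraMap ℂ (ExteriorAlgebra ℂ g) (d z) :=
  CliffordAlgebra.contractLeft_ι (0 : QuadraticForm ℂ g) d z

theorem ct_two (d : Module.Dual ℂ g) (y z : g) :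
    ct d (ExteriorAlgebra.ι ℂ y * ExteriorAlgebra.ι ℂ z) =
      d y • ExteriorAlgebra.ι ℂ z - d z • ExteriorAlgebra.ι ℂ y := by
  rw [ct_ι_mul]
  erw [ct_ι]
  rw [← Algebra.commutes, ← Algebra.smul_def]

theorem ct_three (d : Module.Dual ℂ g) (x y z : g) :
    ct d (ExteriorAlgebra.ι ℂ x * (ExteriorAlgebra.ι ℂ y * ExteriorAlgebra.ι ℂ z)) =
      d x • (ExteriorAlgebra.ι ℂ y * ExteriorAlgebra.ι ℂ z) -
      d y • (ExteriorAlgebra.ι ℂ x * ExteriorAlgebra.ι ℂ z) +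
      d z • (ExteriorAlgebra.ι ℂ x * ExteriorAlgebra.ι ℂ y) := by
  rw [ct_ι_mul]
  erw [ct_two]
  rw [mul_sub, mul_smul_comm, mul_smul_comm]
  abel

variable [FiniteDimensional ℂ g]

theorem ct_deriv (d : Module.Dual ℂ g) (T : g →ₗ[ℂ] g) (w : ExteriorAlgebra ℂ g) :
    ct d (derivLin T w) = derivLin T (ct d w) + ct (d ∘ₗ T) w := by
  induction w using left_ind with
  | h1 r =>
    rw [deriv_algebraMap, map_zero, ct, ct, CliffordAlgebra.contractLeft_algebraMap,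
      CliffordAlgebra.contractLeft_algebraMap, map_zero, add_zero]
  | h2 x y hx hy => simp only [map_add, hx, hy]; abel
  | h3 m x hx =>
    rw [deriv_ι_mul, map_add, ct_ι_mul, ct_ι_mul, ct_ι_mul, ct_ι_mul, map_sub, map_smul,
      deriv_ι_mul, hx]
    simp only [LinearMap.comp_apply, mul_add]
    abel

theorem deriv_three (T : g →ₗ[ℂ] g) (x y z : g) :
    derivLin T (ExteriorAlgebra.ι ℂ x * (ExteriorAlgebra.ι ℂ y * ExteriorAlgebra.ι ℂ z)) =
      ExteriorAlgebra.ι ℂ (T x) * (ExteriorAlgebra.ι ℂ y * ExteriorAlgebra.ι ℂ z) +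
      ExteriorAlgebra.ι ℂ x * (ExteriorAlgebra.ι ℂ (T y) * ExteriorAlgebra.ι ℂ z) +
      ExteriorAlgebra.ι ℂ x * (ExteriorAlgebra.ι ℂ y * ExteriorAlgebra.ι ℂ (T z)) := by
  rw [deriv_ι_mul, deriv_ι_mul, deriv_ι, mul_add]
  abel

theorem deriv_mem (T : g →ₗ[ℂ] g) (w : ExteriorAlgebra ℂ g) (hw : w ∈ ⋀[ℂ]^3 g) :
    derivLin T w ∈ ⋀[ℂ]^3 g := by
  refine deg3_ind (P := fun w => derivLin T w ∈ ⋀[ℂ]^3 g) ?_ ?_ ?_ ?_ w hw
  · rw [map_zero]; exact Submodule.zero_mem _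
  · intro x y hx hy; rw [map_add]; exact Submodule.add_mem _ hx hy
  · intro c x hx; rw [map_smul]; exact Submodule.smul_mem _ c hx
  · intro x y z
    rw [deriv_three]
    exact Submodule.add_mem _ (Submodule.add_mem _ (three_mem _ _ _) (three_mem _ _ _))
      (three_mem _ _ _)

end Lin

section Lie

variable {g : Type} [LieRing g] [LieAlgebra ℂ g] [FiniteDimensional ℂ g]
variable [LieAlgebra.IsKilling ℂ g]

theorem bFun_deriv_two (x y z h : g) :
    bFun (derivLin (LieAlgebra.ad ℂ g x : g →ₗ[ℂ] g)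
      (ExteriorAlgebra.ι ℂ y * ExteriorAlgebra.ι ℂ z)) h =
      -bFun (ExteriorAlgebra.ι ℂ y * ExteriorAlgebra.ι ℂ z) ⁅x, h⁆ := by
  rw [deriv_ι_mul, deriv_ι, map_add, LinearMap.add_apply, bFun_two, bFun_two, bFun_two,
    LieAlgebra.ad_apply, LieAlgebra.ad_apply, ← neg_add, ← map_add, ← leibniz_lie, neg_neg,
    ← kill_inv, ← lie_skew h x, map_neg, LinearMap.neg_apply, neg_neg]

theorem bFun_ct_deriv (x h : g) (d : Module.Dual ℂ g) (w : ExteriorAlgebra ℂ g)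
    (hw : w ∈ ⋀[ℂ]^3 g) :
    bFun (derivLin (LieAlgebra.ad ℂ g x : g →ₗ[ℂ] g) (ct d w)) h = -bFun (ct d w) ⁅x, h⁆ := by
  refine deg3_ind (P := fun w => bFun (derivLin (LieAlgebra.ad ℂ g x : g →ₗ[ℂ] g) (ct d w)) h =
    -bFun (ct d w) ⁅x, h⁆) ?_ ?_ ?_ ?_ w hw
  · simp
  · intro a b ha hb
    simp only [map_add, LinearMap.add_apply, ha, hb]
    ring
  · intro c a ha
    simp only [map_smul, LinearMap.smul_apply, ha, smul_eq_mul]
    ring
  · intro a b c
    rw [ct_three]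
    simp only [map_add, map_sub, map_smul, LinearMap.add_apply, LinearMap.sub_apply,
      LinearMap.smul_apply, bFun_deriv_two, smul_eq_mul]
    ring

theorem lie_mem_aux (x : g) (w : ExteriorAlgebra ℂ g)
    (hw : w ∈ ⋀[ℂ]^3 g ∧ ∀ d : Module.Dual ℂ g, bFun (ct d w) = 0) :
    ⁅x, w⁆ ∈ ⋀[ℂ]^3 g ∧ ∀ d : Module.Dual ℂ g, bFun (ct d ⁅x, w⁆) = 0 := by
  rw [lie_ext_def]
  refine ⟨deriv_mem (LieAlgebra.ad ℂ g x : g →ₗ[ℂ] g) w hw.1, fun d => ?_⟩
  refine LinearMap.ext fun h => ?_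
  rw [ct_deriv, map_add, LinearMap.add_apply, bFun_ct_deriv x h d w hw.1, hw.2 d, hw.2]
  simp

/-- The submodule `N` of all `w ∈ Λ³ g` with `⟨ξ ⌋ w, s(h)⟩ = 0` for all `ξ ∈ g^*`, `h ∈ g`. -/
def kerSub (g : Type) [LieRing g] [LieAlgebra ℂ g] [FiniteDimensional ℂ g]
    [LieAlgebra.IsKilling ℂ g] : LieSubmodule ℂ g (ExteriorAlgebra ℂ g) where
  carrier := {w | w ∈ ⋀[ℂ]^3 g ∧ ∀ d : Module.Dual ℂ g, bFun (ct d w) = 0}
  zero_mem' := ⟨Submodule.zero_mem _, fun d => by rw [map_zero, map_zero]⟩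
  add_mem' := fun {a b} ha hb => ⟨Submodule.add_mem _ ha.1 hb.1, fun d => by
    rw [map_add, map_add, ha.2 d, hb.2 d, add_zero]⟩
  smul_mem' := fun c a ha => ⟨Submodule.smul_mem _ c ha.1, fun d => by
    rw [map_smul, map_smul, ha.2 d, smul_zero]⟩
  lie_mem := fun {x w} hw => lie_mem_aux x w hw

theorem mem_kerSub {w : ExteriorAlgebra ℂ g} : w ∈ kerSub g ↔
    w ∈ ⋀[ℂ]^3 g ∧ ∀ d : Module.Dual ℂ g, bFun (ct d w) = 0 := Iff.rfl

theorem phi_ct {h : Type} [AddCommGroup h] [Module ℂ h] (j : h →ₗ[ℂ] g)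
    (b : SymmetricAlgebra ℂ h) :
    ∃ t : g, ∀ (d : Module.Dual ℂ g) (w : ExteriorAlgebra ℂ g), w ∈ ⋀[ℂ]^3 g →
      pairLin (killingForm ℂ g) (ct d w) (tau j b) = bFun (ct d w) t := by
  obtain ⟨t, ht⟩ := phi_two j b
  refine ⟨t, fun d w hw => ?_⟩
  refine deg3_ind (P := fun w => pairLin (killingForm ℂ g) (ct d w) (tau j b) =
    bFun (ct d w) t) ?_ ?_ ?_ ?_ w hw
  · simp
  · intro a b ha hb
    simp only [map_add, LinearMap.add_apply, ha, hb]
  · intro c a ha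
    simp only [map_smul, LinearMap.smul_apply, ha]
  · intro a b c
    rw [ct_three]
    simp only [map_add, map_sub, map_smul, LinearMap.add_apply, LinearMap.sub_apply,
      LinearMap.smul_apply, ht]

section

variable {h : Type} [AddCommGroup h] [Module ℂ h]

theorem phi_ct_zero (j : h →ₗ[ℂ] g) (A : Submodule ℂ (SymmetricAlgebra ℂ h))
    (w : ExteriorAlgebra ℂ g) (hw : w ∈ kerSub g) (d : Module.Dual ℂ g) :
    phi j A (ct d w) = 0 := by
  refine LinearMap.ext fun a => ?_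
  obtain ⟨t, ht⟩ := phi_ct j (a : SymmetricAlgebra ℂ h)
  rw [phi_apply, ht d w hw.1, hw.2 d]
  simp

/-- `Φ` on `Λ³ g` in terms of contractions, when `dim h ≤ 2`. -/
theorem bigPhi_ct (q : g →ₗ[ℂ] h) (j : h →ₗ[ℂ] g)
    (A : Submodule ℂ (SymmetricAlgebra ℂ h)) [FiniteDimensional ℂ h]
    (hH : Module.finrank ℂ h ≤ 2)
    (w : ExteriorAlgebra ℂ g) (hw : w ∈ ⋀[ℂ]^3 g) :
    bigPhi q j A w = ∑ i, ExteriorAlgebra.ι ℂ (q (Module.finBasis ℂ g i)) ⊗ₜ[ℂ]
      phi j A (ct ((Module.finBasis ℂ g).coord i) w) := by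
  refine deg3_ind (P := fun w => bigPhi q j A w =
    ∑ i, ExteriorAlgebra.ι ℂ (q (Module.finBasis ℂ g i)) ⊗ₜ[ℂ]
      phi j A (ct ((Module.finBasis ℂ g).coord i) w)) ?_ ?_ ?_ ?_ w hw
  · simp
  · intro a b ha hb
    simp only [map_add, ha, hb, TensorProduct.tmul_add, Finset.sum_add_distrib]
  · intro c a ha
    simp only [map_smul, ha, TensorProduct.tmul_smul, Finset.smul_sum]
  · intro x y z
    rw [bigPhi_three q j A hH]
    simp_rw [ct_three]
    simp only [map_add, map_sub, map_smul, TensorProduct.tmul_add, TensorProduct.tmul_sub,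
      TensorProduct.tmul_smul, Finset.sum_add_distrib, Finset.sum_sub_distrib]
    have key : ∀ (x : g) (v : Module.Dual ℂ A),
        ∑ i, (Module.finBasis ℂ g).coord i x •
          (ExteriorAlgebra.ι ℂ (q (Module.finBasis ℂ g i)) ⊗ₜ[ℂ] v) =
        ExteriorAlgebra.ι ℂ (q x) ⊗ₜ[ℂ] v := by
      intro x v
      conv_rhs => rw [← (Module.finBasis ℂ g).sum_repr x, map_sum, map_sum,
        TensorProduct.sum_tmul]
      refine Finset.sum_congr rfl fun i _ => ?_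
      rw [map_smul, map_smul, TensorProduct.smul_tmul', Module.Basis.coord_apply]
    rw [key, key, key]

/-- `Φ` vanishes on `N`. -/
theorem bigPhi_kerSub (q : g →ₗ[ℂ] h) (j : h →ₗ[ℂ] g)
    (A : Submodule ℂ (SymmetricAlgebra ℂ h)) [FiniteDimensional ℂ h]
    (hH : Module.finrank ℂ h ≤ 2)
    (w : ExteriorAlgebra ℂ g) (hw : w ∈ kerSub g) : bigPhi q j A w = 0 := by
  rw [bigPhi_ct q j A hH w hw.1]
  refine Finset.sum_eq_zero fun i _ => ?_
  rw [phi_ct_zero j A w hw, TensorProduct.tmul_zero]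

end

/-- The space `N` is nonzero when `dim g ≥ 9`. -/
theorem kerSub_ne_bot (hg : 9 ≤ Module.finrank ℂ g) : kerSub g ≠ ⊥ := by
  classical
  let F : (⋀[ℂ]^3 g) →ₗ[ℂ] (Module.Dual ℂ g →ₗ[ℂ] Module.Dual ℂ g) :=
    { toFun := fun w =>
        { toFun := fun d => bFun (ct d (w : ExteriorAlgebra ℂ g))
          map_add' := fun d e => by simp [ct]
          map_smul' := fun c d => by simp [ct] }
      map_add' := fun v w => by ext; simp
      map_smul' := fun c w => by ext; simp }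
  have hlt : Module.finrank ℂ (Module.Dual ℂ g →ₗ[ℂ] Module.Dual ℂ g) <
      Module.finrank ℂ (⋀[ℂ]^3 g) := by
    rw [Module.finrank_linearMap, Subspace.dual_finrank_eq, exteriorPower.finrank_eq]
    obtain ⟨k, hk⟩ := Nat.exists_eq_add_of_le hg
    rw [hk]
    have h1 := Nat.descFactorial_eq_factorial_mul_choose (9 + k) 3
    have h2 : (9 + k).descFactorial 3 = (7 + k) * ((8 + k) * (9 + k)) := by
      rw [Nat.descFactorial_succ, Nat.descFactorial_succ, Nat.descFactorial_succ,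
        Nat.descFactorial_zero, mul_one]
      congr 1
      · omega
      · congr 1
        omega
    have h3 : Nat.factorial 3 = 6 := rfl
    rw [h2, h3] at h1
    nlinarith [h1]
  have hker : LinearMap.ker F ≠ ⊥ := LinearMap.ker_ne_bot_of_finrank_lt hlt
  obtain ⟨w, hw, hw0⟩ := (Submodule.ne_bot_iff _).mp hker
  intro hbot
  have hmem : (w : ExteriorAlgebra ℂ g) ∈ kerSub g := by
    refine ⟨w.2, fun d => ?_⟩
    have h := LinearMap.congr_fun (LinearMap.mem_ker.mp hw) d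
    exact h
  rw [hbot, LieSubmodule.mem_bot] at hmem
  exact hw0 (Subtype.ext hmem)

end Lie

end H957.ReederPhi
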