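import Pool.Agent.H957R3.PhiC

/-! An irreducible submodule of `Λ³ g` killed by `Φ`. -/

open scoped TensorProduct

noncomputable section

namespace H957.ReederPhi

variable (g : Type) [LieRing g] [LieAlgebra ℂ g] [FiniteDimensional ℂ g]
variable [LieAlgebra.IsKilling ℂ g]

instance : FiniteDimensional ℂ (kerSub g) := by
  have h : (kerSub g).toSubmodule ≤ ⋀[ℂ]^3 g := fun w hw => hw.1
  exact Submodule.finiteDimensional_of_le h

theorem exists_irreducible (hg : 9 ≤ Module.finrank ℂ g) :
    ∃ W : LieSubmodule ℂ g (kerSub g), LieModule.IsIrreducible ℂ g W := by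
  have hne : kerSub g ≠ ⊥ := kerSub_ne_bot hg
  have hnt : Nontrivial (kerSub g) := (LieSubmodule.nontrivial_iff_ne_bot ℂ g _).mpr hne
  obtain ⟨W, hW⟩ := IsAtomic.exists_atom (LieSubmodule ℂ g (kerSub g))
  refine ⟨W, ?_⟩
  have hWnt : Nontrivial W := (LieSubmodule.nontrivial_iff_ne_bot ℂ g _).mpr hW.1
  refine LieModule.IsIrreducible.mk fun U hU => ?_
  have hle : U.map W.incl ≤ W := by
    rw [LieSubmodule.map_le_iff_le_comap]
    intro u _
    rw [LieSubmodule.mem_comap]
    exact u.2
  have hcase := hW.le_iff.mp hle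
  rcases hcase with h | h
  · exfalso
    apply hU
    rw [LieSubmodule.eq_bot_iff]
    intro u hu
    have h1 : W.incl u ∈ U.map W.incl := LieSubmodule.mem_map_of_mem hu
    rw [h, LieSubmodule.mem_bot] at h1
    exact Subtype.ext h1
  · rw [eq_top_iff]
    intro u _
    have h1 : (u : kerSub g) ∈ U.map W.incl := by
      rw [h]
      exact u.2
    rw [LieSubmodule.mem_map] at h1
    obtain ⟨v, hv, hvu⟩ := h1
    have : v = u := Subtype.ext hvu
    rwa [← this]

end H957.ReederPhi
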