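import Mathlib

/-! The symplectic Lie algebra `sp(4)`: it is semisimple (Killing), has dimension at least `9`,
and its diagonal elements form a Cartan subalgebra of dimension at most `2`. -/

noncomputable section

set_option linter.unusedSectionVars false

namespace H957.SP4

attribute [local instance 100] LieRing.ofAssociativeRing

open Matrix

/-- The matrix of the symplectic form. -/
def J : Matrix (Fin 4) (Fin 4) ℂ := !![0, 0, -1, 0; 0, 0, 0, -1; 1, 0, 0, 0; 0, 1, 0, 0]

/-- The Lie algebra `sp(4)`. -/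
def sp : LieSubalgebra ℂ (Matrix (Fin 4) (Fin 4) ℂ) := skewAdjointMatricesLieSubalgebra J

/-- General element of `sp(4)`. -/
def mk (a : Fin 10 → ℂ) : Matrix (Fin 4) (Fin 4) ℂ :=
  !![a 0, a 1, a 4, a 5; a 2, a 3, a 5, a 6; a 7, a 8, -a 0, -a 2; a 8, a 9, -a 1, -a 3]

theorem mem_sp (A : Matrix (Fin 4) (Fin 4) ℂ) : A ∈ sp ↔ Aᵀ * J = J * (-A) := by
  rw [sp, mem_skewAdjointMatricesLieSubalgebra, mem_skewAdjointMatricesSubmodule]
  rfl

theorem mk_mem (a : Fin 10 → ℂ) : mk a ∈ sp := by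
  rw [mem_sp]
  ext i j
  fin_cases i <;> fin_cases j <;> simp [mk, J, Matrix.mul_apply, Fin.sum_univ_four]

theorem sp_entries (A : Matrix (Fin 4) (Fin 4) ℂ) (hA : A ∈ sp) :
    A 2 2 = -A 0 0 ∧ A 3 3 = -A 1 1 ∧ A 2 3 = -A 1 0 ∧ A 3 2 = -A 0 1 ∧ A 0 3 = A 1 2 ∧
      A 2 1 = A 3 0 := by
  rw [mem_sp] at hA
  have h := fun i j => congr_fun (congr_fun hA i) j
  have h02 := h 0 2
  have h13 := h 1 3
  have h03 := h 0 3
  have h12 := h 1 2
  have h23 := h 2 3
  have h01 := h 0 1
  simp [J, Matrix.mul_apply, Fin.sum_univ_four] at h02 h13 h03 h12 h23 h01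
  exact ⟨h02.symm, h13.symm, h03.symm, h12.symm, h23.symm, h01.symm⟩

/-- The underlying linear injection `ℂ^10 → sp(4)`. -/
def mkLin : (Fin 10 → ℂ) →ₗ[ℂ] sp where
  toFun a := ⟨mk a, mk_mem a⟩
  map_add' a b := by
    apply Subtype.ext
    change mk (a + b) = mk a + mk b
    ext i j
    fin_cases i <;> fin_cases j <;> simp [mk] <;> ring
  map_smul' c a := by
    apply Subtype.ext
    change mk (c • a) = c • mk a
    ext i j
    fin_cases i <;> fin_cases j <;> simp [mk]

theorem mkLin_injective : Function.Injective mkLin := by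
  intro a b hab
  have h : mk a = mk b := congr_arg Subtype.val hab
  have h' := fun i j => congr_fun (congr_fun h i) j
  have h00 := h' 0 0
  have h01 := h' 0 1
  have h10 := h' 1 0
  have h11 := h' 1 1
  have h02 := h' 0 2
  have h03 := h' 0 3
  have h13 := h' 1 3
  have h20 := h' 2 0
  have h21 := h' 2 1
  have h31 := h' 3 1
  simp [mk] at h00 h01 h10 h11 h02 h03 h13 h20 h21 h31
  ext i
  fin_cases i <;> simp only [Fin.zero_eta, Fin.mk_one, Fin.reduceFinMk] <;> assumption

theorem ten_le_finrank : 9 ≤ Module.finrank ℂ sp := by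
  have h := LinearMap.finrank_le_finrank_of_injective mkLin_injective
  rw [Module.finrank_fin_fun] at h
  omega

/-- The natural action on `ℂ^4`. -/
instance : LieRingModule sp (Fin 4 → ℂ) where
  bracket x v := (x : Matrix (Fin 4) (Fin 4) ℂ) *ᵥ v
  add_lie x y v := Matrix.add_mulVec _ _ _
  lie_add x v w := Matrix.mulVec_add _ _ _
  leibniz_lie x y v := by
    change (x : Matrix (Fin 4) (Fin 4) ℂ) *ᵥ ((y : Matrix (Fin 4) (Fin 4) ℂ) *ᵥ v) =
      ((⁅x, y⁆ : sp) : Matrix (Fin 4) (Fin 4) ℂ) *ᵥ v +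
        (y : Matrix (Fin 4) (Fin 4) ℂ) *ᵥ ((x : Matrix (Fin 4) (Fin 4) ℂ) *ᵥ v)
    rw [LieSubalgebra.coe_bracket, LieRing.of_associative_ring_bracket, Matrix.sub_mulVec,
      Matrix.mulVec_mulVec, Matrix.mulVec_mulVec, sub_add_cancel]

theorem lie_def (x : sp) (v : Fin 4 → ℂ) : ⁅x, v⁆ = (x : Matrix (Fin 4) (Fin 4) ℂ) *ᵥ v := rfl

instance : LieModule ℂ sp (Fin 4 → ℂ) where
  smul_lie _ _ _ := Matrix.smul_mulVec _ _ _
  lie_smul _ _ _ := Matrix.mulVec_smul _ _ _

instance : LieModule.IsFaithful ℂ sp (Fin 4 → ℂ) := by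
  rw [LieModule.isFaithful_iff']
  intro x hx
  apply Subtype.ext
  change (x : Matrix (Fin 4) (Fin 4) ℂ) = 0
  refine Matrix.toLin'.injective ?_
  rw [map_zero]
  refine LinearMap.ext fun v => ?_
  exact hx v

theorem trace_zero (x : sp) : LinearMap.trace ℂ _ (LieModule.toEnd ℂ sp (Fin 4 → ℂ) x) = 0 := by
  have h : (LieModule.toEnd ℂ sp (Fin 4 → ℂ) x : (Fin 4 → ℂ) →ₗ[ℂ] (Fin 4 → ℂ)) =
      Matrix.toLin' (x : Matrix (Fin 4) (Fin 4) ℂ) := rfl
  rw [h, Matrix.trace_toLin'_eq, Matrix.trace]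
  obtain ⟨h1, h2, -⟩ := sp_entries _ x.2
  simp only [Matrix.diag_apply, Fin.sum_univ_four, h1, h2]
  ring

/-- The `k`-th basis vector of `sp(4)`. -/
def E (k : Fin 10) : sp := mkLin (Pi.single k 1)

/-- The `i`-th basis vector of `ℂ^4`. -/
def e (i : Fin 4) : Fin 4 → ℂ := Pi.single i 1

theorem E4 (v : Fin 4 → ℂ) : ⁅E 4, v⁆ = v 2 • e 0 := by
  rw [lie_def]
  ext j
  fin_cases j <;> simp [E, mkLin, mk, e, Matrix.mulVec, dotProduct, Fin.sum_univ_four]

theorem E6 (v : Fin 4 → ℂ) : ⁅E 6, v⁆ = v 3 • e 1 := by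
  rw [lie_def]
  ext j
  fin_cases j <;> simp [E, mkLin, mk, e, Matrix.mulVec, dotProduct, Fin.sum_univ_four]

theorem E7 (v : Fin 4 → ℂ) : ⁅E 7, v⁆ = v 0 • e 2 := by
  rw [lie_def]
  ext j
  fin_cases j <;> simp [E, mkLin, mk, e, Matrix.mulVec, dotProduct, Fin.sum_univ_four]

theorem E9 (v : Fin 4 → ℂ) : ⁅E 9, v⁆ = v 1 • e 3 := by
  rw [lie_def]
  ext j
  fin_cases j <;> simp [E, mkLin, mk, e, Matrix.mulVec, dotProduct, Fin.sum_univ_four]

theorem E2e : ⁅E 2, e 0⁆ = e 1 := by
  rw [lie_def]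
  ext j
  fin_cases j <;> simp [E, mkLin, mk, e, Matrix.mulVec, dotProduct, Fin.sum_univ_four]

theorem E1e : ⁅E 1, e 1⁆ = e 0 := by
  rw [lie_def]
  ext j
  fin_cases j <;> simp [E, mkLin, mk, e, Matrix.mulVec, dotProduct, Fin.sum_univ_four]

instance : LieModule.IsIrreducible ℂ sp (Fin 4 → ℂ) := by
  refine LieModule.IsIrreducible.mk fun N hN => ?_
  have hN' := mt (LieSubmodule.eq_bot_iff N).mpr hN
  push Not at hN'
  obtain ⟨v, hv, hv0⟩ := hN'
  have hs : ∀ (c : ℂ) (w : Fin 4 → ℂ), c ≠ 0 → c • w ∈ N → w ∈ N := by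
    intro c w hc hw
    have := N.smul_mem c⁻¹ hw
    rwa [smul_smul, inv_mul_cancel₀ hc, one_smul] at this
  have h20 : e 2 ∈ N → e 0 ∈ N := fun h => by
    have := N.lie_mem (x := E 4) h
    rw [E4] at this
    simpa [e] using this
  have h31 : e 3 ∈ N → e 1 ∈ N := fun h => by
    have := N.lie_mem (x := E 6) h
    rw [E6] at this
    simpa [e] using this
  have h10 : e 1 ∈ N → e 0 ∈ N := fun h => by
    have := N.lie_mem (x := E 1) h
    rwa [E1e] at this
  have h0 : e 0 ∈ N := by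
    by_cases c0 : v 0 = 0
    · by_cases c1 : v 1 = 0
      · by_cases c2 : v 2 = 0
        · by_cases c3 : v 3 = 0
          · exfalso
            apply hv0
            ext j
            fin_cases j <;> simpa
          · have := N.lie_mem (x := E 6) hv
            rw [E6] at this
            exact h10 (hs _ _ c3 this)
        · have := N.lie_mem (x := E 4) hv
          rw [E4] at this
          exact hs _ _ c2 this
      · have := N.lie_mem (x := E 9) hv
        rw [E9] at this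
        exact h10 (h31 (hs _ _ c1 this))
    · have := N.lie_mem (x := E 7) hv
      rw [E7] at this
      exact h20 (hs _ _ c0 this)
  have h1 : e 1 ∈ N := by
    have := N.lie_mem (x := E 2) h0
    rwa [E2e] at this
  have h2 : e 2 ∈ N := by
    have := N.lie_mem (x := E 7) h0
    rw [E7] at this
    simpa [e] using this
  have h3 : e 3 ∈ N := by
    have := N.lie_mem (x := E 9) h1
    rw [E9] at this
    simpa [e] using this
  rw [eq_top_iff]
  intro w _
  have hw : w = w 0 • e 0 + w 1 • e 1 + w 2 • e 2 + w 3 • e 3 := by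
    ext j
    fin_cases j <;> simp [e]
  rw [hw]
  exact N.add_mem (N.add_mem (N.add_mem (N.smul_mem _ h0) (N.smul_mem _ h1)) (N.smul_mem _ h2))
    (N.smul_mem _ h3)

instance : LieAlgebra.IsKilling ℂ sp := by
  have : LieAlgebra.HasTrivialRadical ℂ sp :=
    LieAlgebra.hasTrivialRadical_of_isIrreducible_of_isFaithful ℂ sp (Fin 4 → ℂ) trace_zero
  infer_instance

theorem diag_comm (a b : Matrix (Fin 4) (Fin 4) ℂ) (ha : ∀ i j, i ≠ j → a i j = 0)
    (hb : ∀ i j, i ≠ j → b i j = 0) : a * b = b * a := by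
  have h : ∀ (a b : Matrix (Fin 4) (Fin 4) ℂ), (∀ i j, i ≠ j → a i j = 0) →
      (∀ i j, i ≠ j → b i j = 0) → ∀ i j, (a * b) i j = if i = j then a i i * b i i else 0 := by
    intro a b ha hb i j
    rw [Matrix.mul_apply, Finset.sum_eq_single i]
    · split_ifs with h
      · rw [h]
      · rw [hb i j h, mul_zero]
    · intro k _ hk
      rw [ha i k (Ne.symm hk), zero_mul]
    · intro h
      exact absurd (Finset.mem_univ i) h
  ext i j
  rw [h a b ha hb, h b a hb ha]
  split_ifs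
  · exact mul_comm _ _
  · rfl

/-- The diagonal elements of `sp(4)`. -/
def diagSub : LieSubalgebra ℂ sp where
  carrier := {x | ∀ i j, i ≠ j → (x : Matrix (Fin 4) (Fin 4) ℂ) i j = 0}
  zero_mem' := fun i j _ => rfl
  add_mem' := fun {a b} ha hb i j hij => by
    change (a : Matrix (Fin 4) (Fin 4) ℂ) i j + (b : Matrix (Fin 4) (Fin 4) ℂ) i j = 0
    rw [ha i j hij, hb i j hij, add_zero]
  smul_mem' := fun c a ha i j hij => by
    change c * (a : Matrix (Fin 4) (Fin 4) ℂ) i j = 0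
    rw [ha i j hij, mul_zero]
  lie_mem' := fun {a b} ha hb i j hij => by
    change ((a : Matrix (Fin 4) (Fin 4) ℂ) * (b : Matrix (Fin 4) (Fin 4) ℂ) -
      (b : Matrix (Fin 4) (Fin 4) ℂ) * (a : Matrix (Fin 4) (Fin 4) ℂ)) i j = 0
    rw [diag_comm _ _ ha hb, sub_self]
    rfl

theorem mem_diagSub (x : sp) :
    x ∈ diagSub ↔ ∀ i j, i ≠ j → (x : Matrix (Fin 4) (Fin 4) ℂ) i j = 0 := Iff.rfl

instance : IsLieAbelian diagSub where
  trivial := fun a b => by
    apply Subtype.ext
    apply Subtype.ext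
    change ((a : sp) : Matrix (Fin 4) (Fin 4) ℂ) * ((b : sp) : Matrix (Fin 4) (Fin 4) ℂ) -
      ((b : sp) : Matrix (Fin 4) (Fin 4) ℂ) * ((a : sp) : Matrix (Fin 4) (Fin 4) ℂ) = 0
    rw [diag_comm _ _ a.2 b.2, sub_self]

/-- A regular diagonal element, with diagonal entries `1, 2, -1, -2`. -/
def reg : sp := mkLin (Pi.single 0 1 + Pi.single 3 2)

/-- The diagonal entries of `reg`. -/
def regE : Fin 4 → ℂ := ![1, 2, -1, -2]

theorem reg_val : (reg : Matrix (Fin 4) (Fin 4) ℂ) = Matrix.diagonal regE := by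
  ext i j
  fin_cases i <;> fin_cases j <;> simp [reg, mkLin, mk, regE, Matrix.diagonal]

theorem regE_inj (i j : Fin 4) (hij : i ≠ j) : regE j - regE i ≠ 0 := by
  fin_cases i <;> fin_cases j <;> simp [regE] at hij ⊢ <;> norm_num

instance : diagSub.IsCartanSubalgebra where
  nilpotent := inferInstance
  self_normalizing := by
    apply le_antisymm
    · intro x hx
      rw [LieSubalgebra.mem_normalizer_iff] at hx
      have hr : reg ∈ diagSub := by
        intro i j hij
        rw [reg_val, Matrix.diagonal_apply_ne _ hij]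
      have h := hx reg hr
      intro i j hij
      have h2 := h i j hij
      have h3 : ((⁅x, reg⁆ : sp) : Matrix (Fin 4) (Fin 4) ℂ) i j =
          (x : Matrix (Fin 4) (Fin 4) ℂ) i j * (regE j - regE i) := by
        change ((x : Matrix (Fin 4) (Fin 4) ℂ) * (reg : Matrix (Fin 4) (Fin 4) ℂ) -
          (reg : Matrix (Fin 4) (Fin 4) ℂ) * (x : Matrix (Fin 4) (Fin 4) ℂ)) i j = _
        rw [reg_val, Matrix.sub_apply, Matrix.mul_diagonal, Matrix.diagonal_mul]
        ring
      rw [h3] at h2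
      exact (mul_eq_zero.mp h2).resolve_right (regE_inj i j hij)
    · exact LieSubalgebra.le_normalizer _

theorem finrank_diagSub : Module.finrank ℂ diagSub ≤ 2 := by
  let F : diagSub →ₗ[ℂ] (Fin 2 → ℂ) :=
    { toFun := fun x => ![((x : sp) : Matrix (Fin 4) (Fin 4) ℂ) 0 0,
        ((x : sp) : Matrix (Fin 4) (Fin 4) ℂ) 1 1]
      map_add' := fun a b => by
        ext i
        fin_cases i <;> rfl
      map_smul' := fun c a => by
        ext i
        fin_cases i <;> rfl }
  have hF : Function.Injective F := by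
    rw [injective_iff_map_eq_zero]
    intro x hx
    have h0 : ((x : sp) : Matrix (Fin 4) (Fin 4) ℂ) 0 0 = 0 := congr_fun hx 0
    have h1 : ((x : sp) : Matrix (Fin 4) (Fin 4) ℂ) 1 1 = 0 := congr_fun hx 1
    obtain ⟨h2, h3, -⟩ := sp_entries _ (x : sp).2
    apply Subtype.ext
    apply Subtype.ext
    change ((x : sp) : Matrix (Fin 4) (Fin 4) ℂ) = 0
    ext i j
    by_cases hij : i = j
    · subst hij
      fin_cases i
      · exact h0
      · exact h1
      · exact h2.trans (by rw [h0, neg_zero]; rfl)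
      · exact h3.trans (by rw [h1, neg_zero]; rfl)
    · exact x.2 i j hij
  have h := LinearMap.finrank_le_finrank_of_injective hF
  rwa [Module.finrank_fin_fun] at h

end H957.SP4
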